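import Pool.Agent.Lib.MP_a3a416_nt.GL.Count

/-!
# GW-GCount
THE GAP LAW without the condition `C J L ≤ ρ x` (wide range): only the parameter `N₁` changes.  Copy `GL/Count.lean` (proof of `gap_law`).
PROOF.  `q, S, T, A, r, δ` as in `GL/Count.lean`, but `N₁ := q x / S + 1 + 3 q (A S)` (natural division), `N := q N₁`.  So `q x ≤ S N₁` and `3 q (A S) ≤ N₁` hold without any condition on `x`; `T + S + A + 10 ≤ N` because `N ≥ 3 q^2 (A S)`, `A S ≥ 3 T`-type (`A S + S > (q-2) T`,
`S ≤ T/3`, `q ≥ 16`).  `params`, `theta_bad` as before: `∑_{bad p, N < p ≤ x} log p ≤ C₁ (q+1) N (1 + log(T + S + 1))`, `θ(N) ≤ log 4 N`, `N ≤ q^2 x/S + q + 3 q^2 (A S)`, `A S ≤ 2 q J`, `S ≥ L/3`: `N ≤ 4 q^2 (x/L + 2 q J)` (the summand `q ≤ q^3 J`).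
Total `∑_{bad p ≤ x} log p ≤ C₂ (q^3 x/L + q^4 J) log(2J) ≤ C₃ x log(2J) (1/(ρ^3 L) + J/(ρ^4 x))`.  If `x ≤ J` the bound is trivial (number of primes `≤ 5 x/log x`, `J/(ρ^4 x) ≥ 1`, `log(2J) ≥ log 2`; for `x ≤ 1` the left side is `0`); small `x` (`x < 1000`) only occurs
with `L ≥ 1` bounded or `J ≥ x` .. : if `x < 1000` then either `J ≥ x`, or `J < 1000`, `1/(ρ^3 L) ≥ 1/1000`: trivial as well.  `√x ≤ C₄ (1/(ρ^3 L) + J/(ρ^4 x)) log(2J) x/log x`: if `L ≤ √x`: as in `GL/Count.lean` when `J < √x`..: in general `x/L ≥ √x`, and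
`log(2J)/log x ≥ 1/4` if `J ≥ x^(1/4)`, while for `J < x^(1/4)`: `L ≤ x^(1/4)`, `x/(L log x) ≥ √x/4`; if `L > √x`: `J log(2J)/log x ≥ √x/2`.
The trivial case `S < 12 q^2` as in `GL/Count.lean`.
-/

namespace MP_a3a416_nt.GW

open Polynomial MP_a3a416_nt.BB MP_a3a416_nt.GL

/-- Chebyshev's upper bound for a set of primes. -/
private theorem card_primes_upperT {x : ℕ} (hx : 2 ≤ x) (A : Finset ℕ) (hA : A ⊆ Finset.Icc 1 x)
    (hp : ∀ p ∈ A, p.Prime) : (A.card : ℝ) ≤ 5 * (x / Real.log x) := by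
  have hx' : (2 : ℝ) ≤ x := by exact_mod_cast hx
  have hlx : 0 < Real.log x := Real.log_pos (by linarith)
  have hT : ∑ p ∈ A, Real.log p ≤ Real.log 4 * x := by
    have h1 : ∑ p ∈ A, Real.log p ≤ Chebyshev.theta x := by
      rw [Chebyshev.theta]
      apply Finset.sum_le_sum_of_subset_of_nonneg
      · intro p hpA
        have h2 := Finset.mem_Icc.1 (hA hpA)
        rw [Finset.mem_filter, Finset.mem_Ioc, Nat.floor_natCast]
        exact ⟨⟨by omega, h2.2⟩, hp p hpA⟩
      · intro p hp' _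
        have h3 := (Finset.mem_filter.1 hp').2.one_lt
        exact Real.log_nonneg (by exact_mod_cast h3.le)
    exact h1.trans (Chebyshev.theta_le_log4_mul_x (by positivity))
  have h := count_le_of_sum_log hx A hA hT
  have hl4 : Real.log 4 ≤ 1.4 := by
    rw [show (4 : ℝ) = 2 ^ 2 by norm_num, Real.log_pow]
    have := Real.log_two_lt_d9
    push_cast
    linarith
  have hsq : √(x : ℝ) ≤ 2 * (x / Real.log x) := by
    rw [mul_div_assoc', le_div_iff₀ hlx]
    have h2 : Real.log x ≤ 2 * √(x : ℝ) := by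
      have h3 : Real.log (√(x : ℝ)) = Real.log x / 2 := Real.log_sqrt (by positivity)
      have h4 := Real.log_le_sub_one_of_pos (x := √(x : ℝ)) (Real.sqrt_pos.2 (by linarith))
      linarith
    have h5 : √(x : ℝ) * √(x : ℝ) = x := Real.mul_self_sqrt (by positivity)
    nlinarith [Real.sqrt_nonneg (x : ℝ)]
  have h6 : 2 * (Real.log 4 * x) / Real.log x = 2 * Real.log 4 * (x / Real.log x) := by ring
  rw [h6] at h
  have h7 : 0 ≤ (x : ℝ) / Real.log x := by positivity
  nlinarith

open Classical in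
theorem gap_law_w : ∃ C : ℝ, 0 < C ∧ ∀ (J L x : ℕ) (ρ : ℝ), 1 ≤ L → L ≤ J → 0 < ρ → ρ ≤ 1 →
    C * J ≤ ρ * (L : ℝ) ^ 2 →
    (((Finset.Icc 1 x).filter (fun p : ℕ => p.Prime ∧ ρ * J ≤ ((LR J L p).card : ℝ))).card : ℝ) ≤
      C * (Real.log (2 * J) * (1 / (ρ ^ 3 * L) + J / (ρ ^ 4 * x)) * (x / Real.log x)) := by
  obtain ⟨C₁, hC₁, hth⟩ := theta_bad
  refine ⟨4000000 + 4000000 * C₁, by positivity, ?_⟩
  intro J L x ρ hL1 hLJ hρ0 hρ1 hJ
  have hL1' : (1 : ℝ) ≤ L := by exact_mod_cast hL1
  have hLJ' : (L : ℝ) ≤ J := by exact_mod_cast hLJ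
  have hJ1' : (1 : ℝ) ≤ J := by linarith
  have hL0 : (0 : ℝ) < L := by linarith
  have hJ0 : (0 : ℝ) < J := by linarith
  have hJ1 : 60000 * (J : ℝ) ≤ ρ * (L : ℝ) ^ 2 := by
    have h1 : 0 ≤ 4000000 * C₁ * (J : ℝ) := by positivity
    linarith
  have hl2 := Real.log_two_gt_d9
  have hlJ : Real.log 2 ≤ Real.log (2 * J) := Real.log_le_log (by norm_num) (by linarith)
  have hlJ0 : 0 < Real.log (2 * J) := by linarith
  have hρ3 : 0 < ρ ^ 3 * L := by positivity
  by_cases hx2 : 2 ≤ x
  swap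
  · -- `x ≤ 1`: there are no primes
    have h1 : (Finset.Icc 1 x).filter (fun p : ℕ => p.Prime ∧ ρ * J ≤ ((LR J L p).card : ℝ)) = ∅ := by
      apply Finset.filter_eq_empty_iff.2
      intro p hp hp'
      rw [Finset.mem_Icc] at hp
      have := hp'.1.two_le
      omega
    rw [h1, Finset.card_empty]
    have h2 : (0 : ℝ) ≤ Real.log x := by
      rcases Nat.eq_zero_or_pos x with h | h
      · rw [h]
        simp
      · exact Real.log_nonneg (by exact_mod_cast h)
    have h3 : (0 : ℝ) ≤ x := by positivity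
    push_cast
    positivity
  have hx2' : (2 : ℝ) ≤ x := by exact_mod_cast hx2
  have hx0 : (0 : ℝ) < x := by linarith
  have hlx : 0 < Real.log x := Real.log_pos (by linarith)
  have hX0 : 0 ≤ (x : ℝ) / Real.log x := by positivity
  have hρ4 : 0 < ρ ^ 4 * x := by positivity
  obtain ⟨W, hW⟩ : ∃ W : ℝ, W = 1 / (ρ ^ 3 * L) + J / (ρ ^ 4 * x) := ⟨_, rfl⟩
  rw [← hW]
  have hW0 : 0 ≤ W := by
    rw [hW]
    positivity
  have hW1 : 1 / (ρ ^ 3 * L) ≤ W := by
    rw [hW]
    have : 0 ≤ (J : ℝ) / (ρ ^ 4 * x) := by positivity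
    linarith
  have hW2 : (J : ℝ) / (ρ ^ 4 * x) ≤ W := by
    rw [hW]
    have : 0 ≤ 1 / (ρ ^ 3 * (L : ℝ)) := by positivity
    linarith
  have hQ0 : 0 ≤ Real.log (2 * J) * W := by positivity
  -- the number `q`
  obtain ⟨q, hqd⟩ : ∃ q, q = ⌈16 / ρ⌉₊ := ⟨_, rfl⟩
  have hqρ1 : 16 ≤ (q : ℝ) * ρ := by
    have h1 : 16 / ρ ≤ (q : ℝ) := by
      rw [hqd]
      exact Nat.le_ceil _
    rwa [div_le_iff₀ hρ0] at h1
  have hqρ2 : (q : ℝ) * ρ ≤ 17 := by
    have h1 : (q : ℝ) < 16 / ρ + 1 := by
      rw [hqd]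
      exact Nat.ceil_lt_add_one (by positivity)
    have h2 : (q : ℝ) * ρ < (16 / ρ + 1) * ρ := mul_lt_mul_of_pos_right h1 hρ0
    have h3 : (16 / ρ + 1) * ρ = 16 + ρ := by field_simp
    linarith
  have hq0' : (0 : ℝ) ≤ q := by positivity
  have hq16' : (16 : ℝ) ≤ q := hqρ1.trans (mul_le_of_le_one_right hq0' hρ1)
  have hq16 : 16 ≤ q := by exact_mod_cast hq16'
  obtain ⟨S, hS⟩ : ∃ S, S = L / 2 := ⟨_, rfl⟩
  by_cases hSq : 12 * q ^ 2 ≤ S
  swap
  · -- the trivial case
    refine (card_primes_upperT hx2 _ (Finset.filter_subset _ _)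
      (fun p hp => (Finset.mem_filter.1 hp).2.1)).trans ?_
    have h1 : L ≤ 24 * q ^ 2 := by omega
    have h1' : (L : ℝ) ≤ 24 * (q : ℝ) ^ 2 := by exact_mod_cast h1
    have h2 : ρ ^ 3 * L ≤ 6936 := by
      have h3 : ρ ^ 3 * L ≤ ρ ^ 3 * (24 * (q : ℝ) ^ 2) :=
        mul_le_mul_of_nonneg_left h1' (by positivity)
      have h4 : ρ ^ 3 * (24 * (q : ℝ) ^ 2) = 24 * ρ * (q * ρ) ^ 2 := by ring
      have h5 : ((q : ℝ) * ρ) ^ 2 ≤ 17 ^ 2 := pow_le_pow_left₀ (by positivity) hqρ2 2
      have h6 : 24 * ρ * ((q : ℝ) * ρ) ^ 2 ≤ 24 * 1 * 17 ^ 2 :=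
        mul_le_mul (by linarith) h5 (by positivity) (by norm_num)
      rw [h4] at h3
      linarith
    have h3 : 1 ≤ 11000 * (Real.log (2 * J) * W) := by
      have h4 : Real.log (2 * J) * (1 / (ρ ^ 3 * L)) ≤ Real.log (2 * J) * W :=
        mul_le_mul_of_nonneg_left hW1 hlJ0.le
      have h5 : 1 ≤ 11000 * (Real.log (2 * J) * (1 / (ρ ^ 3 * L))) := by
        rw [mul_one_div, mul_div_assoc', le_div_iff₀ hρ3, one_mul]
        linarith
      linarith
    calc 5 * ((x : ℝ) / Real.log x) ≤ 5 * ((x : ℝ) / Real.log x) *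
          (11000 * (Real.log (2 * J) * W)) :=
          le_mul_of_one_le_right (by positivity) h3
      _ = 55000 * (Real.log (2 * J) * W * (x / Real.log x)) := by ring
      _ ≤ (4000000 + 4000000 * C₁) * (Real.log (2 * J) * W * (x / Real.log x)) :=
          mul_le_mul_of_nonneg_right (by linarith) (mul_nonneg hQ0 hX0)
  · -- the main case
    have hqq : 256 ≤ q ^ 2 := by nlinarith
    have hS3 : 3072 ≤ S := by omega
    have hS0 : 0 < S := by omega
    have h2S : 2 * S ≤ L := by omega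
    have h3S : L ≤ 3 * S := by omega
    have hS0' : (0 : ℝ) < S := by exact_mod_cast hS0
    have h2S' : 2 * (S : ℝ) ≤ L := by exact_mod_cast h2S
    have h3S' : (L : ℝ) ≤ 3 * S := by exact_mod_cast h3S
    obtain ⟨T, hT⟩ : ∃ T, T = 2 * J + 3 - S := ⟨_, rfl⟩
    have hT2 : T ≤ 2 * J := by omega
    have hTJ : J ≤ T := by omega
    have hTS : 3 * S ≤ T := by omega
    have hTS' : T + S = 2 * J + 3 := by omega
    have hT2' : (T : ℝ) ≤ 2 * J := by exact_mod_cast hT2
    obtain ⟨A, hA⟩ : ∃ A, A = (q - 2) * T / S := ⟨_, rfl⟩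
    obtain ⟨N₁, hN₁⟩ : ∃ N₁, N₁ = q * x / S + 1 + 3 * q * (A * S) := ⟨_, rfl⟩
    obtain ⟨r, hr⟩ : ∃ r, r = ⌈ρ * J⌉₊ := ⟨_, rfl⟩
    obtain ⟨δ, hδ⟩ : ∃ δ, δ = T - r := ⟨_, rfl⟩
    have hAS : A * S ≤ (q - 2) * T := by
      rw [hA]
      exact Nat.div_mul_le_self _ _
    have hAS' : (q - 2) * T < A * S + S := by
      rw [hA]
      exact Nat.lt_div_mul_add hS0
    have hAS2 : A * S ≤ 2 * (q * J) := by
      calc A * S ≤ (q - 2) * T := hAS
        _ ≤ q * (2 * J) := Nat.mul_le_mul (by omega) hT2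
        _ = 2 * (q * J) := by ring
    have hAS14 : 13 * T ≤ A * S := by
      have h1 : 14 * T ≤ (q - 2) * T := Nat.mul_le_mul_right _ (by omega)
      omega
    have hN₁3 : 3 * q * (A * S) ≤ N₁ := by
      rw [hN₁]
      exact Nat.le_add_left _ _
    have hqx : q * x ≤ S * N₁ := by
      have h1 : q * x ≤ S * (q * x / S + 1) := (Nat.lt_mul_div_succ (q * x) hS0).le
      exact h1.trans (Nat.mul_le_mul_left _ (by rw [hN₁]; exact Nat.le_add_right _ _))
    have hrJ : r ≤ J := by
      rw [hr]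
      apply Nat.ceil_le.2
      exact mul_le_of_le_one_left (by positivity) hρ1
    have hρr : ρ * J ≤ (r : ℝ) := by
      rw [hr]
      exact Nat.le_ceil _
    have h8T : 8 * T ≤ q * r := by
      have h1 : 8 * (T : ℝ) ≤ q * r := by
        have h2 : (q : ℝ) * (ρ * J) ≤ q * r := mul_le_mul_of_nonneg_left hρr hq0'
        have h3 : 16 * (J : ℝ) ≤ (q * ρ) * J := mul_le_mul_of_nonneg_right hqρ1 (by linarith)
        have h4 : ((q : ℝ) * ρ) * J = q * (ρ * J) := by ring
        linarith
      exact_mod_cast h1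
    have hδ8 : q * δ + 8 * T ≤ q * T := by
      have h1 : δ + r = T := by omega
      calc q * δ + 8 * T ≤ q * δ + q * r := by omega
        _ = q * T := by rw [← mul_add, h1]
    obtain ⟨hA1, hA12, k, hk1, hk2, hk3, hk4, hk5⟩ := params hq16 hSq hTS hA hN₁3 hqx hδ8
    have hAT : A ≤ T := by
      have h1 : A ≤ q * A := Nat.le_mul_of_pos_left _ (by omega)
      omega
    have hT1 : 1 ≤ T := by omega
    have hN₁1 : 1 ≤ N₁ := by
      rw [hN₁]
      exact le_trans (Nat.le_add_left 1 _) (Nat.le_add_right _ _)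
    have hNN : N₁ ≤ q * N₁ := Nat.le_mul_of_pos_left _ (by omega)
    have hbig : T + S + A + 10 ≤ q * N₁ := by
      have h1 : A * S ≤ 3 * q * (A * S) := Nat.le_mul_of_pos_left _ (by omega)
      have h2 : 13 * T ≤ q * N₁ := hAS14.trans (h1.trans (hN₁3.trans hNN))
      have h3 : 3072 ≤ T := by omega
      have h4 : T + S + A + 10 ≤ 13 * T := by omega
      exact h4.trans h2
    have hASL : A + S ≤ L := by
      have h1 : A ≤ S := by
        have h2 : (q - 2) * T ≤ S * S := by
          have h3 : 2 * (q * J) ≤ S * S := by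
            have h4 : 2 * ((q : ℝ) * J) ≤ S * S := by
              have h5 : ρ * (2 * ((q : ℝ) * J)) ≤ ρ * (S * S) := by
                have h6 : ρ * (2 * ((q : ℝ) * J)) = 2 * ((q * ρ) * J) := by ring
                have h7 : ((q : ℝ) * ρ) * J ≤ 17 * J := mul_le_mul_of_nonneg_right hqρ2 (by linarith)
                have h8 : (L : ℝ) ^ 2 ≤ (3 * S) ^ 2 := pow_le_pow_left₀ hL0.le h3S' 2
                have h9 : ρ * (L : ℝ) ^ 2 ≤ ρ * (3 * S) ^ 2 := mul_le_mul_of_nonneg_left h8 hρ0.le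
                have h10 : ρ * (3 * (S : ℝ)) ^ 2 = 9 * (ρ * (S * S)) := by ring
                rw [h6]
                have h11 : 0 ≤ ρ * ((S : ℝ) * S) := by positivity
                linarith
              exact le_of_mul_le_mul_left h5 hρ0
            exact_mod_cast h4
          calc (q - 2) * T ≤ q * (2 * J) := Nat.mul_le_mul (by omega) hT2
            _ = 2 * (q * J) := by ring
            _ ≤ S * S := h3
        rw [hA]
        exact Nat.div_le_of_le_mul h2
      omega
    have hB := hth A S (q * N₁) N₁ T δ q k x hA1 hT1 hN₁1 hNN hbig (by omega) hk1 hk2 hk3 hk4 hk5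
    -- the bad primes
    have hbad : ∀ p : ℕ, ρ * J ≤ ((LR J L p).card : ℝ) → (badPos A S T p).card ≤ δ := by
      intro p hp
      have h1 : r ≤ (LR J L p).card := by
        rw [hr]
        exact Nat.ceil_le.2 hp
      have h2 := bad_card (p := p) hASL hTS'
      omega
    set N : ℕ := q * N₁ with hN
    have hN0 : (0 : ℝ) ≤ N := by positivity
    -- the size of `N`
    have hNle0 : (N : ℝ) ≤ 3 * ((q : ℝ) ^ 2 * (x / L)) + 7 * ((q : ℝ) ^ 3 * J) := by
      have h1 : ((q * x / S : ℕ) : ℝ) ≤ ((q * x : ℕ) : ℝ) / S := Nat.cast_div_le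
      have h2 : ((q * x : ℕ) : ℝ) / S ≤ 3 * (q * (x / L)) := by
        rw [div_le_iff₀ hS0']
        push_cast
        have h3 : (1 : ℝ) ≤ 3 * (S / L) := by
          rw [mul_div_assoc', le_div_iff₀ hL0]
          linarith
        have h4 : 3 * ((q : ℝ) * (x / L)) * S = q * x * (3 * (S / L)) := by ring
        rw [h4]
        exact le_mul_of_one_le_right (by positivity) h3
      have h5 : ((A * S : ℕ) : ℝ) ≤ 2 * (q * J) := by
        have := hAS2
        exact_mod_cast this
      have h6 : (N₁ : ℝ) ≤ 3 * (q * (x / L)) + 1 + 3 * q * (2 * (q * J)) := by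
        rw [hN₁]
        have h7 : 3 * (q : ℝ) * ((A * S : ℕ) : ℝ) ≤ 3 * q * (2 * (q * J)) :=
          mul_le_mul_of_nonneg_left h5 (by positivity)
        have h8 : ((q * x / S + 1 + 3 * q * (A * S) : ℕ) : ℝ) =
            ((q * x / S : ℕ) : ℝ) + 1 + 3 * (q : ℝ) * ((A * S : ℕ) : ℝ) := by
          push_cast
          ring
        rw [h8]
        linarith
      have h9 : (N : ℝ) = q * N₁ := by
        rw [hN]
        push_cast
        ring
      have h10 : (q : ℝ) ≤ (q : ℝ) ^ 3 * J := by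
        have h11 : (1 : ℝ) ≤ (q : ℝ) ^ 2 * J := by
          have h12 : (1 : ℝ) ≤ (q : ℝ) ^ 2 := one_le_pow₀ (by linarith)
          exact one_le_mul_of_one_le_of_one_le h12 hJ1'
        calc (q : ℝ) = q * 1 := (mul_one _).symm
          _ ≤ q * ((q : ℝ) ^ 2 * J) := mul_le_mul_of_nonneg_left h11 hq0'
          _ = (q : ℝ) ^ 3 * J := by ring
      rw [h9]
      calc (q : ℝ) * N₁ ≤ q * (3 * (q * (x / L)) + 1 + 3 * q * (2 * (q * J))) :=
            mul_le_mul_of_nonneg_left h6 hq0'
        _ = 3 * ((q : ℝ) ^ 2 * (x / L)) + q + 6 * ((q : ℝ) ^ 3 * J) := by ring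
        _ ≤ 3 * ((q : ℝ) ^ 2 * (x / L)) + 7 * ((q : ℝ) ^ 3 * J) := by linarith
    have hqN0 : ((q : ℝ) + 1) * N ≤ 620000 * (x * W) := by
      have h1 : ((q : ℝ) + 1) * ρ ≤ 18 := by linarith
      have h2 : ((q : ℝ) + 1) * (3 * ((q : ℝ) ^ 2 * (x / L))) ≤ 620000 * (x * (1 / (ρ ^ 3 * L))) := by
        have h3 : 620000 * (x * (1 / (ρ ^ 3 * (L : ℝ)))) = 620000 * (x / L) / ρ ^ 3 := by
          field_simp
        rw [h3, le_div_iff₀ (by positivity)]
        have h4 : ((q : ℝ) + 1) * (3 * ((q : ℝ) ^ 2 * (x / L))) * ρ ^ 3 =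
            3 * (x / L) * ((((q : ℝ) + 1) * ρ) * (q * ρ) ^ 2) := by ring
        rw [h4]
        have h5 : ((q : ℝ) * ρ) ^ 2 ≤ 17 ^ 2 := pow_le_pow_left₀ (by positivity) hqρ2 2
        have h6 : (((q : ℝ) + 1) * ρ) * (q * ρ) ^ 2 ≤ 18 * 17 ^ 2 :=
          mul_le_mul h1 h5 (by positivity) (by norm_num)
        have h7 : 3 * (x / L : ℝ) * ((((q : ℝ) + 1) * ρ) * (q * ρ) ^ 2) ≤ 3 * (x / L) * (18 * 17 ^ 2) :=
          mul_le_mul_of_nonneg_left h6 (by positivity)
        have h8 : 0 ≤ (x : ℝ) / L := by positivity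
        linarith
      have h2' : ((q : ℝ) + 1) * (7 * ((q : ℝ) ^ 3 * J)) ≤ 620000 * (x * (J / (ρ ^ 4 * x))) := by
        have h3 : 620000 * (x * (J / (ρ ^ 4 * x))) = 620000 * (J : ℝ) / ρ ^ 4 := by
          field_simp
        rw [h3, le_div_iff₀ (by positivity)]
        have h4 : ((q : ℝ) + 1) * (7 * ((q : ℝ) ^ 3 * J)) * ρ ^ 4 =
            7 * J * ((((q : ℝ) + 1) * ρ) * (q * ρ) ^ 3) := by ring
        rw [h4]
        have h5 : ((q : ℝ) * ρ) ^ 3 ≤ 17 ^ 3 := pow_le_pow_left₀ (by positivity) hqρ2 3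
        have h6 : (((q : ℝ) + 1) * ρ) * (q * ρ) ^ 3 ≤ 18 * 17 ^ 3 :=
          mul_le_mul h1 h5 (by positivity) (by norm_num)
        have h7 : 7 * (J : ℝ) * ((((q : ℝ) + 1) * ρ) * (q * ρ) ^ 3) ≤ 7 * J * (18 * 17 ^ 3) :=
          mul_le_mul_of_nonneg_left h6 (by positivity)
        linarith
      have h9 : ((q : ℝ) + 1) * N ≤
          ((q : ℝ) + 1) * (3 * ((q : ℝ) ^ 2 * (x / L)) + 7 * ((q : ℝ) ^ 3 * J)) :=
        mul_le_mul_of_nonneg_left hNle0 (by linarith)
      have h10 : 620000 * ((x : ℝ) * W) =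
          620000 * (x * (1 / (ρ ^ 3 * L))) + 620000 * (x * (J / (ρ ^ 4 * x))) := by
        rw [hW]
        ring
      rw [h10]
      rw [mul_add] at h9
      linarith
    -- logarithms
    have hJbig : 3072 ≤ J := by omega
    have hJbig' : (3072 : ℝ) ≤ J := by exact_mod_cast hJbig
    have hlJ1 : 1 ≤ Real.log (2 * J) := by
      have h1 : Real.log 4 ≤ Real.log (2 * J) := Real.log_le_log (by norm_num) (by linarith)
      have h2 : Real.log 4 = 2 * Real.log 2 := by
        rw [show (4 : ℝ) = 2 ^ 2 by norm_num, Real.log_pow]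
        norm_num
      linarith
    have hlog : 1 + Real.log ((T : ℝ) + S + 1) ≤ 3 * Real.log (2 * J) := by
      have h1 : (T : ℝ) + S + 1 = 2 * J + 4 := by
        have h2 : (T : ℝ) + S = 2 * J + 3 := by exact_mod_cast hTS'
        linarith
      rw [h1]
      have h2 : Real.log (2 * J + 4) ≤ Real.log (2 * (2 * J)) :=
        Real.log_le_log (by linarith) (by linarith)
      rw [Real.log_mul (by norm_num) (by linarith)] at h2
      linarith
    have hlog0 : 0 ≤ Real.log ((T : ℝ) + S + 1) := by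
      apply Real.log_nonneg
      have : (0 : ℝ) ≤ T := by positivity
      linarith
    have hsplit : ∑ p ∈ (Finset.Icc 1 x).filter
        (fun p : ℕ => p.Prime ∧ ρ * J ≤ ((LR J L p).card : ℝ)), Real.log p ≤
        ∑ p ∈ (Finset.Icc 1 N).filter (fun p : ℕ => p.Prime), Real.log p +
        ∑ p ∈ (Finset.Icc (N + 1) x).filter
          (fun p : ℕ => p.Prime ∧ (badPos A S T p).card ≤ δ), Real.log p := by
      have hdisj : Disjoint ((Finset.Icc 1 N).filter (fun p : ℕ => p.Prime))
          ((Finset.Icc (N + 1) x).filter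
            (fun p : ℕ => p.Prime ∧ (badPos A S T p).card ≤ δ)) := by
        rw [Finset.disjoint_left]
        intro p hp hp'
        rw [Finset.mem_filter, Finset.mem_Icc] at hp hp'
        omega
      rw [← Finset.sum_union hdisj]
      apply Finset.sum_le_sum_of_subset_of_nonneg
      · intro p hp
        rw [Finset.mem_filter, Finset.mem_Icc] at hp
        rw [Finset.mem_union, Finset.mem_filter, Finset.mem_filter, Finset.mem_Icc, Finset.mem_Icc]
        by_cases h : p ≤ N
        · exact Or.inl ⟨⟨hp.1.1, h⟩, hp.2.1⟩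
        · exact Or.inr ⟨⟨by omega, hp.1.2⟩, hp.2.1, hbad p hp.2.2⟩
      · intro p hp _
        have h1 : 1 < p := by
          rw [Finset.mem_union, Finset.mem_filter, Finset.mem_filter] at hp
          rcases hp with h | h
          · exact h.2.one_lt
          · exact h.2.1.one_lt
        exact Real.log_nonneg (by exact_mod_cast h1.le)
    have hA2 : ∑ p ∈ (Finset.Icc 1 N).filter (fun p : ℕ => p.Prime), Real.log p ≤ 2 * N := by
      have h1 : ∑ p ∈ (Finset.Icc 1 N).filter (fun p : ℕ => p.Prime), Real.log p ≤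
          Chebyshev.theta N := by
        rw [Chebyshev.theta, Nat.floor_natCast]
        apply le_of_eq
        apply Finset.sum_congr _ (fun _ _ => rfl)
        ext p
        rw [Finset.mem_filter, Finset.mem_filter, Finset.mem_Icc, Finset.mem_Ioc]
        rfl
      have h2 : Chebyshev.theta N ≤ Real.log 4 * N := Chebyshev.theta_le_log4_mul_x (by positivity)
      have hl4 : Real.log 4 ≤ 2 := by
        rw [show (4 : ℝ) = 2 ^ 2 by norm_num, Real.log_pow]
        have := Real.log_two_lt_d9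
        push_cast
        linarith
      have h3 : Real.log 4 * (N : ℝ) ≤ 2 * N := mul_le_mul_of_nonneg_right hl4 hN0
      linarith
    obtain ⟨Q, hQ⟩ : ∃ Q : ℝ, Q = Real.log (2 * J) * W := ⟨_, rfl⟩
    rw [← hQ]
    rw [← hQ] at hQ0
    have hWQ : x * W ≤ Q * x := by
      rw [hQ]
      have h1 : (x : ℝ) * W * 1 ≤ x * W * Real.log (2 * J) :=
        mul_le_mul_of_nonneg_left hlJ1 (by positivity)
      have h2 : Real.log (2 * J) * W * x = x * W * Real.log (2 * J) := by ring
      rw [h2]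
      linarith
    have hN2 : 2 * (N : ℝ) ≤ 620000 * (Q * x) := by
      have h1 : 2 * (N : ℝ) ≤ ((q : ℝ) + 1) * N := mul_le_mul_of_nonneg_right (by linarith) hN0
      have h2 : 620000 * (x * W) ≤ 620000 * (Q * x) := mul_le_mul_of_nonneg_left hWQ (by norm_num)
      linarith
    have hqN : ((q : ℝ) + 1) * (N * (1 + Real.log ((T : ℝ) + S + 1))) ≤ 1860000 * (Q * x) := by
      have h2 : ((q : ℝ) + 1) * (N * (1 + Real.log ((T : ℝ) + S + 1))) ≤
          ((q : ℝ) + 1) * (N * (3 * Real.log (2 * J))) := by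
        apply mul_le_mul_of_nonneg_left _ (by linarith)
        exact mul_le_mul_of_nonneg_left hlog hN0
      have h3 : ((q : ℝ) + 1) * (N * (3 * Real.log (2 * J))) =
          (((q : ℝ) + 1) * N) * (3 * Real.log (2 * J)) := by ring
      have h4 : (((q : ℝ) + 1) * N) * (3 * Real.log (2 * J)) ≤
          620000 * (x * W) * (3 * Real.log (2 * J)) :=
        mul_le_mul_of_nonneg_right hqN0 (by positivity)
      have h5 : 620000 * (x * W) * (3 * Real.log (2 * J)) = 1860000 * (Q * x) := by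
        rw [hQ]
        ring
      rw [h3] at h2
      linarith
    have hsum : ∑ p ∈ (Finset.Icc 1 x).filter
        (fun p : ℕ => p.Prime ∧ ρ * J ≤ ((LR J L p).card : ℝ)), Real.log p ≤
        (620000 + 1860000 * C₁) * (Q * x) := by
      have h7 := mul_le_mul_of_nonneg_left hqN hC₁.le
      have h8 : C₁ * (1860000 * (Q * x)) = 1860000 * C₁ * (Q * x) := by ring
      rw [h8] at h7
      have h9 : (620000 + 1860000 * C₁) * (Q * x) =
          620000 * (Q * x) + 1860000 * C₁ * (Q * x) := by ring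
      rw [h9]
      linarith
    have hcount := count_le_of_sum_log hx2 _ (Finset.filter_subset _ _) hsum
    -- the term `√x`
    have hsq : √(x : ℝ) ≤ 5 * (Q * (x / Real.log x)) := by
      set u : ℝ := √(x : ℝ) with hu
      have hu2 : u * u = x := Real.mul_self_sqrt hx0.le
      have hu0 : 0 < u := Real.sqrt_pos.2 hx0
      have hlogx : Real.log x = 2 * Real.log u := by
        rw [← hu2, Real.log_mul hu0.ne' hu0.ne']
        ring
      have h8 : u * Real.log x ≤ 5 * (Q * x) := by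
        rcases le_or_gt (L : ℝ) u with hLu | hLu
        · have hw1 : 1 ≤ u / L := by
            rw [one_le_div hL0]
            exact hLu
          have hLlog : L * Real.log x ≤ 4 * (u * Real.log (2 * J)) := by
            have h2 : Real.log u = Real.log (u / L) + Real.log L := by
              rw [Real.log_div hu0.ne' hL0.ne']
              ring
            have h3 : Real.log (u / L) ≤ u / L - 1 := Real.log_le_sub_one_of_pos (by positivity)
            have h4 : Real.log L ≤ Real.log (2 * J) := Real.log_le_log hL0 (by linarith)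
            have h5 : (L : ℝ) * Real.log (2 * J) ≤ u * Real.log (2 * J) :=
              mul_le_mul_of_nonneg_right hLu hlJ0.le
            have h6 : (L : ℝ) * (u / L) = u := by field_simp
            have h7 : (L : ℝ) * Real.log u ≤ L * (u / L + Real.log (2 * J)) := by
              apply mul_le_mul_of_nonneg_left _ hL0.le
              rw [h2]
              linarith
            have h8 : u * 1 ≤ u * Real.log (2 * J) := mul_le_mul_of_nonneg_left hlJ1 hu0.le
            rw [hlogx]
            have h9 : (L : ℝ) * (u / L + Real.log (2 * J)) = u + L * Real.log (2 * J) := by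
              rw [mul_add, h6]
            rw [h9] at h7
            linarith
          have hxW : (x : ℝ) / L ≤ x * W := by
            have h1 : (1 : ℝ) / L ≤ 1 / (ρ ^ 3 * L) := by
              apply one_div_le_one_div_of_le hρ3
              have h2 : ρ ^ 3 ≤ 1 := pow_le_one₀ hρ0.le hρ1
              calc ρ ^ 3 * L ≤ 1 * L := mul_le_mul_of_nonneg_right h2 hL0.le
                _ = L := one_mul _
            have h3 : (x : ℝ) * (1 / L) ≤ x * W := mul_le_mul_of_nonneg_left (h1.trans hW1) hx0.le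
            rwa [mul_one_div] at h3
          have h10 : u * Real.log x ≤ 4 * (x / L * Real.log (2 * J)) := by
            have h11 : 4 * (x / L * Real.log (2 * J)) = 4 * (u * u * Real.log (2 * J)) / L := by
              rw [hu2]
              ring
            rw [h11, le_div_iff₀ hL0]
            have h12 := mul_le_mul_of_nonneg_left hLlog hu0.le
            have h13 : u * Real.log x * L = u * (L * Real.log x) := by ring
            have h14 : u * (4 * (u * Real.log (2 * J))) = 4 * (u * u * Real.log (2 * J)) := by ring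
            rw [h13, ← h14]
            exact h12
          have h15 : (x : ℝ) / L * Real.log (2 * J) ≤ x * W * Real.log (2 * J) :=
            mul_le_mul_of_nonneg_right hxW hlJ0.le
          have h16 : (x : ℝ) * W * Real.log (2 * J) = Q * x := by
            rw [hQ]
            ring
          have h17 : 0 ≤ Q * x := mul_nonneg hQ0 hx0.le
          rw [h16] at h15
          linarith
        · have h1 : u ≤ J := by linarith
          have h2 : Real.log u ≤ Real.log (2 * J) := Real.log_le_log hu0 (by linarith)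
          have h3 : (J : ℝ) ≤ x * W := by
            have h4 : (J : ℝ) / x ≤ J / (ρ ^ 4 * x) := by
              apply div_le_div_of_nonneg_left hJ0.le hρ4
              have h5 : ρ ^ 4 ≤ 1 := pow_le_one₀ hρ0.le hρ1
              calc ρ ^ 4 * x ≤ 1 * x := mul_le_mul_of_nonneg_right h5 hx0.le
                _ = x := one_mul _
            have h6 : (x : ℝ) * (J / x) ≤ x * W := mul_le_mul_of_nonneg_left (h4.trans hW2) hx0.le
            have h7 : (x : ℝ) * (J / x) = J := by field_simp
            rwa [h7] at h6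
          have h4 : u * Real.log u ≤ J * Real.log (2 * J) :=
            (mul_le_mul_of_nonneg_left h2 hu0.le).trans (mul_le_mul_of_nonneg_right h1 hlJ0.le)
          have h5 : (J : ℝ) * Real.log (2 * J) ≤ x * W * Real.log (2 * J) :=
            mul_le_mul_of_nonneg_right h3 hlJ0.le
          have h16 : (x : ℝ) * W * Real.log (2 * J) = Q * x := by
            rw [hQ]
            ring
          have h17 : 0 ≤ Q * x := mul_nonneg hQ0 hx0.le
          rw [h16] at h5
          rw [hlogx]
          linarith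
      have h12 : 5 * (Q * (x / Real.log x)) = 5 * (Q * x) / Real.log x := by ring
      rw [h12, le_div_iff₀ hlx]
      exact h8
    have h13 : 2 * ((620000 + 1860000 * C₁) * (Q * x)) / Real.log x =
        (1240000 + 3720000 * C₁) * (Q * (x / Real.log x)) := by
      ring
    rw [h13] at hcount
    have h14 : 0 ≤ Q * (x / Real.log x) := mul_nonneg hQ0 hX0
    have h15 : 0 ≤ C₁ * (Q * (x / Real.log x)) := mul_nonneg hC₁.le h14
    have h16 : (1240000 + 3720000 * C₁) * (Q * (x / Real.log x)) =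
        1240000 * (Q * (x / Real.log x)) + 3720000 * (C₁ * (Q * (x / Real.log x))) := by ring
    have h17 : (4000000 + 4000000 * C₁) * (Q * (x / Real.log x)) =
        4000000 * (Q * (x / Real.log x)) + 4000000 * (C₁ * (Q * (x / Real.log x))) := by ring
    rw [h16] at hcount
    rw [h17]
    linarith

end MP_a3a416_nt.GW
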