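import Pool.Agent.Lib.MP_a3a416_nt.GW.GCount
import Pool.Agent.Lib.MP_a3a416_nt.GL.Law

/-!
# GW-Law
The gap law for almost all primes, ALL `J ≥ J₀` and `L` (no upper bound for `J`), with the third term `(J/x)^(1/4)`.  Copy `GL/Law.lean` (it becomes simpler: no `j₁`, no `LR_empty_or`).
PROOF.  WLOG `δ ≤ 1/10`.  For `J ≥ x` the bound `J^(1+δ) (J/x)^(1/4) ≥ J ≥ #LR` is trivial (`LR_card_le`).  For `i ≥ i₀`, `2^i ≤ 2x` and `0 ≤ j ≤ i` let `ρ i j = (1/64) 2^(i δ) max (2^(-j/3)) (2^(i-2j)) (2^i/x)^(1/4)`,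
`B i j` := the set of primes `p ≤ x` with `ρ i j * 2^i ≤ #LR (2^i) (2^j) p`, for the pairs with `ρ i j ≤ 1`.
(a) `gap_law_w` applies (`i₀` large): `C 2^i ≤ ρ 4^j` because `ρ 4^j ≥ (1/64) 2^(iδ) 2^i`.  `ρ^3 2^j ≥ 64^(-3) 2^(3iδ)`, `ρ^4 x/2^i ≥ 64^(-4) 2^(4iδ)`, so `#B i j ≤ C' (i+1) 2^(-3iδ) x/log x`; sum over `j ≤ i` and `i ≥ i₀`: `≤ ε x/log x` for `i₀` large.
(b) Let `p ≤ x` be in no `B i j`, `J₀ = 2^i₀ ≤ J < x`, `1 ≤ L`; if `L > J`, `LR J L p = ∅`; let `L ≤ J`, `2^(i-1) < J ≤ 2^i`, `2^j ≤ L < 2^(j+1)`, `j ≤ i`, `2^i ≤ 2 x`.  `LR J L p ⊆ LR (2^i) (2^j) p` (`LR_mono`).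
`J^δ max (L^(-1/3)) (J/L^2) ((J/x)^(1/4)) ≥ (1/16) (2^i)^δ max ((2^j)^(-1/3)) (2^(i-2j)) ((2^i/x)^(1/4))`-type comparison `≥ ρ i j` (`2^i ≤ 2J`, `L < 2^(j+1)`, so each of the three terms loses at most a factor `8`, and `J^(1+δ)` at most `2^(1+δ)`).
If `ρ i j > 1`: `#LR J L p ≤ J ≤ J^(1+δ) max ..`; otherwise `#LR J L p ≤ #LR (2^i)(2^j) p < ρ i j 2^i ≤ J^(1+δ) max ..`.
-/

namespace MP_a3a416_nt.GW

open MP_a3a416_nt.GL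

/-- the maximum of the three terms of the dyadic density. -/
private noncomputable def mx (x : ℝ) (i j : ℕ) : ℝ :=
  max (max ((2:ℝ) ^ (-((j:ℝ) / 3))) ((2:ℝ) ^ ((i:ℝ) - 2 * j))) (((2:ℝ) ^ i / x) ^ (1 / 4 : ℝ))

/-- the dyadic density. -/
private noncomputable def rw' (δ x : ℝ) (i j : ℕ) : ℝ :=
  1 / 64 * ((2:ℝ) ^ ((i:ℝ) * δ) * mx x i j)

private lemma mx_pos (x : ℝ) (i j : ℕ) : 0 < mx x i j := by
  unfold mx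
  exact lt_of_lt_of_le (by positivity) ((le_max_left _ _).trans (le_max_left _ _))

private lemma rw_ge {δ x t : ℝ} {i j : ℕ} (ht : t ≤ mx x i j) :
    1 / 64 * ((2:ℝ) ^ ((i:ℝ) * δ) * t) ≤ rw' δ x i j := by
  unfold rw'
  have h2 : (0:ℝ) ≤ (2:ℝ) ^ ((i:ℝ) * δ) := by positivity
  nlinarith [mul_le_mul_of_nonneg_left ht h2]

private lemma rw_left (δ x : ℝ) (i j : ℕ) :
    1 / 64 * ((2:ℝ) ^ ((i:ℝ) * δ) * (2:ℝ) ^ (-((j:ℝ) / 3))) ≤ rw' δ x i j :=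
  rw_ge ((le_max_left _ _).trans (le_max_left _ _))

private lemma rw_right (δ x : ℝ) (i j : ℕ) :
    1 / 64 * ((2:ℝ) ^ ((i:ℝ) * δ) * (2:ℝ) ^ ((i:ℝ) - 2 * j)) ≤ rw' δ x i j :=
  rw_ge ((le_max_right _ _).trans (le_max_left _ _))

private lemma rw_third (δ x : ℝ) (i j : ℕ) :
    1 / 64 * ((2:ℝ) ^ ((i:ℝ) * δ) * ((2:ℝ) ^ i / x) ^ (1 / 4 : ℝ)) ≤ rw' δ x i j :=
  rw_ge (le_max_right _ _)

private lemma rw_pos (δ x : ℝ) (i j : ℕ) : 0 < rw' δ x i j :=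
  lt_of_lt_of_le (by positivity) (rw_left δ x i j)

private lemma rw_sq (δ x : ℝ) (i j : ℕ) :
    1 / 64 * (2:ℝ) ^ ((i:ℝ) * δ) * (2:ℝ) ^ i ≤ rw' δ x i j * ((2:ℝ) ^ j) ^ 2 := by
  have h := rw_right δ x i j
  have e : (2:ℝ) ^ ((i:ℝ) - 2 * j) * ((2:ℝ) ^ j) ^ 2 = (2:ℝ) ^ i := by
    rw [← Real.rpow_natCast (2:ℝ) j, ← Real.rpow_natCast (2:ℝ) i, ← Real.rpow_natCast _ 2,
      ← Real.rpow_mul (by norm_num), ← Real.rpow_add (by norm_num)]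
    congr 1
    push_cast
    ring
  calc 1 / 64 * (2:ℝ) ^ ((i:ℝ) * δ) * (2:ℝ) ^ i
      = 1 / 64 * ((2:ℝ) ^ ((i:ℝ) * δ) * (2:ℝ) ^ ((i:ℝ) - 2 * j)) * ((2:ℝ) ^ j) ^ 2 := by
        rw [← e]; ring
    _ ≤ rw' δ x i j * ((2:ℝ) ^ j) ^ 2 := by
        gcongr

private lemma rw_cube (δ x : ℝ) (i j : ℕ) :
    (1 / 64) ^ 3 * ((2:ℝ) ^ ((i:ℝ) * δ)) ^ 3 ≤ rw' δ x i j ^ 3 * (2:ℝ) ^ j := by
  have h := rw_left δ x i j
  have e : ((2:ℝ) ^ (-((j:ℝ) / 3))) ^ 3 * (2:ℝ) ^ j = 1 := by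
    rw [← Real.rpow_natCast (2:ℝ) j, ← Real.rpow_natCast _ 3,
      ← Real.rpow_mul (by norm_num), ← Real.rpow_add (by norm_num)]
    rw [show -((j:ℝ) / 3) * ((3:ℕ):ℝ) + (j:ℝ) = 0 by push_cast; ring]
    simp
  calc (1 / 64) ^ 3 * ((2:ℝ) ^ ((i:ℝ) * δ)) ^ 3
      = (1 / 64) ^ 3 * ((2:ℝ) ^ ((i:ℝ) * δ)) ^ 3 * (((2:ℝ) ^ (-((j:ℝ) / 3))) ^ 3 * (2:ℝ) ^ j) := by
        rw [e]; ring
    _ = (1 / 64 * ((2:ℝ) ^ ((i:ℝ) * δ) * (2:ℝ) ^ (-((j:ℝ) / 3)))) ^ 3 * (2:ℝ) ^ j := by ring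
    _ ≤ rw' δ x i j ^ 3 * (2:ℝ) ^ j := by
        gcongr

private lemma rw_four {δ x : ℝ} (hδ : 0 < δ) (hx : 0 < x) (i j : ℕ) :
    (1 / 64) ^ 4 * ((2:ℝ) ^ ((i:ℝ) * δ)) ^ 3 * (2:ℝ) ^ i ≤ rw' δ x i j ^ 4 * x := by
  have h := rw_third δ x i j
  have hq : (0:ℝ) ≤ (2:ℝ) ^ i / x := by positivity
  have e : (((2:ℝ) ^ i / x) ^ (1 / 4 : ℝ)) ^ 4 * x = (2:ℝ) ^ i := by
    rw [← Real.rpow_natCast _ 4, ← Real.rpow_mul hq]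
    rw [show (1 / 4 : ℝ) * ((4:ℕ):ℝ) = 1 by push_cast; ring, Real.rpow_one]
    field_simp
  have h1 : (1:ℝ) ≤ (2:ℝ) ^ ((i:ℝ) * δ) := by
    apply Real.one_le_rpow (by norm_num)
    positivity
  have h2 : ((2:ℝ) ^ ((i:ℝ) * δ)) ^ 3 ≤ ((2:ℝ) ^ ((i:ℝ) * δ)) ^ 4 :=
    pow_le_pow_right₀ h1 (by norm_num)
  calc (1 / 64) ^ 4 * ((2:ℝ) ^ ((i:ℝ) * δ)) ^ 3 * (2:ℝ) ^ i
      ≤ (1 / 64) ^ 4 * ((2:ℝ) ^ ((i:ℝ) * δ)) ^ 4 * (2:ℝ) ^ i := by gcongr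
    _ = (1 / 64) ^ 4 * ((2:ℝ) ^ ((i:ℝ) * δ)) ^ 4 * ((((2:ℝ) ^ i / x) ^ (1 / 4 : ℝ)) ^ 4 * x) := by
        rw [e]
    _ = (1 / 64 * ((2:ℝ) ^ ((i:ℝ) * δ) * ((2:ℝ) ^ i / x) ^ (1 / 4 : ℝ))) ^ 4 * x := by ring
    _ ≤ rw' δ x i j ^ 4 * x := by
        gcongr

private lemma rw_compare {δ : ℝ} (hδ : 0 < δ) (hδ1 : δ ≤ 1) {i j J L x : ℕ} (h1 : 2 ^ i ≤ 2 * J)
    (h2 : L < 2 * 2 ^ j) (hL : 1 ≤ L) (hx : 1 ≤ x) :
    rw' δ x i j * (2:ℝ) ^ i ≤ (J:ℝ) ^ (1 + δ) *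
      max (max ((L:ℝ) ^ (-(1 / 3) : ℝ)) ((J:ℝ) / (L:ℝ) ^ 2)) (((J : ℝ) / x) ^ (1 / 4 : ℝ)) := by
  have hJ : (2:ℝ) ^ i / 2 ≤ (J:ℝ) := by
    have : ((2 ^ i : ℕ) : ℝ) ≤ ((2 * J : ℕ) : ℝ) := by exact_mod_cast h1
    push_cast at this
    linarith
  have hL' : (L:ℝ) ≤ 2 * (2:ℝ) ^ j := by
    have : ((L : ℕ) : ℝ) ≤ ((2 * 2 ^ j : ℕ) : ℝ) := by exact_mod_cast h2.le
    push_cast at this
    linarith
  have hL0 : (0:ℝ) < L := by exact_mod_cast hL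
  have hx0 : (0:ℝ) < x := by exact_mod_cast hx
  have hJp : 1 / 4 * ((2:ℝ) ^ ((i:ℝ) * δ) * (2:ℝ) ^ i) ≤ (J:ℝ) ^ (1 + δ) := by
    have e1 : ((2:ℝ) ^ i / 2) ^ (1 + δ) ≤ (J:ℝ) ^ (1 + δ) :=
      Real.rpow_le_rpow (by positivity) hJ (by linarith)
    have e2 : ((2:ℝ) ^ i / 2) ^ (1 + δ) = (2:ℝ) ^ ((i:ℝ) * δ) * (2:ℝ) ^ i / (2:ℝ) ^ (1 + δ) := by
      rw [Real.div_rpow (by positivity) (by norm_num), ← Real.rpow_natCast (2:ℝ) i,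
        ← Real.rpow_mul (by norm_num), ← Real.rpow_add (by norm_num)]
      congr 2
      ring
    have e3 : (2:ℝ) ^ (1 + δ) ≤ 4 := by
      calc (2:ℝ) ^ (1 + δ) ≤ (2:ℝ) ^ (2:ℝ) := Real.rpow_le_rpow_of_exponent_le (by norm_num) (by linarith)
        _ = 4 := by norm_num
    have e4 : (0:ℝ) < (2:ℝ) ^ (1 + δ) := by positivity
    rw [e2] at e1
    refine le_trans ?_ e1
    rw [le_div_iff₀ e4]
    have e5 : (0:ℝ) < (2:ℝ) ^ ((i:ℝ) * δ) * (2:ℝ) ^ i := by positivity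
    nlinarith
  have hLp : 1 / 2 * (2:ℝ) ^ (-((j:ℝ) / 3)) ≤ (L:ℝ) ^ (-(1 / 3) : ℝ) := by
    have e1 : (2 * (2:ℝ) ^ j) ^ (-(1 / 3) : ℝ) ≤ (L:ℝ) ^ (-(1 / 3) : ℝ) :=
      Real.rpow_le_rpow_of_nonpos hL0 hL' (by norm_num)
    have e2 : (2 * (2:ℝ) ^ j) ^ (-(1 / 3) : ℝ) = (2:ℝ) ^ (-(1/3):ℝ) * (2:ℝ) ^ (-((j:ℝ) / 3)) := by
      rw [Real.mul_rpow (by norm_num) (by positivity), ← Real.rpow_natCast (2:ℝ) j,
        ← Real.rpow_mul (by norm_num)]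
      congr 2
      ring
    have e3 : (1:ℝ) / 2 ≤ (2:ℝ) ^ (-(1/3):ℝ) := by
      calc (1:ℝ) / 2 = (2:ℝ) ^ (-1:ℝ) := by norm_num [Real.rpow_neg_one]
        _ ≤ (2:ℝ) ^ (-(1/3):ℝ) := Real.rpow_le_rpow_of_exponent_le (by norm_num) (by norm_num)
    rw [e2] at e1
    refine le_trans ?_ e1
    gcongr
  have hJL : 1 / 8 * (2:ℝ) ^ ((i:ℝ) - 2 * j) ≤ (J:ℝ) / (L:ℝ) ^ 2 := by
    rw [le_div_iff₀ (by positivity)]
    have e : (2:ℝ) ^ ((i:ℝ) - 2 * j) * ((2:ℝ) ^ j) ^ 2 = (2:ℝ) ^ i := by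
      rw [← Real.rpow_natCast (2:ℝ) j, ← Real.rpow_natCast (2:ℝ) i, ← Real.rpow_natCast _ 2,
        ← Real.rpow_mul (by norm_num), ← Real.rpow_add (by norm_num)]
      congr 1
      push_cast
      ring
    calc 1 / 8 * (2:ℝ) ^ ((i:ℝ) - 2 * j) * (L:ℝ) ^ 2
        ≤ 1 / 8 * (2:ℝ) ^ ((i:ℝ) - 2 * j) * (2 * (2:ℝ) ^ j) ^ 2 := by gcongr
      _ = 1 / 2 * ((2:ℝ) ^ ((i:ℝ) - 2 * j) * ((2:ℝ) ^ j) ^ 2) := by ring
      _ = (2:ℝ) ^ i / 2 := by rw [e]; ring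
      _ ≤ (J:ℝ) := hJ
  have hJx : 1 / 2 * ((2:ℝ) ^ i / x) ^ (1 / 4 : ℝ) ≤ ((J : ℝ) / x) ^ (1 / 4 : ℝ) := by
    have e1 : ((2:ℝ) ^ i / x / 2) ^ (1 / 4 : ℝ) ≤ ((J : ℝ) / x) ^ (1 / 4 : ℝ) := by
      apply Real.rpow_le_rpow (by positivity) _ (by norm_num)
      rw [div_div, mul_comm, ← div_div]
      exact div_le_div_of_nonneg_right hJ hx0.le
    have e2 : ((2:ℝ) ^ i / x / 2) ^ (1 / 4 : ℝ) = ((2:ℝ) ^ i / x) ^ (1 / 4 : ℝ) / (2:ℝ) ^ (1 / 4 : ℝ) :=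
      Real.div_rpow (by positivity) (by norm_num) _
    have e3 : (2:ℝ) ^ (1 / 4 : ℝ) ≤ 2 := by
      calc (2:ℝ) ^ (1 / 4 : ℝ) ≤ (2:ℝ) ^ (1:ℝ) := Real.rpow_le_rpow_of_exponent_le (by norm_num) (by norm_num)
        _ = 2 := Real.rpow_one _
    rw [e2] at e1
    refine le_trans ?_ e1
    rw [le_div_iff₀ (by positivity)]
    have e5 : (0:ℝ) ≤ ((2:ℝ) ^ i / x) ^ (1 / 4 : ℝ) := by positivity
    nlinarith
  have hmax : 1 / 8 * mx x i j ≤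
      max (max ((L:ℝ) ^ (-(1 / 3) : ℝ)) ((J:ℝ) / (L:ℝ) ^ 2)) (((J : ℝ) / x) ^ (1 / 4 : ℝ)) := by
    have h3 : mx x i j ≤ 8 *
        max (max ((L:ℝ) ^ (-(1 / 3) : ℝ)) ((J:ℝ) / (L:ℝ) ^ 2)) (((J : ℝ) / x) ^ (1 / 4 : ℝ)) := by
      unfold mx
      have m1 := le_max_left ((L:ℝ) ^ (-(1 / 3) : ℝ)) ((J:ℝ) / (L:ℝ) ^ 2)
      have m2 := le_max_right ((L:ℝ) ^ (-(1 / 3) : ℝ)) ((J:ℝ) / (L:ℝ) ^ 2)
      have m3 := le_max_left (max ((L:ℝ) ^ (-(1 / 3) : ℝ)) ((J:ℝ) / (L:ℝ) ^ 2)) (((J : ℝ) / x) ^ (1 / 4 : ℝ))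
      have m4 := le_max_right (max ((L:ℝ) ^ (-(1 / 3) : ℝ)) ((J:ℝ) / (L:ℝ) ^ 2)) (((J : ℝ) / x) ^ (1 / 4 : ℝ))
      have p1 : (0:ℝ) < (2:ℝ) ^ (-((j:ℝ) / 3)) := by positivity
      have p3 : (0:ℝ) ≤ ((2:ℝ) ^ i / x) ^ (1 / 4 : ℝ) := by positivity
      refine max_le (max_le ?_ ?_) ?_
      · linarith
      · linarith
      · linarith
    linarith
  have h0 := mx_pos x i j
  calc rw' δ x i j * (2:ℝ) ^ i
      = 1 / 64 * (((2:ℝ) ^ ((i:ℝ) * δ) * (2:ℝ) ^ i) * mx x i j) := by unfold rw'; ring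
    _ ≤ (1 / 4 * ((2:ℝ) ^ ((i:ℝ) * δ) * (2:ℝ) ^ i)) * (1 / 8 * mx x i j) := by
        have : 0 ≤ ((2:ℝ) ^ ((i:ℝ) * δ) * (2:ℝ) ^ i) * mx x i j := by positivity
        nlinarith
    _ ≤ (J:ℝ) ^ (1 + δ) *
      max (max ((L:ℝ) ^ (-(1 / 3) : ℝ)) ((J:ℝ) / (L:ℝ) ^ 2)) (((J : ℝ) / x) ^ (1 / 4 : ℝ)) := by
        gcongr

/-- the bad primes of the dyadic box. -/
private def Bw (δ : ℝ) (x i j p : ℕ) : Prop :=
  p.Prime ∧ rw' δ x i j * ((2 ^ i : ℕ) : ℝ) ≤ ((LR (2 ^ i) (2 ^ j) p).card : ℝ) ∧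
    2 ^ i ≤ 2 * x ∧ rw' δ x i j ≤ 1

open Classical in
private lemma box_card {C δ : ℝ} (hδ : 0 < δ) (hC : 0 < C)
    (hgap : ∀ (J L x : ℕ) (ρ : ℝ), 1 ≤ L → L ≤ J → 0 < ρ → ρ ≤ 1 →
      C * J ≤ ρ * (L : ℝ) ^ 2 →
      (((Finset.Icc 1 x).filter (fun p : ℕ => p.Prime ∧ ρ * J ≤ ((LR J L p).card : ℝ))).card : ℝ) ≤
        C * (Real.log (2 * J) * (1 / (ρ ^ 3 * L) + J / (ρ ^ 4 * x)) * (x / Real.log x)))
    {x i j : ℕ} (hx1 : 2 ≤ x) (hi : 64 * C ≤ (2:ℝ) ^ ((i:ℝ) * δ)) (hj : j ≤ i) :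
    (((Finset.Icc 1 x).filter (fun p : ℕ => Bw δ x i j p)).card : ℝ) ≤
      C * (2 * 64 ^ 4) * (((i:ℝ) + 1) * ((2:ℝ) ^ (-(3 * δ))) ^ i) * (x / Real.log x) := by
  have hlogx : 0 < Real.log x := Real.log_pos (by exact_mod_cast hx1)
  have hx0' : (0:ℝ) < x := by exact_mod_cast (by omega : 0 < x)
  by_cases c3 : rw' δ x i j ≤ 1
  · have hρ := rw_pos δ x i j
    have hL1 : 1 ≤ 2 ^ j := Nat.one_le_two_pow
    have hLJ : 2 ^ j ≤ 2 ^ i := Nat.pow_le_pow_right (by norm_num) hj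
    have g1 : C * ((2 ^ i : ℕ) : ℝ) ≤ rw' δ x i j * (((2 ^ j : ℕ) : ℝ)) ^ 2 := by
      push_cast
      refine le_trans ?_ (rw_sq δ x i j)
      have : (0:ℝ) < (2:ℝ) ^ i := by positivity
      nlinarith
    have key := hgap (2 ^ i) (2 ^ j) x (rw' δ x i j) hL1 hLJ hρ c3 g1
    have hsub : (Finset.Icc 1 x).filter (fun p : ℕ => Bw δ x i j p) ⊆
        (Finset.Icc 1 x).filter (fun p : ℕ => p.Prime ∧ rw' δ x i j * ((2 ^ i : ℕ) : ℝ) ≤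
          ((LR (2 ^ i) (2 ^ j) p).card : ℝ)) := by
      intro p hp
      rw [Finset.mem_filter] at hp ⊢
      exact ⟨hp.1, hp.2.1, hp.2.2.1⟩
    have hcard : (((Finset.Icc 1 x).filter (fun p : ℕ => Bw δ x i j p)).card : ℝ) ≤
        (((Finset.Icc 1 x).filter (fun p : ℕ => p.Prime ∧ rw' δ x i j * ((2 ^ i : ℕ) : ℝ) ≤
          ((LR (2 ^ i) (2 ^ j) p).card : ℝ))).card : ℝ) := by
      exact_mod_cast Finset.card_le_card hsub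
    refine le_trans hcard (le_trans key ?_)
    have hlog : Real.log (2 * ((2 ^ i : ℕ) : ℝ)) ≤ (i:ℝ) + 1 := by
      have e : (2 * ((2 ^ i : ℕ) : ℝ)) = (2:ℝ) ^ (i + 1) := by push_cast; ring
      rw [e, Real.log_pow]
      have h2 : Real.log 2 ≤ 1 := by linarith [Real.log_two_lt_d9]
      push_cast
      nlinarith [Real.log_pos (show (1:ℝ) < 2 by norm_num)]
    have hlog0 : 0 ≤ Real.log (2 * ((2 ^ i : ℕ) : ℝ)) := by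
      apply Real.log_nonneg
      have : (1:ℝ) ≤ ((2 ^ i : ℕ) : ℝ) := by exact_mod_cast Nat.one_le_two_pow
      linarith
    have hr : ((2:ℝ) ^ (-(3 * δ))) ^ i * ((2:ℝ) ^ ((i:ℝ) * δ)) ^ 3 = 1 := by
      rw [← Real.rpow_natCast _ i, ← Real.rpow_natCast _ 3, ← Real.rpow_mul (by norm_num),
        ← Real.rpow_mul (by norm_num), ← Real.rpow_add (by norm_num)]
      rw [show -(3 * δ) * (i:ℝ) + (i:ℝ) * δ * ((3:ℕ):ℝ) = 0 by push_cast; ring]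
      simp
    have hr0 : 0 < ((2:ℝ) ^ (-(3 * δ))) ^ i := by positivity
    have hcube := rw_cube δ x i j
    have hfour := rw_four hδ hx0' i j
    have hden : 1 / (rw' δ x i j ^ 3 * ((2 ^ j : ℕ) : ℝ)) ≤ 64 ^ 4 * ((2:ℝ) ^ (-(3 * δ))) ^ i := by
      push_cast
      rw [div_le_iff₀ (by positivity)]
      calc (1:ℝ) = 64 ^ 3 * (((2:ℝ) ^ (-(3 * δ))) ^ i) * ((1 / 64) ^ 3 * ((2:ℝ) ^ ((i:ℝ) * δ)) ^ 3) := by
            rw [show (64:ℝ) ^ 3 * (((2:ℝ) ^ (-(3 * δ))) ^ i) * ((1 / 64) ^ 3 * ((2:ℝ) ^ ((i:ℝ) * δ)) ^ 3) =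
              ((2:ℝ) ^ (-(3 * δ))) ^ i * ((2:ℝ) ^ ((i:ℝ) * δ)) ^ 3 by ring, hr]
        _ ≤ 64 ^ 3 * (((2:ℝ) ^ (-(3 * δ))) ^ i) * (rw' δ x i j ^ 3 * (2:ℝ) ^ j) := by gcongr
        _ ≤ 64 ^ 4 * (((2:ℝ) ^ (-(3 * δ))) ^ i) * (rw' δ x i j ^ 3 * (2:ℝ) ^ j) := by
            gcongr
            · norm_num
            · norm_num
    have hden2 : ((2 ^ i : ℕ) : ℝ) / (rw' δ x i j ^ 4 * x) ≤ 64 ^ 4 * ((2:ℝ) ^ (-(3 * δ))) ^ i := by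
      push_cast
      rw [div_le_iff₀ (by positivity)]
      calc (2:ℝ) ^ i = 64 ^ 4 * (((2:ℝ) ^ (-(3 * δ))) ^ i) *
            ((1 / 64) ^ 4 * ((2:ℝ) ^ ((i:ℝ) * δ)) ^ 3 * (2:ℝ) ^ i) := by
            rw [show (64:ℝ) ^ 4 * (((2:ℝ) ^ (-(3 * δ))) ^ i) *
              ((1 / 64) ^ 4 * ((2:ℝ) ^ ((i:ℝ) * δ)) ^ 3 * (2:ℝ) ^ i) =
              (((2:ℝ) ^ (-(3 * δ))) ^ i * ((2:ℝ) ^ ((i:ℝ) * δ)) ^ 3) * (2:ℝ) ^ i by ring, hr, one_mul]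
        _ ≤ 64 ^ 4 * (((2:ℝ) ^ (-(3 * δ))) ^ i) * (rw' δ x i j ^ 4 * x) := by gcongr
    have hx0 : 0 ≤ (x:ℝ) / Real.log x := by positivity
    have hfrac : Real.log (2 * ((2 ^ i : ℕ) : ℝ)) * (1 / (rw' δ x i j ^ 3 * ((2 ^ j : ℕ) : ℝ)) +
        ((2 ^ i : ℕ) : ℝ) / (rw' δ x i j ^ 4 * x)) ≤
        ((i:ℝ) + 1) * (2 * 64 ^ 4 * ((2:ℝ) ^ (-(3 * δ))) ^ i) := by
      refine mul_le_mul hlog ?_ (by positivity) (by positivity)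
      calc 1 / (rw' δ x i j ^ 3 * ((2 ^ j : ℕ) : ℝ)) + ((2 ^ i : ℕ) : ℝ) / (rw' δ x i j ^ 4 * x)
          ≤ 64 ^ 4 * ((2:ℝ) ^ (-(3 * δ))) ^ i + 64 ^ 4 * ((2:ℝ) ^ (-(3 * δ))) ^ i := add_le_add hden hden2
        _ = 2 * 64 ^ 4 * ((2:ℝ) ^ (-(3 * δ))) ^ i := by ring
    calc C * (Real.log (2 * ((2 ^ i : ℕ) : ℝ)) * (1 / (rw' δ x i j ^ 3 * ((2 ^ j : ℕ) : ℝ)) +
          ((2 ^ i : ℕ) : ℝ) / (rw' δ x i j ^ 4 * x)) * (x / Real.log x))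
        ≤ C * ((((i:ℝ) + 1) * (2 * 64 ^ 4 * ((2:ℝ) ^ (-(3 * δ))) ^ i)) * (x / Real.log x)) := by
          exact mul_le_mul_of_nonneg_left (mul_le_mul_of_nonneg_right hfrac hx0) hC.le
      _ = C * (2 * 64 ^ 4) * (((i:ℝ) + 1) * ((2:ℝ) ^ (-(3 * δ))) ^ i) * (x / Real.log x) := by ring
  · have he : (Finset.Icc 1 x).filter (fun p : ℕ => Bw δ x i j p) = ∅ := by
      rw [Finset.filter_eq_empty_iff]
      intro p _ hp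
      exact c3 hp.2.2.2
    rw [he]
    simp only [Finset.card_empty, Nat.cast_zero]
    positivity

/-- the combinatorial part (b). -/
private lemma exists_box {δ : ℝ} (hδ : 0 < δ) (hδ1 : δ ≤ 1) {i₀ x p J L : ℕ} (hi₀ : 6 ≤ i₀) (hx : 1 ≤ x)
    (hp : p.Prime) (hJ0 : 2 ^ i₀ ≤ J) (hL : 1 ≤ L)
    (hlt : (J : ℝ) ^ (1 + δ) * max (max ((L : ℝ) ^ (-(1 / 3) : ℝ)) ((J : ℝ) / (L : ℝ) ^ 2))
        (((J : ℝ) / x) ^ (1 / 4 : ℝ)) < ((LR J L p).card : ℝ)) :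
    ∃ i j : ℕ, i₀ ≤ i ∧ j ≤ i ∧ Bw δ x i j p := by
  have hJ1 : 1 ≤ J := le_trans Nat.one_le_two_pow hJ0
  have hJ1r : (1:ℝ) ≤ J := by exact_mod_cast hJ1
  have hx0 : (0:ℝ) < x := by exact_mod_cast hx
  have hM0 : (0:ℝ) ≤ max (max ((L : ℝ) ^ (-(1 / 3) : ℝ)) ((J : ℝ) / (L : ℝ) ^ 2))
        (((J : ℝ) / x) ^ (1 / 4 : ℝ)) := le_trans (by positivity) (le_max_right _ _)
  have hLR0 : (LR J L p).card ≠ 0 := by
    intro h0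
    rw [h0] at hlt
    simp only [Nat.cast_zero] at hlt
    have : (0:ℝ) ≤ (J : ℝ) ^ (1 + δ) * max (max ((L : ℝ) ^ (-(1 / 3) : ℝ)) ((J : ℝ) / (L : ℝ) ^ 2))
        (((J : ℝ) / x) ^ (1 / 4 : ℝ)) := mul_nonneg (by positivity) hM0
    linarith
  have hLJ : L ≤ J := by
    obtain ⟨g, hg⟩ := Finset.card_ne_zero.mp hLR0
    simp only [LR, Finset.mem_filter] at hg
    obtain ⟨_, u, h1, h2, h3, h4, _⟩ := hg
    omega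
  have hLRJ : ((LR J L p).card : ℝ) ≤ (J:ℝ) := by exact_mod_cast LR_card_le J L p
  have hJx : J < x := by
    by_contra hcon
    push Not at hcon
    have h1 : (1:ℝ) ≤ ((J : ℝ) / x) ^ (1 / 4 : ℝ) := by
      apply Real.one_le_rpow _ (by norm_num)
      rw [le_div_iff₀ hx0, one_mul]
      exact_mod_cast hcon
    have h2 : (J:ℝ) ≤ (J:ℝ) ^ (1 + δ) := by
      calc (J:ℝ) = (J:ℝ) ^ (1:ℝ) := (Real.rpow_one _).symm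
        _ ≤ (J:ℝ) ^ (1 + δ) := Real.rpow_le_rpow_of_exponent_le hJ1r (by linarith)
    have h3 : (1:ℝ) ≤ max (max ((L : ℝ) ^ (-(1 / 3) : ℝ)) ((J : ℝ) / (L : ℝ) ^ 2))
        (((J : ℝ) / x) ^ (1 / 4 : ℝ)) := h1.trans (le_max_right _ _)
    have h4 : (J:ℝ) * 1 ≤ (J : ℝ) ^ (1 + δ) * max (max ((L : ℝ) ^ (-(1 / 3) : ℝ)) ((J : ℝ) / (L : ℝ) ^ 2))
        (((J : ℝ) / x) ^ (1 / 4 : ℝ)) := mul_le_mul h2 h3 zero_le_one (by positivity)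
    linarith
  -- dyadic indices
  set i := Nat.clog 2 J with hi
  set j := Nat.log 2 L with hj
  have hJi : J ≤ 2 ^ i := Nat.le_pow_clog (by norm_num) J
  have hiJ : 2 ^ i ≤ 2 * J := by
    have h64 : 2 ^ 6 ≤ J := le_trans (Nat.pow_le_pow_right (by norm_num) hi₀) hJ0
    have hi1 : 1 ≤ i := by
      rcases Nat.eq_zero_or_pos i with h | h
      · rw [h] at hJi; norm_num at hJi h64; omega
      · exact h
    have h2 : 2 ^ (i - 1) < J := by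
      have := Nat.pow_pred_clog_lt_self (b := 2) (by norm_num) (x := J) (by norm_num at h64; omega)
      simpa [hi] using this
    have h3 : 2 ^ i = 2 * 2 ^ (i - 1) := by
      rw [← pow_succ']; congr 1; omega
    omega
  have hi0 : i₀ ≤ i := by
    have : 2 ^ i₀ ≤ 2 ^ i := le_trans hJ0 hJi
    exact (Nat.pow_le_pow_iff_right (by norm_num)).mp this
  have hjL : 2 ^ j ≤ L := Nat.pow_log_le_self 2 (by omega)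
  have hLj : L < 2 * 2 ^ j := by
    have := Nat.lt_pow_succ_log_self (b := 2) (by norm_num) L
    rw [← hj, pow_succ] at this
    omega
  have hji : j ≤ i := by
    have : 2 ^ j ≤ 2 ^ i := le_trans hjL (le_trans hLJ hJi)
    exact (Nat.pow_le_pow_iff_right (by norm_num)).mp this
  have hsub : LR J L p ⊆ LR (2 ^ i) (2 ^ j) p := LR_mono hJi Nat.one_le_two_pow hjL
  have hcmp := rw_compare hδ hδ1 hiJ hLj hL hx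
  have hsubc : ((LR J L p).card : ℝ) ≤ ((LR (2 ^ i) (2 ^ j) p).card : ℝ) := by
    exact_mod_cast Finset.card_le_card hsub
  refine ⟨i, j, hi0, hji, hp, ?_, by omega, ?_⟩
  · push_cast
    linarith
  · by_contra hcon
    push Not at hcon
    have h2 : (J:ℝ) ≤ (2:ℝ) ^ i := by exact_mod_cast hJi
    have h3 : (0:ℝ) < (2:ℝ) ^ i := by positivity
    nlinarith

open Classical in
private lemma law_small (δ ε : ℝ) (hδ : 0 < δ) (hδ1 : δ ≤ 1) (hε : 0 < ε) :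
    ∃ J₀ x₀ : ℕ, 1 ≤ J₀ ∧ 1 ≤ x₀ ∧ ∀ x : ℕ, x₀ ≤ x →
    (((Finset.Icc 1 x).filter (fun p : ℕ => p.Prime ∧ ∃ J L : ℕ, J₀ ≤ J ∧ 1 ≤ L ∧
      (J : ℝ) ^ (1 + δ) * max (max ((L : ℝ) ^ (-(1 / 3) : ℝ)) ((J : ℝ) / (L : ℝ) ^ 2))
        (((J : ℝ) / x) ^ (1 / 4 : ℝ)) < ((LR J L p).card : ℝ))).card : ℝ) ≤
      ε * (x / Real.log x) := by
  obtain ⟨C, hC, hgap⟩ := gap_law_w
  obtain ⟨K, hK⟩ : ∃ K : ℝ, K = C * (2 * 64 ^ 4) := ⟨_, rfl⟩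
  have hK0 : 0 < K := by rw [hK]; positivity
  set r : ℝ := (2:ℝ) ^ (-(3 * δ)) with hr
  have hr0 : 0 < r := by positivity
  have hr1 : r < 1 := Real.rpow_lt_one_of_one_lt_of_neg (by norm_num) (by linarith)
  have hsum : Summable (fun k : ℕ => (k:ℝ) ^ 2 * r ^ k) :=
    summable_pow_mul_geometric_of_norm_lt_one 2 (by rw [Real.norm_of_nonneg hr0.le]; exact hr1)
  have htail := tendsto_sum_nat_add (fun k : ℕ => (k:ℝ) ^ 2 * r ^ k)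
  have hev1 : ∀ᶠ m : ℕ in Filter.atTop, (∑' k : ℕ, ((k + m : ℕ):ℝ) ^ 2 * r ^ (k + m)) < ε / (4 * K) :=
    htail.eventually_lt_const (by positivity)
  have hev2 : ∀ᶠ m : ℕ in Filter.atTop, 64 * C ≤ (2:ℝ) ^ ((m:ℝ) * δ) := by
    have h1 : Filter.Tendsto (fun m : ℕ => (2:ℝ) ^ ((m:ℝ) * δ)) Filter.atTop Filter.atTop := by
      have h2 : Filter.Tendsto (fun m : ℕ => ((2:ℝ) ^ δ) ^ m) Filter.atTop Filter.atTop :=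
        tendsto_pow_atTop_atTop_of_one_lt (Real.one_lt_rpow (by norm_num) hδ)
      refine h2.congr ?_
      intro m
      rw [← Real.rpow_natCast, ← Real.rpow_mul (by norm_num)]
      congr 1
      ring
    exact h1.eventually_ge_atTop _
  obtain ⟨i₀, hi1, hi2, hi3⟩ := (hev1.and (hev2.and (Filter.eventually_ge_atTop 6))).exists
  have hi2' : ∀ i : ℕ, i₀ ≤ i → 64 * C ≤ (2:ℝ) ^ ((i:ℝ) * δ) := by
    intro i hi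
    refine le_trans hi2 (Real.rpow_le_rpow_of_exponent_le (by norm_num) ?_)
    have : (i₀:ℝ) ≤ i := by exact_mod_cast hi
    nlinarith
  refine ⟨2 ^ i₀, 2, Nat.one_le_two_pow, by omega, ?_⟩
  intro x hx2
  have hlogx : 0 < Real.log x := Real.log_pos (by exact_mod_cast hx2)
  have hsub : (Finset.Icc 1 x).filter (fun p : ℕ => p.Prime ∧ ∃ J L : ℕ, 2 ^ i₀ ≤ J ∧ 1 ≤ L ∧
      (J : ℝ) ^ (1 + δ) * max (max ((L : ℝ) ^ (-(1 / 3) : ℝ)) ((J : ℝ) / (L : ℝ) ^ 2))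
        (((J : ℝ) / x) ^ (1 / 4 : ℝ)) < ((LR J L p).card : ℝ)) ⊆
      (Finset.Ico i₀ (2 * x + 1)).biUnion (fun i => (Finset.range (i + 1)).biUnion (fun j =>
        (Finset.Icc 1 x).filter (fun p : ℕ => Bw δ x i j p))) := by
    intro p hp
    rw [Finset.mem_filter] at hp
    obtain ⟨hp1, hp2, J, L, hJ0, hL, hlt⟩ := hp
    obtain ⟨i, j, h1, h2, h3⟩ := exists_box hδ hδ1 hi3 (by omega) hp2 hJ0 hL hlt
    rw [Finset.mem_biUnion]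
    refine ⟨i, ?_, ?_⟩
    · rw [Finset.mem_Ico]
      refine ⟨h1, ?_⟩
      have h7 := h3.2.2.1
      have h8 : i < 2 ^ i := Nat.lt_two_pow_self
      omega
    · rw [Finset.mem_biUnion]
      exact ⟨j, Finset.mem_range.mpr (by omega), Finset.mem_filter.mpr ⟨hp1, h3⟩⟩
  have hX : 0 ≤ (x:ℝ) / Real.log x := by positivity
  have hb1 : (((Finset.Icc 1 x).filter (fun p : ℕ => p.Prime ∧ ∃ J L : ℕ, 2 ^ i₀ ≤ J ∧ 1 ≤ L ∧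
      (J : ℝ) ^ (1 + δ) * max (max ((L : ℝ) ^ (-(1 / 3) : ℝ)) ((J : ℝ) / (L : ℝ) ^ 2))
        (((J : ℝ) / x) ^ (1 / 4 : ℝ)) < ((LR J L p).card : ℝ))).card : ℝ) ≤
      ∑ i ∈ Finset.Ico i₀ (2 * x + 1), ∑ j ∈ Finset.range (i + 1),
        (((Finset.Icc 1 x).filter (fun p : ℕ => Bw δ x i j p)).card : ℝ) := by
    have h1 := Finset.card_le_card hsub
    have h2 : ((Finset.Ico i₀ (2 * x + 1)).biUnion (fun i => (Finset.range (i + 1)).biUnion (fun j =>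
        (Finset.Icc 1 x).filter (fun p : ℕ => Bw δ x i j p)))).card ≤
        ∑ i ∈ Finset.Ico i₀ (2 * x + 1), ∑ j ∈ Finset.range (i + 1),
        ((Finset.Icc 1 x).filter (fun p : ℕ => Bw δ x i j p)).card := by
      refine le_trans Finset.card_biUnion_le ?_
      exact Finset.sum_le_sum (fun i _ => Finset.card_biUnion_le)
    exact_mod_cast le_trans h1 h2
  refine le_trans hb1 ?_
  have hb2 : ∀ i ∈ Finset.Ico i₀ (2 * x + 1), ∑ j ∈ Finset.range (i + 1),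
        (((Finset.Icc 1 x).filter (fun p : ℕ => Bw δ x i j p)).card : ℝ) ≤
        4 * K * (x / Real.log x) * ((i:ℝ) ^ 2 * r ^ i) := by
    intro i hi
    rw [Finset.mem_Ico] at hi
    have h1 : ∀ j ∈ Finset.range (i + 1), (((Finset.Icc 1 x).filter (fun p : ℕ => Bw δ x i j p)).card : ℝ) ≤
        K * (((i:ℝ) + 1) * r ^ i) * (x / Real.log x) := by
      intro j hj
      rw [Finset.mem_range] at hj
      rw [hK]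
      exact box_card hδ hC hgap hx2 (hi2' i hi.1) (by omega)
    refine le_trans (Finset.sum_le_sum h1) ?_
    rw [Finset.sum_const, Finset.card_range, nsmul_eq_mul]
    push_cast
    have hi6 : (1:ℝ) ≤ i := by exact_mod_cast (by omega : 1 ≤ i)
    have h3 : ((i:ℝ) + 1) * ((i:ℝ) + 1) ≤ 4 * (i:ℝ) ^ 2 := by nlinarith
    have h4 : 0 ≤ K * r ^ i * (x / Real.log x) := by positivity
    calc ((i:ℝ) + 1) * (K * (((i:ℝ) + 1) * r ^ i) * (x / Real.log x))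
        = (((i:ℝ) + 1) * ((i:ℝ) + 1)) * (K * r ^ i * (x / Real.log x)) := by ring
      _ ≤ (4 * (i:ℝ) ^ 2) * (K * r ^ i * (x / Real.log x)) := by gcongr
      _ = 4 * K * (x / Real.log x) * ((i:ℝ) ^ 2 * r ^ i) := by ring
  refine le_trans (Finset.sum_le_sum hb2) ?_
  rw [← Finset.mul_sum]
  have hb3 : ∑ i ∈ Finset.Ico i₀ (2 * x + 1), ((i:ℝ) ^ 2 * r ^ i) ≤ ε / (4 * K) := by
    rw [Finset.sum_Ico_eq_sum_range]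
    have hs' : Summable (fun k : ℕ => ((k + i₀ : ℕ):ℝ) ^ 2 * r ^ (k + i₀)) :=
      (summable_nat_add_iff (f := fun k : ℕ => (k:ℝ) ^ 2 * r ^ k) i₀).mpr hsum
    have h5 : ∑ k ∈ Finset.range (2 * x + 1 - i₀), (((k + i₀ : ℕ):ℝ) ^ 2 * r ^ (k + i₀)) ≤
        ∑' k : ℕ, ((k + i₀ : ℕ):ℝ) ^ 2 * r ^ (k + i₀) :=
      hs'.sum_le_tsum _ (fun k _ => by positivity)
    refine le_trans (le_of_eq ?_) (le_trans h5 hi1.le)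
    apply Finset.sum_congr rfl
    intro k _
    rw [Nat.add_comm]
  calc 4 * K * (x / Real.log x) * ∑ i ∈ Finset.Ico i₀ (2 * x + 1), ((i:ℝ) ^ 2 * r ^ i)
      ≤ 4 * K * (x / Real.log x) * (ε / (4 * K)) := by gcongr
    _ = ε * (x / Real.log x) := by
        field_simp

open Classical in
theorem law_w (δ ε : ℝ) (hδ : 0 < δ) (hε : 0 < ε) : ∃ J₀ x₀ : ℕ, ∀ x : ℕ, x₀ ≤ x →
    (((Finset.Icc 1 x).filter (fun p : ℕ => p.Prime ∧ ∃ J L : ℕ, J₀ ≤ J ∧ 1 ≤ L ∧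
      (J : ℝ) ^ (1 + δ) * max (max ((L : ℝ) ^ (-(1 / 3) : ℝ)) ((J : ℝ) / (L : ℝ) ^ 2))
        (((J : ℝ) / x) ^ (1 / 4 : ℝ)) < ((LR J L p).card : ℝ))).card : ℝ) ≤
      ε * (x / Real.log x) := by
  obtain ⟨J₀, x₀, hJ1, hx1, h⟩ := law_small (min δ 1) ε (by positivity) (min_le_right _ _) hε
  refine ⟨J₀, x₀, fun x hx => le_trans ?_ (h x hx)⟩
  have hsub : (Finset.Icc 1 x).filter (fun p : ℕ => p.Prime ∧ ∃ J L : ℕ, J₀ ≤ J ∧ 1 ≤ L ∧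
      (J : ℝ) ^ (1 + δ) * max (max ((L : ℝ) ^ (-(1 / 3) : ℝ)) ((J : ℝ) / (L : ℝ) ^ 2))
        (((J : ℝ) / x) ^ (1 / 4 : ℝ)) < ((LR J L p).card : ℝ)) ⊆
      (Finset.Icc 1 x).filter (fun p : ℕ => p.Prime ∧ ∃ J L : ℕ, J₀ ≤ J ∧ 1 ≤ L ∧
      (J : ℝ) ^ (1 + min δ 1) * max (max ((L : ℝ) ^ (-(1 / 3) : ℝ)) ((J : ℝ) / (L : ℝ) ^ 2))
        (((J : ℝ) / x) ^ (1 / 4 : ℝ)) < ((LR J L p).card : ℝ)) := by
    intro p hp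
    rw [Finset.mem_filter] at hp ⊢
    obtain ⟨h1, h2, J, L, h3, h5, h6⟩ := hp
    refine ⟨h1, h2, J, L, h3, h5, lt_of_le_of_lt ?_ h6⟩
    have hJr : (1:ℝ) ≤ J := by exact_mod_cast le_trans hJ1 h3
    have h7 : (J:ℝ) ^ (1 + min δ 1) ≤ (J:ℝ) ^ (1 + δ) :=
      Real.rpow_le_rpow_of_exponent_le hJr (by linarith [min_le_left δ 1])
    have h8 : (0:ℝ) ≤ max (max ((L : ℝ) ^ (-(1 / 3) : ℝ)) ((J : ℝ) / (L : ℝ) ^ 2))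
        (((J : ℝ) / x) ^ (1 / 4 : ℝ)) := le_trans (by positivity) (le_max_right _ _)
    exact mul_le_mul_of_nonneg_right h7 h8
  exact_mod_cast Finset.card_le_card hsub

end MP_a3a416_nt.GW
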