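import Pool.Agent.Lib.MP_a3a416_nt.GW.LCount
import Pool.Agent.Lib.MP_a3a416_nt.TW.Many

/-!
# GW-Many
Many regular indices in every window, from `count_LDw` (`r = 0`, `v = 0`), all `e` (no upper bound for `e`).
PROOF.  Scales `E ≤ e < 2E`, `Z ≤ z < 2Z` (powers of 2), `t = E^δ`,
`M = min ((2Z)^(4/3)/E) ((2Z)^(3/2) x^(1/2)/E^2) / t`, `m = ⌈M⌉`, `w = ⌊Z/(4m)⌋`.
The conditions `z ≥ e^(3/4+δ)`, `z^3 x ≥ e^(4+3δ)` give `1 ≤ M`, and `m ≤ 2M`, `16 M ≤ Z`, so `Z ≤ 8 m w`.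
A prime with fewer than `M` good `k` in `(e, e+z]` has at least `m` bad windows `(jw, jw+w]`, `1 ≤ j ≤ 4E/w`.
Double counting: the number of such primes is
`≤ (1/m) (4E/w) c (log(2w) (5E)^2/w^2) (1/w + 5E/x) x/log x`, `m w^4 ≥ c' E^3 t^3`, `m w^3 x ≥ c' E^4 t^2`.
Sum over the scales.
-/

namespace MP_a3a416_nt.GW

open Classical in
/-- few good indices: many bad aligned windows (copy of the lemma of `TW.ManyScale`) -/
private lemma mw_bad {e z p m w E : ℕ} (hw : 1 ≤ w) (hm : 1 ≤ m) (hmw : 4 * m * w ≤ z) (heE : e + z ≤ 4 * E)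
    (hg : ((Finset.Ioc e (e + z)).filter (fun k : ℕ => Odd k ∧ ¬ (p : ℤ) ∣ (_root_.bernoulli (p - k)).num)).card < m) :
    m ≤ ((Finset.Icc 1 (4 * E / w)).filter (fun j => TW.Bad (j * w) w p)).card := by
  obtain ⟨G, hG⟩ : ∃ G, G = (Finset.Ioc e (e + z)).filter
    (fun k : ℕ => Odd k ∧ ¬ (p : ℤ) ∣ (_root_.bernoulli (p - k)).num) := ⟨_, rfl⟩
  rw [← hG] at hg
  obtain ⟨R, hR⟩ : ∃ R, R = Finset.range (4 * m - 1) := ⟨_, rfl⟩
  -- the bad ones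
  have h1 : (R.filter (fun i => ¬ TW.Bad ((e / w + 1 + i) * w) w p)).card ≤ G.card := by
    have hex : ∀ i ∈ R.filter (fun i => ¬ TW.Bad ((e / w + 1 + i) * w) w p),
        ∃ k ∈ G, (e / w + 1 + i) * w < k ∧ k ≤ (e / w + 1 + i) * w + w := by
      intro i hi
      rw [Finset.mem_filter, hR, Finset.mem_range] at hi
      obtain ⟨hi1, hi2⟩ := hi
      unfold TW.Bad at hi2
      push Not at hi2
      obtain ⟨g, hg1, hg2, hg3, hg4⟩ := hi2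
      have e1 : e < (e / w + 1) * w := by
        have := Nat.lt_div_mul_add (a := e) (b := w) (by omega)
        rw [Nat.add_mul, Nat.one_mul]
        exact this
      have e2 : (e / w + 1) * w ≤ e + w := by
        rw [Nat.add_mul, Nat.one_mul]
        have := Nat.div_mul_le_self e w
        omega
      have e3 : (e / w + 1 + i) * w = (e / w + 1) * w + i * w := by ring
      have e4 : i * w + 2 * w ≤ 4 * m * w := by
        have : (i + 2) * w ≤ 4 * m * w := Nat.mul_le_mul_right w (by omega)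
        calc i * w + 2 * w = (i + 2) * w := by ring
          _ ≤ _ := this
      refine ⟨2 * g + 1, ?_, by omega, by omega⟩
      rw [hG, Finset.mem_filter, Finset.mem_Ioc]
      refine ⟨⟨by omega, by omega⟩, ⟨g, rfl⟩, ?_⟩
      have e5 : p - (2 * g + 1) = p - 1 - 2 * g := by omega
      rw [e5]
      exact hg4
    choose! f hf1 hf2 using hex
    apply Finset.card_le_card_of_injOn f hf1
    intro i hi i' hi' hii
    have a1 := hf2 i hi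
    have a2 := hf2 i' hi'
    have hii' : f i = f i' := hii
    rw [hii'] at a1
    by_contra hne
    rcases Nat.lt_or_gt_of_ne hne with h | h
    · have : (e / w + 1 + i) * w + w ≤ (e / w + 1 + i') * w := by
        calc (e / w + 1 + i) * w + w = (e / w + 1 + i + 1) * w := by ring
          _ ≤ _ := Nat.mul_le_mul_right w (by omega)
      omega
    · have : (e / w + 1 + i') * w + w ≤ (e / w + 1 + i) * w := by
        calc (e / w + 1 + i') * w + w = (e / w + 1 + i' + 1) * w := by ring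
          _ ≤ _ := Nat.mul_le_mul_right w (by omega)
      omega
  have h2 : (R.filter (fun i => TW.Bad ((e / w + 1 + i) * w) w p)).card +
      (R.filter (fun i => ¬ TW.Bad ((e / w + 1 + i) * w) w p)).card = R.card :=
    Finset.card_filter_add_card_filter_not _
  have h3 : R.card = 4 * m - 1 := by rw [hR, Finset.card_range]
  have h4 : (R.filter (fun i => TW.Bad ((e / w + 1 + i) * w) w p)).card ≤
      ((Finset.Icc 1 (4 * E / w)).filter (fun j => TW.Bad (j * w) w p)).card := by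
    apply Finset.card_le_card_of_injOn (fun i => e / w + 1 + i)
    · intro i hi
      have hi' := Finset.mem_filter.1 (Finset.mem_coe.1 hi)
      rw [hR, Finset.mem_range] at hi'
      rw [Finset.mem_coe, Finset.mem_filter, Finset.mem_Icc]
      refine ⟨⟨Nat.le_trans (Nat.le_add_left 1 (e / w)) (Nat.le_add_right _ i), ?_⟩, hi'.2⟩
      rw [Nat.le_div_iff_mul_le (by omega)]
      change (e / w + 1 + i) * w ≤ 4 * E
      have e2 : (e / w + 1) * w ≤ e + w := by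
        rw [Nat.add_mul, Nat.one_mul]
        have := Nat.div_mul_le_self e w
        omega
      have e3 : (e / w + 1 + i) * w = (e / w + 1) * w + i * w := by ring
      have e4 : i * w + 2 * w ≤ 4 * m * w := by
        have : (i + 2) * w ≤ 4 * m * w := Nat.mul_le_mul_right w (by omega)
        calc i * w + 2 * w = (i + 2) * w := by ring
          _ ≤ _ := this
      omega
    · intro i _ i' _ h
      exact Nat.add_left_cancel (h : e / w + 1 + i = e / w + 1 + i')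
  omega

open Classical in
/-- double counting (copy of the lemma of `TW.ManyScale`) -/
private lemma mw_double {x m w E : ℕ} (S : Finset ℕ) (hS : S ⊆ (Finset.Icc 1 x).filter Nat.Prime)
    (hbad : ∀ p ∈ S, m ≤ ((Finset.Icc 1 (4 * E / w)).filter (fun j => TW.Bad (j * w) w p)).card) :
    m * S.card ≤ ∑ j ∈ Finset.Icc 1 (4 * E / w),
      ((Finset.Icc 1 x).filter (fun p : ℕ => p.Prime ∧ TW.Bad (j * w) w p)).card := by
  calc m * S.card = ∑ p ∈ S, m := by rw [Finset.sum_const, smul_eq_mul, mul_comm]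
    _ ≤ ∑ p ∈ S, ((Finset.Icc 1 (4 * E / w)).filter (fun j => TW.Bad (j * w) w p)).card :=
        Finset.sum_le_sum hbad
    _ = ∑ p ∈ S, ∑ j ∈ Finset.Icc 1 (4 * E / w), if TW.Bad (j * w) w p then 1 else 0 := by
        refine Finset.sum_congr rfl fun p _ => ?_
        rw [Finset.card_filter]
    _ = ∑ j ∈ Finset.Icc 1 (4 * E / w), ∑ p ∈ S, if TW.Bad (j * w) w p then 1 else 0 :=
        Finset.sum_comm
    _ ≤ _ := by
        refine Finset.sum_le_sum fun j _ => ?_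
        rw [← Finset.card_filter]
        apply Finset.card_le_card
        intro p hp
        rw [Finset.mem_filter] at hp
        have h1 := hS hp.1
        rw [Finset.mem_filter] at h1 ⊢
        exact ⟨h1.1, h1.2, hp.2⟩

open Classical in
/-- the count for `TW.Bad` -/
private lemma mw_T : ∃ c : ℝ, 0 < c ∧ ∀ e z x : ℕ, 1 ≤ z →
    (((Finset.Icc 1 x).filter (fun p : ℕ => p.Prime ∧ TW.Bad e z p)).card : ℝ) ≤
      c * ((((e : ℝ) + z) ^ 2 * Real.log (2 * z) / (z : ℝ) ^ 2) *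
        (1 / (z : ℝ) + ((e : ℝ) + z) / x) * (x / Real.log x)) := by
  obtain ⟨c, hc, hT⟩ := count_LDw
  refine ⟨c, hc, ?_⟩
  intro e z x hz
  have h1 := hT e z 0 x (fun _ _ => 0) hz (by
    intro l _ g _ _ _
    simp only [abs_zero, Int.cast_zero]
    exact (Real.exp_pos _).le)
  refine le_trans ?_ (h1.trans (le_of_eq ?_))
  · rw [Nat.cast_le]
    apply Finset.card_le_card
    intro p hp
    rw [Finset.mem_filter] at hp ⊢
    refine ⟨hp.1, hp.2.1, fun _ => 0, ?_⟩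
    intro g hg1 hg2 hg3
    have h2 := hp.2.2 g hg1 hg2 hg3
    have h3 : LI.comb 0 (fun _ _ => 0) (fun _ => 0) g = 0 := by
      unfold LI.comb
      simp
    rw [h3, Int.cast_zero, sub_zero]
    exact h2
  · push_cast
    ring

open Classical in
/-- one pair of scales -/
private lemma mw_scale (δ : ℝ) (hδ : 0 < δ) : ∃ C : ℝ, 0 < C ∧ ∀ E Z x : ℕ, 512 ≤ E → 1 ≤ Z →
    (((Finset.Icc 1 x).filter (fun p : ℕ => p.Prime ∧ ∃ e z : ℕ, E ≤ e ∧ e < 2 * E ∧ Z ≤ z ∧ z < 2 * Z ∧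
      (e : ℝ) ^ (3 / 4 + δ) ≤ z ∧ z ≤ e ∧ (e : ℝ) ^ (4 / 3 + δ) ≤ z * (x : ℝ) ^ (1 / 3 : ℝ) ∧
      (((Finset.Ioc e (e + z)).filter (fun k : ℕ => Odd k ∧
        ¬ (p : ℤ) ∣ (_root_.bernoulli (p - k)).num)).card : ℝ) <
          (e : ℝ) ^ (-δ) * min ((z : ℝ) ^ (4 / 3 : ℝ) / e)
          ((z : ℝ) ^ (3 / 2 : ℝ) * (x : ℝ) ^ (1 / 2 : ℝ) / (e : ℝ) ^ 2))).card : ℝ) ≤
      C * ((E : ℝ) ^ (-(2 * δ)) * Real.log (2 * E) * (x / Real.log x)) := by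
  obtain ⟨c, hc, hT⟩ := mw_T
  refine ⟨60620800 * c, by positivity, ?_⟩
  intro E Z x hE hZ
  have hE512 : (512:ℝ) ≤ (E:ℝ) := by exact_mod_cast hE
  have hE0 : (0:ℝ) < (E:ℝ) := by linarith
  have hE1 : (1:ℝ) ≤ (E:ℝ) := by linarith
  have hZ1 : (1:ℝ) ≤ (Z:ℝ) := by exact_mod_cast hZ
  have hZ0 : (0:ℝ) < (Z:ℝ) := by linarith
  have hXnn : (0:ℝ) ≤ (x:ℝ) / Real.log x := by
    rcases Nat.eq_zero_or_pos x with h0 | h0
    · rw [h0]; simp
    · have : (1:ℝ) ≤ (x:ℝ) := by exact_mod_cast h0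
      exact div_nonneg (by linarith) (Real.log_nonneg this)
  have hlog : 0 ≤ Real.log (2 * E) := Real.log_nonneg (by linarith)
  obtain ⟨S, hS⟩ : ∃ S : Finset ℕ, S = (Finset.Icc 1 x).filter (fun p : ℕ => p.Prime ∧
      ∃ e z : ℕ, E ≤ e ∧ e < 2 * E ∧ Z ≤ z ∧ z < 2 * Z ∧
      (e : ℝ) ^ (3 / 4 + δ) ≤ z ∧ z ≤ e ∧ (e : ℝ) ^ (4 / 3 + δ) ≤ z * (x : ℝ) ^ (1 / 3 : ℝ) ∧
      (((Finset.Ioc e (e + z)).filter (fun k : ℕ => Odd k ∧
        ¬ (p : ℤ) ∣ (_root_.bernoulli (p - k)).num)).card : ℝ) <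
          (e : ℝ) ^ (-δ) * min ((z : ℝ) ^ (4 / 3 : ℝ) / e)
          ((z : ℝ) ^ (3 / 2 : ℝ) * (x : ℝ) ^ (1 / 2 : ℝ) / (e : ℝ) ^ 2)) := ⟨_, rfl⟩
  rw [← hS]
  obtain ⟨t, ht⟩ : ∃ t : ℝ, t = (E:ℝ) ^ δ := ⟨_, rfl⟩
  have ht1 : 1 ≤ t := by
    rw [ht]
    exact Real.one_le_rpow hE1 hδ.le
  have ht0 : 0 < t := by linarith
  have ht2 : (E : ℝ) ^ (-(2 * δ)) = (t ^ 2)⁻¹ := by
    rw [ht, ← Real.rpow_natCast, ← Real.rpow_mul hE0.le, ← Real.rpow_neg hE0.le]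
    congr 1
    push_cast
    ring
  have hrhs : 0 ≤ 60620800 * c * ((E : ℝ) ^ (-(2 * δ)) * Real.log (2 * E) * (x / Real.log x)) := by
    positivity
  -- the range of `Z` and `x`
  by_cases hrange : (E:ℝ) ^ (3 / 4 + δ) ≤ 2 * Z ∧ Z ≤ 2 * E ∧ 1 ≤ x ∧
      (E:ℝ) ^ (4 / 3 + δ) ≤ 2 * Z * (x:ℝ) ^ (1 / 3 : ℝ)
  swap
  · have : S = ∅ := by
      rw [hS, Finset.filter_eq_empty_iff]
      intro p hpx hp
      obtain ⟨_, e, z, h1, h2, h3, h4, h5, h6, h7, _⟩ := hp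
      apply hrange
      have a2 : (z:ℝ) ≤ 2 * Z := by exact_mod_cast h4.le
      refine ⟨?_, by omega, ?_, ?_⟩
      · have a1 : (E:ℝ) ^ (3 / 4 + δ) ≤ (e:ℝ) ^ (3 / 4 + δ) :=
          Real.rpow_le_rpow hE0.le (by exact_mod_cast h1) (by linarith)
        linarith
      · rw [Finset.mem_Icc] at hpx
        omega
      · have a1 : (E:ℝ) ^ (4 / 3 + δ) ≤ (e:ℝ) ^ (4 / 3 + δ) :=
          Real.rpow_le_rpow hE0.le (by exact_mod_cast h1) (by linarith)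
        have a3 : (z:ℝ) * (x:ℝ) ^ (1 / 3 : ℝ) ≤ 2 * Z * (x:ℝ) ^ (1 / 3 : ℝ) :=
          mul_le_mul_of_nonneg_right a2 (Real.rpow_nonneg (Nat.cast_nonneg x) _)
        linarith
    rw [this]
    simpa using hrhs
  obtain ⟨hr1, hr2, hx1, hr3⟩ := hrange
  have hr2' : (Z:ℝ) ≤ 2 * E := by exact_mod_cast hr2
  have hx1' : (1:ℝ) ≤ (x:ℝ) := by exact_mod_cast hx1
  have hx0 : (0:ℝ) < (x:ℝ) := by linarith
  obtain ⟨a, ha⟩ : ∃ a : ℝ, a = (2 * (Z:ℝ)) ^ (1 / 3 : ℝ) := ⟨_, rfl⟩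
  have ha0 : 0 < a := by rw [ha]; positivity
  have ha3 : a ^ 3 = 2 * Z := by
    rw [ha, ← Real.rpow_natCast, ← Real.rpow_mul (by positivity)]
    norm_num
  have ha4 : (2 * (Z:ℝ)) ^ (4 / 3 : ℝ) = a ^ 4 := by
    rw [ha, ← Real.rpow_natCast, ← Real.rpow_mul (by positivity)]
    norm_num
  obtain ⟨h, hh⟩ : ∃ h : ℝ, h = (2 * (Z:ℝ)) ^ (1 / 2 : ℝ) := ⟨_, rfl⟩
  have hh0 : 0 < h := by rw [hh]; positivity
  have hh2 : h ^ 2 = 2 * Z := by
    rw [hh, ← Real.rpow_natCast, ← Real.rpow_mul (by positivity)]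
    norm_num
  have hh3 : (2 * (Z:ℝ)) ^ (3 / 2 : ℝ) = h ^ 3 := by
    rw [hh, ← Real.rpow_natCast, ← Real.rpow_mul (by positivity)]
    norm_num
  obtain ⟨g, hg⟩ : ∃ g : ℝ, g = (x:ℝ) ^ (1 / 2 : ℝ) := ⟨_, rfl⟩
  have hg0 : 0 < g := by rw [hg]; positivity
  have hg2 : g ^ 2 = x := by
    rw [hg, ← Real.rpow_natCast, ← Real.rpow_mul (by positivity)]
    norm_num
  obtain ⟨y, hy⟩ : ∃ y : ℝ, y = (x:ℝ) ^ (1 / 3 : ℝ) := ⟨_, rfl⟩
  have hy0 : 0 < y := by rw [hy]; positivity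
  have hy3 : y ^ 3 = x := by
    rw [hy, ← Real.rpow_natCast, ← Real.rpow_mul (by positivity)]
    norm_num
  obtain ⟨M, hM⟩ : ∃ M : ℝ, M = t⁻¹ * min (a ^ 4 / E) (h ^ 3 * g / (E:ℝ) ^ 2) := ⟨_, rfl⟩
  have hM0 : 0 < M := by
    rw [hM]
    exact mul_pos (inv_pos.2 ht0) (lt_min (by positivity) (by positivity))
  have hMA : M * (E * t) ≤ a ^ 4 := by
    have h1 : M ≤ t⁻¹ * (a ^ 4 / E) := by
      rw [hM]
      exact mul_le_mul_of_nonneg_left (min_le_left _ _) (inv_nonneg.2 ht0.le)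
    calc M * (E * t) ≤ t⁻¹ * (a ^ 4 / E) * (E * t) := mul_le_mul_of_nonneg_right h1 (by positivity)
      _ = a ^ 4 := by field_simp
  have hMB : M * ((E:ℝ) ^ 2 * t) ≤ h ^ 3 * g := by
    have h1 : M ≤ t⁻¹ * (h ^ 3 * g / (E:ℝ) ^ 2) := by
      rw [hM]
      exact mul_le_mul_of_nonneg_left (min_le_right _ _) (inv_nonneg.2 ht0.le)
    calc M * ((E:ℝ) ^ 2 * t) ≤ t⁻¹ * (h ^ 3 * g / (E:ℝ) ^ 2) * ((E:ℝ) ^ 2 * t) :=
          mul_le_mul_of_nonneg_right h1 (by positivity)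
      _ = h ^ 3 * g := by field_simp
  have hEt : (0:ℝ) < E * t := by positivity
  -- `E^(3/4) t ≤ a^3`
  obtain ⟨b, hb⟩ : ∃ b : ℝ, b = (E:ℝ) ^ (1 / 4 : ℝ) := ⟨_, rfl⟩
  have hb0 : 0 < b := by rw [hb]; positivity
  have hb4 : b ^ 4 = E := by
    rw [hb, ← Real.rpow_natCast, ← Real.rpow_mul hE0.le]
    norm_num
  have hb3 : (E:ℝ) ^ (3 / 4 + δ) = b ^ 3 * t := by
    rw [hb, ht, ← Real.rpow_natCast, ← Real.rpow_mul hE0.le, ← Real.rpow_add hE0]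
    congr 1
    norm_num
  have hab : b ^ 3 * t ≤ a ^ 3 := by rw [ha3, ← hb3]; exact hr1
  obtain ⟨u, hu⟩ : ∃ u : ℝ, u = (E:ℝ) ^ (1 / 3 : ℝ) := ⟨_, rfl⟩
  have hu0 : 0 < u := by rw [hu]; positivity
  have hu3 : u ^ 3 = E := by
    rw [hu, ← Real.rpow_natCast, ← Real.rpow_mul hE0.le]
    norm_num
  have hu4 : (E:ℝ) ^ (4 / 3 + δ) = u ^ 4 * t := by
    rw [hu, ht, ← Real.rpow_natCast, ← Real.rpow_mul hE0.le, ← Real.rpow_add hE0]
    congr 1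
    norm_num
  have huh : u ^ 4 * t ≤ h ^ 2 * y := by rw [hh2, hy, ← hu4]; exact hr3
  have hA1 : E * t ≤ a ^ 4 := by
    have h1 : (E * t) ^ 3 ≤ (a ^ 4) ^ 3 := by
      calc (E * t) ^ 3 = (b ^ 3) ^ 4 * t ^ 3 * 1 := by rw [← hb4]; ring
        _ ≤ (b ^ 3) ^ 4 * t ^ 3 * t := mul_le_mul_of_nonneg_left ht1 (by positivity)
        _ = (b ^ 3 * t) ^ 4 := by ring
        _ ≤ (a ^ 3) ^ 4 := pow_le_pow_left₀ (by positivity) hab 4
        _ = (a ^ 4) ^ 3 := by ring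
    exact le_of_pow_le_pow_left₀ (by norm_num) (by positivity) h1
  have hB1 : (E:ℝ) ^ 2 * t ≤ h ^ 3 * g := by
    have h1 : ((E:ℝ) ^ 2 * t) ^ 2 ≤ (h ^ 3 * g) ^ 2 := by
      calc ((E:ℝ) ^ 2 * t) ^ 2 = (u ^ 4) ^ 3 * t ^ 2 * 1 := by rw [← hu3]; ring
        _ ≤ (u ^ 4) ^ 3 * t ^ 2 * t := mul_le_mul_of_nonneg_left ht1 (by positivity)
        _ = (u ^ 4 * t) ^ 3 := by ring
        _ ≤ (h ^ 2 * y) ^ 3 := pow_le_pow_left₀ (by positivity) huh 3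
        _ = (h ^ 3) ^ 2 * y ^ 3 := by ring
        _ = (h ^ 3) ^ 2 * g ^ 2 := by rw [hy3, hg2]
        _ = (h ^ 3 * g) ^ 2 := by ring
    exact le_of_pow_le_pow_left₀ (by norm_num) (by positivity) h1
  have hM1 : 1 ≤ M := by
    rw [hM, ← div_eq_inv_mul, one_le_div ht0]
    refine le_min ?_ ?_
    · rw [le_div_iff₀ hE0]
      linarith
    · rw [le_div_iff₀ (by positivity)]
      linarith
  have h32 : 32 * a ≤ E * t := by
    have h1 : 32 * a ≤ E := by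
      have h2 : (32 * a) ^ 3 ≤ (E:ℝ) ^ 3 := by
        have h3 : a ^ 3 ≤ 4 * E := by rw [ha3]; linarith
        have h4 : (262144:ℝ) ≤ (E:ℝ) ^ 2 := by
          calc (262144:ℝ) = 512 ^ 2 := by norm_num
            _ ≤ (E:ℝ) ^ 2 := pow_le_pow_left₀ (by norm_num) hE512 2
        calc (32 * a) ^ 3 = 32768 * a ^ 3 := by ring
          _ ≤ 32768 * (4 * (E:ℝ)) := by linarith
          _ ≤ 262144 * (E:ℝ) := by linarith
          _ ≤ (E:ℝ) ^ 2 * E := mul_le_mul_of_nonneg_right h4 hE0.le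
          _ = (E:ℝ) ^ 3 := by ring
      exact le_of_pow_le_pow_left₀ (by norm_num) hE0.le h2
    have h2 : (E:ℝ) * 1 ≤ E * t := mul_le_mul_of_nonneg_left ht1 hE0.le
    linarith
  obtain ⟨m, hm⟩ : ∃ m : ℕ, m = ⌈M⌉₊ := ⟨_, rfl⟩
  have hmM : M ≤ m := by rw [hm]; exact Nat.le_ceil M
  have hm2 : (m:ℝ) ≤ 2 * M := by
    have : (m:ℝ) < M + 1 := by rw [hm]; exact Nat.ceil_lt_add_one hM0.le
    linarith
  have hm0 : (0:ℝ) < m := by linarith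
  have hm1 : 1 ≤ m := by exact_mod_cast (Nat.cast_pos (α := ℝ)).1 hm0
  obtain ⟨w, hw⟩ : ∃ w : ℕ, w = Z / (4 * m) := ⟨_, rfl⟩
  have hmw : 4 * m * w ≤ Z := by rw [hw]; exact Nat.mul_div_le Z (4 * m)
  -- `16 M ≤ Z`
  have h16 : 16 * M ≤ Z := by
    have h1 : M * (32 * a) ≤ a ^ 4 := (mul_le_mul_of_nonneg_left h32 hM0.le).trans hMA
    have h2 : a * (16 * M) ≤ a * Z := by
      calc a * (16 * M) = M * (32 * a) / 2 := by ring
        _ ≤ a ^ 4 / 2 := by linarith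
        _ = a * (a ^ 3 / 2) := by ring
        _ = a * Z := by rw [ha3]; ring
    exact le_of_mul_le_mul_left h2 ha0
  have hw8 : (Z:ℝ) ≤ 8 * m * w := by
    have h1 : (Z:ℝ) < 4 * m * (w + 1) := by
      have h2 : Z < 4 * m * (w + 1) := by
        rw [hw]
        exact Nat.lt_mul_div_succ Z (by omega)
      exact_mod_cast h2
    have h3 : 8 * (m:ℝ) ≤ Z := by linarith
    linarith
  have hw0 : (0:ℝ) < w := by
    by_contra hneg
    have : (w:ℝ) = 0 := le_antisymm (not_lt.1 hneg) (Nat.cast_nonneg w)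
    rw [this, mul_zero] at hw8
    linarith
  have hw1 : 1 ≤ w := by exact_mod_cast (Nat.cast_pos (α := ℝ)).1 hw0
  have hw1' : (1:ℝ) ≤ w := by exact_mod_cast hw1
  have hwE : w ≤ E := by
    have h1 : 4 * w ≤ 4 * m * w := Nat.mul_le_mul_right w (by omega)
    omega
  have hwE' : (w:ℝ) ≤ E := by exact_mod_cast hwE
  -- the two lower bounds
  have hk1 : (E:ℝ) ^ 3 * t ^ 3 ≤ 524288 * (m * (w:ℝ) ^ 4) := by
    have e1 : (Z:ℝ) ^ 4 ≤ 32768 * M ^ 3 * (m * (w:ℝ) ^ 4) := by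
      calc (Z:ℝ) ^ 4 ≤ (8 * m * w) ^ 4 := pow_le_pow_left₀ hZ0.le hw8 4
        _ = 4096 * (m:ℝ) ^ 3 * (m * (w:ℝ) ^ 4) := by ring
        _ ≤ 4096 * (2 * M) ^ 3 * (m * (w:ℝ) ^ 4) := by
            have : (m:ℝ) ^ 3 ≤ (2 * M) ^ 3 := pow_le_pow_left₀ hm0.le hm2 3
            gcongr
        _ = 32768 * M ^ 3 * (m * (w:ℝ) ^ 4) := by ring
    have e2 : M ^ 3 * ((E:ℝ) ^ 3 * t ^ 3) ≤ 16 * (Z:ℝ) ^ 4 := by
      calc M ^ 3 * ((E:ℝ) ^ 3 * t ^ 3) = (M * (E * t)) ^ 3 := by ring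
        _ ≤ (a ^ 4) ^ 3 := pow_le_pow_left₀ (by positivity) hMA 3
        _ = (a ^ 3) ^ 4 := by ring
        _ = 16 * (Z:ℝ) ^ 4 := by rw [ha3]; ring
    have e3 : (Z:ℝ) ^ 4 * ((E:ℝ) ^ 3 * t ^ 3) ≤ (Z:ℝ) ^ 4 * (524288 * (m * (w:ℝ) ^ 4)) := by
      calc (Z:ℝ) ^ 4 * ((E:ℝ) ^ 3 * t ^ 3) ≤
            32768 * M ^ 3 * (m * (w:ℝ) ^ 4) * ((E:ℝ) ^ 3 * t ^ 3) :=
            mul_le_mul_of_nonneg_right e1 (by positivity)
        _ = 32768 * (m * (w:ℝ) ^ 4) * (M ^ 3 * ((E:ℝ) ^ 3 * t ^ 3)) := by ring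
        _ ≤ 32768 * (m * (w:ℝ) ^ 4) * (16 * (Z:ℝ) ^ 4) :=
            mul_le_mul_of_nonneg_left e2 (by positivity)
        _ = (Z:ℝ) ^ 4 * (524288 * (m * (w:ℝ) ^ 4)) := by ring
    exact le_of_mul_le_mul_left e3 (by positivity)
  have hk2 : (E:ℝ) ^ 4 * t ^ 2 ≤ 16384 * (m * (w:ℝ) ^ 3 * x) := by
    have e1 : (Z:ℝ) ^ 3 ≤ 2048 * M ^ 2 * (m * (w:ℝ) ^ 3) := by
      calc (Z:ℝ) ^ 3 ≤ (8 * m * w) ^ 3 := pow_le_pow_left₀ hZ0.le hw8 3
        _ = 512 * (m:ℝ) ^ 2 * (m * (w:ℝ) ^ 3) := by ring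
        _ ≤ 512 * (2 * M) ^ 2 * (m * (w:ℝ) ^ 3) := by
            have : (m:ℝ) ^ 2 ≤ (2 * M) ^ 2 := pow_le_pow_left₀ hm0.le hm2 2
            gcongr
        _ = 2048 * M ^ 2 * (m * (w:ℝ) ^ 3) := by ring
    have e2 : M ^ 2 * ((E:ℝ) ^ 4 * t ^ 2) ≤ 8 * (Z:ℝ) ^ 3 * x := by
      calc M ^ 2 * ((E:ℝ) ^ 4 * t ^ 2) = (M * ((E:ℝ) ^ 2 * t)) ^ 2 := by ring
        _ ≤ (h ^ 3 * g) ^ 2 := pow_le_pow_left₀ (by positivity) hMB 2
        _ = (h ^ 2) ^ 3 * g ^ 2 := by ring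
        _ = 8 * (Z:ℝ) ^ 3 * x := by rw [hh2, hg2]; ring
    have e3 : (Z:ℝ) ^ 3 * ((E:ℝ) ^ 4 * t ^ 2) ≤ (Z:ℝ) ^ 3 * (16384 * (m * (w:ℝ) ^ 3 * x)) := by
      calc (Z:ℝ) ^ 3 * ((E:ℝ) ^ 4 * t ^ 2) ≤
            2048 * M ^ 2 * (m * (w:ℝ) ^ 3) * ((E:ℝ) ^ 4 * t ^ 2) :=
            mul_le_mul_of_nonneg_right e1 (by positivity)
        _ = 2048 * (m * (w:ℝ) ^ 3) * (M ^ 2 * ((E:ℝ) ^ 4 * t ^ 2)) := by ring
        _ ≤ 2048 * (m * (w:ℝ) ^ 3) * (8 * (Z:ℝ) ^ 3 * x) :=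
            mul_le_mul_of_nonneg_left e2 (by positivity)
        _ = (Z:ℝ) ^ 3 * (16384 * (m * (w:ℝ) ^ 3 * x)) := by ring
    exact le_of_mul_le_mul_left e3 (by positivity)
  -- the double counting
  have hSsub : S ⊆ (Finset.Icc 1 x).filter Nat.Prime := by
    intro p hp
    rw [hS, Finset.mem_filter] at hp
    rw [Finset.mem_filter]
    exact ⟨hp.1, hp.2.1⟩
  have hbad : ∀ p ∈ S, m ≤ ((Finset.Icc 1 (4 * E / w)).filter (fun j => TW.Bad (j * w) w p)).card := by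
    intro p hp
    rw [hS, Finset.mem_filter] at hp
    obtain ⟨_, _, e, z, h1, h2, h3, h4, h5, h6, h7, h8⟩ := hp
    apply mw_bad hw1 hm1 (hmw.trans h3) (by omega) (e := e) (z := z)
    have hEe : (E:ℝ) ≤ e := by exact_mod_cast h1
    have hz2 : (z:ℝ) ≤ 2 * Z := by exact_mod_cast h4.le
    have b1 : (z:ℝ) ^ (4 / 3 : ℝ) ≤ a ^ 4 := by
      rw [← ha4]
      exact Real.rpow_le_rpow (Nat.cast_nonneg z) hz2 (by norm_num)
    have b1' : (z:ℝ) ^ (3 / 2 : ℝ) ≤ h ^ 3 := by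
      rw [← hh3]
      exact Real.rpow_le_rpow (Nat.cast_nonneg z) hz2 (by norm_num)
    have b2 : (e:ℝ) ^ (-δ) ≤ t⁻¹ := by
      rw [ht, Real.rpow_neg (Nat.cast_nonneg e)]
      apply inv_anti₀ (by positivity)
      exact Real.rpow_le_rpow hE0.le hEe hδ.le
    have b3 : (z:ℝ) ^ (4 / 3 : ℝ) / e ≤ a ^ 4 / E :=
      div_le_div₀ (by positivity) b1 hE0 hEe
    have b4 : (z:ℝ) ^ (3 / 2 : ℝ) * (x:ℝ) ^ (1 / 2 : ℝ) / (e:ℝ) ^ 2 ≤ h ^ 3 * g / (E:ℝ) ^ 2 := by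
      refine div_le_div₀ (by positivity) ?_ (by positivity) (pow_le_pow_left₀ hE0.le hEe 2)
      rw [← hg]
      exact mul_le_mul_of_nonneg_right b1' hg0.le
    have b5 : (e:ℝ) ^ (-δ) * min ((z:ℝ) ^ (4 / 3 : ℝ) / e)
        ((z:ℝ) ^ (3 / 2 : ℝ) * (x:ℝ) ^ (1 / 2 : ℝ) / (e:ℝ) ^ 2) ≤ M := by
      rw [hM]
      exact mul_le_mul b2 (min_le_min b3 b4) (le_min (by positivity) (by positivity)) (by positivity)
    have b6 := lt_of_lt_of_le h8 (b5.trans hmM)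
    exact_mod_cast b6
  have hdc := mw_double S hSsub hbad
  have hone : ∀ j ∈ Finset.Icc 1 (4 * E / w), (((Finset.Icc 1 x).filter
      (fun p : ℕ => p.Prime ∧ TW.Bad (j * w) w p)).card : ℝ) ≤
      c * ((5 * (E:ℝ)) ^ 2 * Real.log (2 * E) / (w:ℝ) ^ 2 * (1 / (w:ℝ) + 5 * E / x) *
        (x / Real.log x)) := by
    intro j hj
    rw [Finset.mem_Icc] at hj
    have h1 : j * w + w ≤ 5 * E := by
      have h2 := Nat.mul_le_mul_right w hj.2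
      have h3 := Nat.div_mul_le_self (4 * E) w
      omega
    have h1' : ((j * w : ℕ) : ℝ) + w ≤ 5 * E := by exact_mod_cast h1
    refine (hT (j * w) w x hw1).trans ?_
    have h2 : Real.log (2 * w) ≤ Real.log (2 * E) :=
      Real.log_le_log (by positivity) (by linarith)
    have h3 : 0 ≤ Real.log (2 * w) := Real.log_nonneg (by linarith)
    have h4 : (((j * w : ℕ) : ℝ) + w) ^ 2 ≤ (5 * (E:ℝ)) ^ 2 :=
      pow_le_pow_left₀ (by positivity) h1' 2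
    have h5 : (((j * w : ℕ) : ℝ) + w) ^ 2 * Real.log (2 * w) ≤
        (5 * (E:ℝ)) ^ 2 * Real.log (2 * E) := mul_le_mul h4 h2 h3 (by positivity)
    refine mul_le_mul_of_nonneg_left ?_ hc.le
    refine mul_le_mul_of_nonneg_right ?_ hXnn
    refine mul_le_mul (div_le_div_of_nonneg_right h5 (by positivity)) ?_ (by positivity) ?_
    · have h6 : (((j * w : ℕ) : ℝ) + w) / x ≤ 5 * E / x := div_le_div_of_nonneg_right h1' hx0.le
      linarith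
    · exact div_nonneg (mul_nonneg (by positivity) hlog) (by positivity)
  have hdc' : (m:ℝ) * S.card ≤ ∑ j ∈ Finset.Icc 1 (4 * E / w),
      (((Finset.Icc 1 x).filter (fun p : ℕ => p.Prime ∧ TW.Bad (j * w) w p)).card : ℝ) := by
    exact_mod_cast hdc
  have hdc2 := hdc'.trans (Finset.sum_le_sum hone)
  rw [Finset.sum_const, Nat.card_Icc, nsmul_eq_mul, Nat.add_sub_cancel] at hdc2
  have hJ : ((4 * E / w : ℕ) : ℝ) ≤ 4 * E / w := by
    rw [le_div_iff₀ hw0]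
    exact_mod_cast Nat.div_mul_le_self (4 * E) w
  have hkey : (m:ℝ) * S.card ≤ m * (60620800 * c * ((E : ℝ) ^ (-(2 * δ)) * Real.log (2 * E) *
      (x / Real.log x))) := by
    have q1 : (E:ℝ) ^ 3 / (w:ℝ) ^ 4 ≤ 524288 * m * (t ^ 2)⁻¹ := by
      rw [div_le_iff₀ (by positivity)]
      have h1 : 524288 * (m:ℝ) * (t ^ 2)⁻¹ * w ^ 4 = (524288 * (m * (w:ℝ) ^ 4)) * (t ^ 2)⁻¹ := by
        ring
      rw [h1, ← div_eq_mul_inv, le_div_iff₀ (by positivity)]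
      refine le_trans ?_ hk1
      apply mul_le_mul_of_nonneg_left _ (by positivity)
      calc t ^ 2 = t ^ 2 * 1 := by ring
        _ ≤ t ^ 2 * t := mul_le_mul_of_nonneg_left ht1 (by positivity)
        _ = t ^ 3 := by ring
    have q2 : 5 * (E:ℝ) ^ 4 / ((w:ℝ) ^ 3 * x) ≤ 81920 * m * (t ^ 2)⁻¹ := by
      rw [div_le_iff₀ (by positivity)]
      have h1 : 81920 * (m:ℝ) * (t ^ 2)⁻¹ * ((w:ℝ) ^ 3 * x) =
          (5 * (16384 * (m * (w:ℝ) ^ 3 * x))) * (t ^ 2)⁻¹ := by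
        ring
      rw [h1, ← div_eq_mul_inv, le_div_iff₀ (by positivity)]
      linarith
    calc (m:ℝ) * S.card ≤ ((4 * E / w : ℕ) : ℝ) *
          (c * ((5 * (E:ℝ)) ^ 2 * Real.log (2 * E) / (w:ℝ) ^ 2 * (1 / (w:ℝ) + 5 * E / x) *
            (x / Real.log x))) := hdc2
      _ ≤ (4 * E / w) *
          (c * ((5 * (E:ℝ)) ^ 2 * Real.log (2 * E) / (w:ℝ) ^ 2 * (1 / (w:ℝ) + 5 * E / x) *
            (x / Real.log x))) := by
          refine mul_le_mul_of_nonneg_right hJ ?_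
          refine mul_nonneg hc.le (mul_nonneg (mul_nonneg ?_ (by positivity)) hXnn)
          exact div_nonneg (mul_nonneg (by positivity) hlog) (by positivity)
      _ = 100 * c * (E ^ 3 / (w:ℝ) ^ 4 + 5 * (E:ℝ) ^ 4 / ((w:ℝ) ^ 3 * x)) *
          (Real.log (2 * E) * (x / Real.log x)) := by
          have hx0' : (x:ℝ) ≠ 0 := hx0.ne'
          have hw0' : (w:ℝ) ≠ 0 := hw0.ne'
          generalize (x:ℝ) / Real.log x = X
          field_simp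
          ring
      _ ≤ 100 * c * (524288 * m * (t ^ 2)⁻¹ + 81920 * m * (t ^ 2)⁻¹) *
          (Real.log (2 * E) * (x / Real.log x)) := by
          apply mul_le_mul_of_nonneg_right _ (mul_nonneg hlog hXnn)
          apply mul_le_mul_of_nonneg_left _ (by positivity)
          exact add_le_add q1 q2
      _ = _ := by rw [ht2]; ring
  exact le_of_mul_le_mul_left hkey hm0

private lemma mw_term (d : ℝ) (i : ℕ) :
    ((i : ℝ) + 1) * ((((2 ^ i : ℕ) : ℝ)) ^ (-(2 * d)) * Real.log (2 * ((2 ^ i : ℕ) : ℝ))) =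
      Real.log 2 * ((i : ℝ) ^ 2 * ((2 : ℝ) ^ (-(2 * d))) ^ i +
        2 * ((i : ℝ) ^ 1 * ((2 : ℝ) ^ (-(2 * d))) ^ i) + ((2 : ℝ) ^ (-(2 * d))) ^ i) := by
  have h1 : (((2 ^ i : ℕ) : ℝ)) ^ (-(2 * d)) = ((2 : ℝ) ^ (-(2 * d))) ^ i := by
    push_cast
    rw [← Real.rpow_natCast 2 i, ← Real.rpow_mul (by norm_num), mul_comm,
      Real.rpow_mul (by norm_num), Real.rpow_natCast]
  have h2 : Real.log (2 * ((2 ^ i : ℕ) : ℝ)) = ((i : ℝ) + 1) * Real.log 2 := by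
    have : (2 : ℝ) * ((2 ^ i : ℕ) : ℝ) = 2 ^ (i + 1) := by
      push_cast
      ring
    rw [this, Real.log_pow]
    push_cast
    ring
  rw [h1, h2]
  ring

private lemma mw_summable {d : ℝ} (hd : 0 < d) : Summable (fun i : ℕ =>
    ((i : ℝ) + 1) * ((((2 ^ i : ℕ) : ℝ)) ^ (-(2 * d)) * Real.log (2 * ((2 ^ i : ℕ) : ℝ)))) := by
  have hq0 : (0 : ℝ) < (2 : ℝ) ^ (-(2 * d)) := Real.rpow_pos_of_pos (by norm_num) _
  have hq1 : (2 : ℝ) ^ (-(2 * d)) < 1 :=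
    Real.rpow_lt_one_of_one_lt_of_neg (by norm_num) (by linarith)
  have hq : ‖(2 : ℝ) ^ (-(2 * d))‖ < 1 := by
    rw [Real.norm_eq_abs, abs_of_pos hq0]
    exact hq1
  have h0 := summable_pow_mul_geometric_of_norm_lt_one (R := ℝ) 2 hq
  have h1 := summable_pow_mul_geometric_of_norm_lt_one (R := ℝ) 1 hq
  have h2 := summable_geometric_of_lt_one hq0.le hq1
  refine (((h0.add (h1.mul_left 2)).add h2).mul_left (Real.log 2)).congr fun i => ?_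
  rw [mw_term]

private lemma mw_nonneg (d : ℝ) (i : ℕ) :
    0 ≤ ((i : ℝ) + 1) * ((((2 ^ i : ℕ) : ℝ)) ^ (-(2 * d)) * Real.log (2 * ((2 ^ i : ℕ) : ℝ))) := by
  have h1 : (1 : ℝ) ≤ ((2 ^ i : ℕ) : ℝ) := by
    exact_mod_cast Nat.one_le_two_pow
  refine mul_nonneg (by positivity) ?_
  exact mul_nonneg (Real.rpow_nonneg (by linarith) _) (Real.log_nonneg (by linarith))

open Classical in
theorem many_w (δ : ℝ) (hδ : 0 < δ) (ε : ℝ) (hε : 0 < ε) : ∃ e₀ x₀ : ℕ, ∀ x : ℕ, x₀ ≤ x →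
    (((Finset.Icc 1 x).filter (fun p : ℕ => p.Prime ∧ ∃ e z : ℕ, e₀ ≤ e ∧ z ≤ e ∧
      (e : ℝ) ^ (3 / 4 + δ) ≤ z ∧ (e : ℝ) ^ (4 / 3 + δ) ≤ z * (x : ℝ) ^ (1 / 3 : ℝ) ∧
      (((Finset.Ioc e (e + z)).filter (fun k : ℕ => Odd k ∧ ¬ (p : ℤ) ∣ (_root_.bernoulli (p - k)).num)).card : ℝ) <
        (e : ℝ) ^ (-δ) * min ((z : ℝ) ^ (4 / 3 : ℝ) / e)
          ((z : ℝ) ^ (3 / 2 : ℝ) * (x : ℝ) ^ (1 / 2 : ℝ) / (e : ℝ) ^ 2))).card : ℝ) ≤
      ε * (x / Real.log x) := by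
  obtain ⟨C, hC, hgap⟩ := mw_scale δ hδ
  obtain ⟨a, ha⟩ : ∃ a : ℕ → ℝ, a = fun i : ℕ => ((i : ℝ) + 1) *
    ((((2 ^ i : ℕ) : ℝ)) ^ (-(2 * δ)) * Real.log (2 * ((2 ^ i : ℕ) : ℝ))) := ⟨_, rfl⟩
  have hsum : Summable a := by rw [ha]; exact mw_summable hδ
  have ha0 : ∀ i, 0 ≤ a i := fun i => by rw [ha]; exact mw_nonneg δ i
  have htail := tendsto_sum_nat_add a
  have hev : ∀ᶠ i in Filter.atTop, ∑' k, a (k + i) < ε / C :=
    htail.eventually_lt_const (div_pos hε hC)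
  obtain ⟨i₁, hi₁⟩ := Filter.eventually_atTop.1 hev
  obtain ⟨i₀, hi₀⟩ : ∃ i₀, i₀ = max i₁ 9 := ⟨_, rfl⟩
  have h01 : i₁ ≤ i₀ := by rw [hi₀]; exact le_max_left _ _
  have h09 : 9 ≤ i₀ := by rw [hi₀]; exact le_max_right _ _
  have h0t := hi₁ i₀ h01
  refine ⟨2 ^ i₀, 2, ?_⟩
  intro x hx2
  have hxr : (2 : ℝ) ≤ x := by exact_mod_cast hx2
  have hx1r : (1 : ℝ) ≤ x := by linarith
  have hx0r : (0 : ℝ) < x := by linarith
  have hxlog : 0 ≤ (x : ℝ) / Real.log x := div_nonneg hx0r.le (Real.log_nonneg hx1r)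
  -- the sets of the scales
  obtain ⟨B, hB⟩ : ∃ B : ℕ → ℕ → Finset ℕ, B = fun i j => (Finset.Icc 1 x).filter
      (fun p : ℕ => p.Prime ∧ ∃ e z : ℕ, 2 ^ i ≤ e ∧ e < 2 * 2 ^ i ∧ 2 ^ j ≤ z ∧ z < 2 * 2 ^ j ∧
      (e : ℝ) ^ (3 / 4 + δ) ≤ z ∧ z ≤ e ∧ (e : ℝ) ^ (4 / 3 + δ) ≤ z * (x : ℝ) ^ (1 / 3 : ℝ) ∧
      (((Finset.Ioc e (e + z)).filter (fun k : ℕ => Odd k ∧
        ¬ (p : ℤ) ∣ (_root_.bernoulli (p - k)).num)).card : ℝ) <
          (e : ℝ) ^ (-δ) * min ((z : ℝ) ^ (4 / 3 : ℝ) / e)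
          ((z : ℝ) ^ (3 / 2 : ℝ) * (x : ℝ) ^ (1 / 2 : ℝ) / (e : ℝ) ^ 2)) := ⟨_, rfl⟩
  obtain ⟨I, hI⟩ : ∃ I : Finset ℕ, I = Finset.Icc i₀ x := ⟨_, rfl⟩
  have hsub : (Finset.Icc 1 x).filter (fun p : ℕ => p.Prime ∧ ∃ e z : ℕ, 2 ^ i₀ ≤ e ∧ z ≤ e ∧
      (e : ℝ) ^ (3 / 4 + δ) ≤ z ∧ (e : ℝ) ^ (4 / 3 + δ) ≤ z * (x : ℝ) ^ (1 / 3 : ℝ) ∧
      (((Finset.Ioc e (e + z)).filter (fun k : ℕ => Odd k ∧
        ¬ (p : ℤ) ∣ (_root_.bernoulli (p - k)).num)).card : ℝ) <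
        (e : ℝ) ^ (-δ) * min ((z : ℝ) ^ (4 / 3 : ℝ) / e)
          ((z : ℝ) ^ (3 / 2 : ℝ) * (x : ℝ) ^ (1 / 2 : ℝ) / (e : ℝ) ^ 2)) ⊆
      I.biUnion (fun i => (Finset.range (i + 1)).biUnion (fun j => B i j)) := by
    intro p hp
    rw [Finset.mem_filter] at hp
    obtain ⟨hpx, hpp, e, z, he0, hze, hez, hezx, hk⟩ := hp
    have he1 : 1 ≤ e := Nat.one_le_two_pow.trans he0
    have he1r : (1 : ℝ) ≤ e := by exact_mod_cast he1
    have he0r : (0 : ℝ) < e := by linarith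
    have hz1r : (1 : ℝ) ≤ z := (Real.one_le_rpow he1r (by linarith)).trans hez
    have hz1 : 1 ≤ z := by exact_mod_cast hz1r
    have hle : 2 ^ Nat.log 2 e ≤ e := Nat.pow_log_le_self 2 (by omega)
    have hlt : e < 2 ^ (Nat.log 2 e + 1) := Nat.lt_pow_succ_log_self (by norm_num) e
    have hlez : 2 ^ Nat.log 2 z ≤ z := Nat.pow_log_le_self 2 (by omega)
    have hltz : z < 2 ^ (Nat.log 2 z + 1) := Nat.lt_pow_succ_log_self (by norm_num) z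
    have hi0 : i₀ ≤ Nat.log 2 e := Nat.le_log_of_pow_le (by norm_num) he0
    have hji : Nat.log 2 z ≤ Nat.log 2 e := Nat.log_mono_right hze
    have hex : e ≤ x := by
      by_contra hcon
      rw [not_le] at hcon
      have hconr : (x : ℝ) < e := by exact_mod_cast hcon
      have h1 : (x : ℝ) ^ (1 / 3 : ℝ) < (e : ℝ) ^ (1 / 3 : ℝ) :=
        Real.rpow_lt_rpow hx0r.le hconr (by norm_num)
      have h2 : (e : ℝ) ^ (1 / 3 : ℝ) ≤ (e : ℝ) ^ (1 / 3 + δ) :=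
        Real.rpow_le_rpow_of_exponent_le he1r (by linarith)
      have h3 : (e : ℝ) ^ (4 / 3 + δ) = e * (e : ℝ) ^ (1 / 3 + δ) := by
        have : (4 : ℝ) / 3 + δ = 1 + (1 / 3 + δ) := by ring
        rw [this, Real.rpow_add he0r, Real.rpow_one]
      have h4 : (z : ℝ) * (x : ℝ) ^ (1 / 3 : ℝ) ≤ e * (x : ℝ) ^ (1 / 3 : ℝ) :=
        mul_le_mul_of_nonneg_right (by exact_mod_cast hze) (Real.rpow_nonneg hx0r.le _)
      rw [h3] at hezx
      have h5 : (e : ℝ) * (e : ℝ) ^ (1 / 3 + δ) ≤ e * (x : ℝ) ^ (1 / 3 : ℝ) := hezx.trans h4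
      have h6 := le_of_mul_le_mul_left h5 he0r
      linarith
    have hix : Nat.log 2 e ≤ x := by
      have h4 : Nat.log 2 e < 2 ^ Nat.log 2 e := Nat.lt_two_pow_self
      omega
    rw [Finset.mem_biUnion]
    refine ⟨Nat.log 2 e, ?_, ?_⟩
    · rw [hI, Finset.mem_Icc]
      exact ⟨hi0, hix⟩
    · rw [Finset.mem_biUnion]
      refine ⟨Nat.log 2 z, Finset.mem_range.2 (by omega), ?_⟩
      rw [hB]
      dsimp only
      rw [Finset.mem_filter]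
      rw [pow_succ] at hlt hltz
      exact ⟨hpx, hpp, e, z, hle, by omega, hlez, by omega, hez, hze, hezx, hk⟩
  have hBcard : ∀ i ∈ I, ∀ j ∈ Finset.range (i + 1), ((B i j).card : ℝ) ≤
      C * ((((2 ^ i : ℕ) : ℝ)) ^ (-(2 * δ)) * Real.log (2 * ((2 ^ i : ℕ) : ℝ)) *
        (x / Real.log x)) := by
    intro i hi j _
    rw [hI, Finset.mem_Icc] at hi
    obtain ⟨hi1, _⟩ := hi
    have hE : 512 ≤ 2 ^ i := by
      calc 512 = 2 ^ 9 := by norm_num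
        _ ≤ 2 ^ i := Nat.pow_le_pow_right (by norm_num) (h09.trans hi1)
    have h3 := hgap (2 ^ i) (2 ^ j) x hE Nat.one_le_two_pow
    rw [hB]
    exact h3
  have hBi : ∀ i ∈ I, (((Finset.range (i + 1)).biUnion (fun j => B i j)).card : ℝ) ≤
      C * (a i * (x / Real.log x)) := by
    intro i hi
    calc (((Finset.range (i + 1)).biUnion (fun j => B i j)).card : ℝ)
        ≤ ((∑ j ∈ Finset.range (i + 1), (B i j).card : ℕ) : ℝ) := by
          exact_mod_cast Finset.card_biUnion_le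
      _ = ∑ j ∈ Finset.range (i + 1), ((B i j).card : ℝ) := by push_cast; rfl
      _ ≤ ∑ j ∈ Finset.range (i + 1), C * ((((2 ^ i : ℕ) : ℝ)) ^ (-(2 * δ)) *
            Real.log (2 * ((2 ^ i : ℕ) : ℝ)) * (x / Real.log x)) :=
          Finset.sum_le_sum (hBcard i hi)
      _ = C * (a i * (x / Real.log x)) := by
          rw [Finset.sum_const, Finset.card_range, nsmul_eq_mul, ha]
          push_cast
          ring
  have hsumI : ∑ i ∈ I, a i ≤ ε / C := by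
    have h1 : ∑ i ∈ I, a i ≤ ∑ i ∈ Finset.Icc i₀ (x + i₀), a i := by
      refine Finset.sum_le_sum_of_subset_of_nonneg ?_ fun i _ _ => ha0 i
      intro i hi
      rw [hI, Finset.mem_Icc] at hi
      rw [Finset.mem_Icc]
      omega
    have h2 : ∑ i ∈ Finset.Icc i₀ (x + i₀), a i = ∑ k ∈ Finset.range (x + 1), a (k + i₀) := by
      rw [← Finset.Ico_add_one_right_eq_Icc, Finset.sum_Ico_eq_sum_range]
      have : x + i₀ + 1 - i₀ = x + 1 := by omega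
      rw [this]
      refine Finset.sum_congr rfl fun k _ => ?_
      rw [Nat.add_comm]
    have h3 : ∑ k ∈ Finset.range (x + 1), a (k + i₀) ≤ ∑' k, a (k + i₀) :=
      ((summable_nat_add_iff i₀).2 hsum).sum_le_tsum _ fun k _ => ha0 _
    linarith
  calc _ ≤ ((I.biUnion (fun i => (Finset.range (i + 1)).biUnion (fun j => B i j))).card : ℝ) := by
        exact_mod_cast Finset.card_le_card hsub
    _ ≤ ((∑ i ∈ I, ((Finset.range (i + 1)).biUnion (fun j => B i j)).card : ℕ) : ℝ) := by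
        exact_mod_cast Finset.card_biUnion_le
    _ = ∑ i ∈ I, (((Finset.range (i + 1)).biUnion (fun j => B i j)).card : ℝ) := by
        push_cast; rfl
    _ ≤ ∑ i ∈ I, C * (a i * (x / Real.log x)) := Finset.sum_le_sum hBi
    _ = C * (∑ i ∈ I, a i) * (x / Real.log x) := by
        rw [← Finset.mul_sum, ← Finset.sum_mul]
        ring
    _ ≤ C * (ε / C) * (x / Real.log x) := by
        apply mul_le_mul_of_nonneg_right _ hxlog
        exact mul_le_mul_of_nonneg_left hsumI hC.le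
    _ = ε * (x / Real.log x) := by
        rw [mul_div_cancel₀ ε hC.ne']

end MP_a3a416_nt.GW
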