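import Pool.Agent.Lib.MP_a3a416_nt.GW.GCount
import Pool.Agent.Lib.MP_a3a416_nt.GL.NonZ

/-!
# GW-NonZ
The number of non-zero terms among `B_{p-3}, …, B_{p-1-2J}`, for all `K ≤ J ≤ M` at once, `M` arbitrary.  Copy `GL/NonZ.lean`.
PROOF.  As `GL/NonZ.lean` with `gap_law_w` (no condition on `x` any more, so no `Λ`: take `Λ = 1`, `i := Nat.log 2 J`).  `#B i ≤ C₂ (i+1) (2^(-i/2) + 2^i/x) x/log x`, sum over `i ≥ i₀`, `2^i ≤ M`: `≤ C₃ (log K/√K + M log M/x) x/log x` (`∑_{2^i ≤ M} (i+1) 2^i ≤ 2 M (log₂ M + 1) ≤ C M log M`).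
Primes `p < 2 M + 3`: `≤ 2M + 3 ≤ C (log K/√K + M log M/x) π(x)`: if `M ≥ √x`: `log M ≥ (1/2) log x`, `(M log M/x) (x/(4 log x)) ≥ M/8`; if `M < √x`: `log K/√K ≥ c x^(-1/4)` (as `2 ≤ K ≤ M < √x`) and `x^(3/4)/log x ≥ c √x`.
If `M ≥ x`: trivial bound by `π(x)`.  If `K > M`: the left side is `0`.  `K < K₀`: trivial bound by `π(x)`.  If `x < 16` and `2 ≤ K ≤ M < x`: trivial (`K < K₀`).
-/

namespace MP_a3a416_nt.GW

open MP_a3a416_nt.GL

private theorem sum_bd : ∃ C : ℝ, 0 < C ∧ ∀ n : ℕ,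
    ∑ k ∈ Finset.range n, ((k : ℝ) + 1) / √(2 ^ k : ℝ) ≤ C := by
  have hr : ‖(1 / √2 : ℝ)‖ < 1 := by
    rw [Real.norm_of_nonneg (by positivity), div_lt_one (by positivity)]
    rw [Real.lt_sqrt (by norm_num)]
    norm_num
  have h1 : Summable (fun n : ℕ => (n : ℝ) * (1 / √2 : ℝ) ^ n) :=
    (hasSum_coe_mul_geometric_of_norm_lt_one hr).summable
  have h2 : Summable (fun n : ℕ => (1 / √2 : ℝ) ^ n) := summable_geometric_of_norm_lt_one hr
  have h3 := h1.add h2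
  have hnn : ∀ n : ℕ, 0 ≤ (n : ℝ) * (1 / √2 : ℝ) ^ n + (1 / √2 : ℝ) ^ n := fun n => by positivity
  refine ⟨∑' n : ℕ, ((n : ℝ) * (1 / √2 : ℝ) ^ n + (1 / √2 : ℝ) ^ n) + 1, ?_, ?_⟩
  · have h6 : 0 ≤ ∑' n : ℕ, ((n : ℝ) * (1 / √2 : ℝ) ^ n + (1 / √2 : ℝ) ^ n) := tsum_nonneg hnn
    linarith
  · intro n
    have h4 := h3.sum_le_tsum (Finset.range n) (fun k _ => hnn k)
    have h5 : ∑ k ∈ Finset.range n, ((k : ℝ) + 1) / √(2 ^ k : ℝ) =
        ∑ k ∈ Finset.range n, ((k : ℝ) * (1 / √2 : ℝ) ^ k + (1 / √2 : ℝ) ^ k) := by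
      refine Finset.sum_congr rfl fun k _ => ?_
      have h6 : √(2 ^ k : ℝ) = √2 ^ k := by
        rw [Real.sqrt_eq_iff_mul_self_eq (by positivity) (by positivity), ← mul_pow,
          Real.mul_self_sqrt (by norm_num)]
      rw [h6, div_pow, one_pow]
      ring
    rw [h5]
    linarith

private theorem head_bd {D K i : ℕ} (hD : 1 ≤ D) (hK : 2 ≤ K) (h1 : 2 ^ i ≤ K)
    (h2 : K ≤ 8 * D * 2 ^ i) : ((i : ℝ) + 1) / √(2 ^ i : ℝ) ≤ 24 * D * (Real.log K / √K) := by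
  have hK' : (2 : ℝ) ≤ K := by exact_mod_cast hK
  have hD' : (1 : ℝ) ≤ D := by exact_mod_cast hD
  have hsK : 0 < √(K : ℝ) := Real.sqrt_pos.2 (by linarith)
  have hl2 := Real.log_two_gt_d9
  have hlK2 : Real.log 2 ≤ Real.log K := Real.log_le_log (by norm_num) hK'
  have hp : (0 : ℝ) < √(2 ^ i : ℝ) := Real.sqrt_pos.2 (by positivity)
  have h3 : (i : ℝ) * Real.log 2 ≤ Real.log K := by
    rw [← Real.log_pow]
    exact Real.log_le_log (by positivity) (by exact_mod_cast h1)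
  have h4 : (i : ℝ) + 1 ≤ 3 * Real.log K := by
    have h5 : ((i : ℝ) + 1) * (2 / 3) ≤ ((i : ℝ) + 1) * Real.log 2 :=
      mul_le_mul_of_nonneg_left (by linarith) (by positivity)
    linarith
  have h5 : √(K : ℝ) ≤ 8 * D * √(2 ^ i : ℝ) := by
    rw [Real.sqrt_le_left (by positivity), mul_pow, Real.sq_sqrt (by positivity)]
    have h6 : (K : ℝ) ≤ 8 * D * 2 ^ i := by exact_mod_cast h2
    refine h6.trans (mul_le_mul_of_nonneg_right ?_ (by positivity))
    nlinarith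
  rw [mul_div_assoc', div_le_div_iff₀ hp hsK]
  calc ((i : ℝ) + 1) * √(K : ℝ) ≤ 3 * Real.log K * (8 * D * √(2 ^ i : ℝ)) :=
        mul_le_mul h4 h5 hsK.le (by linarith)
    _ = 24 * D * Real.log K * √(2 ^ i : ℝ) := by ring

/-- the length `L_i` -/
private def Li (D i : ℕ) : ℕ := Nat.sqrt (2 * D * 2 ^ i) + 1

private theorem Li_gt (D i : ℕ) : 2 * D * 2 ^ i < Li D i ^ 2 := by
  unfold Li
  rw [pow_two]
  exact Nat.lt_succ_sqrt _

private theorem Li_le {D i : ℕ} (hD : 1 ≤ D) : Li D i ^ 2 ≤ 8 * D * 2 ^ i := by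
  unfold Li
  have h1 := Nat.sqrt_le (2 * D * 2 ^ i)
  have h3 : 1 ≤ 2 ^ i := Nat.one_le_pow _ _ (by norm_num)
  have h2 : 1 ≤ Nat.sqrt (2 * D * 2 ^ i) := by
    apply Nat.le_sqrt.2
    have : 1 * 1 ≤ D * 2 ^ i := Nat.mul_le_mul hD h3
    nlinarith
  nlinarith

open Classical in
private theorem B_bound {C : ℝ} {D : ℕ} (hC : 0 < C) (hCD : C ≤ D) (hD : 1 ≤ D)
    (hgap : ∀ (J L x : ℕ) (ρ : ℝ), 1 ≤ L → L ≤ J → 0 < ρ → ρ ≤ 1 →
    C * J ≤ ρ * (L : ℝ) ^ 2 →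
    (((Finset.Icc 1 x).filter (fun p : ℕ => p.Prime ∧ ρ * J ≤ ((LR J L p).card : ℝ))).card : ℝ) ≤
      C * (Real.log (2 * J) * (1 / (ρ ^ 3 * L) + J / (ρ ^ 4 * x)) * (x / Real.log x))) {i x : ℕ}
    (h8 : 8 * D ≤ 2 ^ i) (hx16 : 16 ≤ x) :
    (((Finset.Icc 1 x).filter (fun p : ℕ => p.Prime ∧
      (1 / 2 : ℝ) * ((2 ^ i : ℕ) : ℝ) ≤ ((LR (2 ^ i) (Li D i) p).card : ℝ))).card : ℝ) ≤
      (8 * D * (((i : ℝ) + 1) / √(2 ^ i : ℝ)) + 16 * D * (((i : ℝ) + 1) * (2 ^ i : ℝ) / x)) *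
        (x / Real.log x) := by
  have hg := Li_gt D i
  have hl := Li_le (i := i) hD
  have hL1 : 1 ≤ Li D i := by unfold Li; omega
  have hD' : (1 : ℝ) ≤ D := by exact_mod_cast hD
  have hx' : (16 : ℝ) ≤ x := by exact_mod_cast hx16
  have hx0 : (0 : ℝ) < x := by linarith
  have hlx : 0 < Real.log x := Real.log_pos (by linarith)
  have hLJ : Li D i ≤ 2 ^ i := by
    by_contra hcon
    push Not at hcon
    have h1 : 2 ^ i * 2 ^ i < Li D i ^ 2 := by nlinarith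
    have h2 : 8 * D * 2 ^ i ≤ 2 ^ i * 2 ^ i := Nat.mul_le_mul_right _ h8
    omega
  have hg' : 2 * (D : ℝ) * 2 ^ i ≤ (Li D i : ℝ) ^ 2 := by exact_mod_cast hg.le
  have hc1 : C * ((2 ^ i : ℕ) : ℝ) ≤ 1 / 2 * (Li D i : ℝ) ^ 2 := by
    have h1 : C * ((2 ^ i : ℕ) : ℝ) ≤ D * ((2 ^ i : ℕ) : ℝ) :=
      mul_le_mul_of_nonneg_right hCD (by positivity)
    push_cast at h1 ⊢
    linarith
  refine (hgap (2 ^ i) (Li D i) x (1 / 2) hL1 hLJ (by norm_num) (by norm_num) hc1).trans ?_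
  have hp : (0 : ℝ) < √(2 ^ i : ℝ) := Real.sqrt_pos.2 (by positivity)
  have hL0 : (0 : ℝ) < (Li D i : ℝ) := by exact_mod_cast hL1
  have hpL : √(2 ^ i : ℝ) ≤ (Li D i : ℝ) := by
    rw [Real.sqrt_le_left hL0.le]
    refine le_trans ?_ hg'
    have : (1 : ℝ) ≤ 2 * D := by linarith
    exact le_mul_of_one_le_left (by positivity) this
  have hlog : Real.log (2 * ((2 ^ i : ℕ) : ℝ)) ≤ (i : ℝ) + 1 := by
    have h1 : (2 * ((2 ^ i : ℕ) : ℝ)) = 2 ^ (i + 1) := by push_cast; ring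
    rw [h1, Real.log_pow]
    push_cast
    have h2 : Real.log 2 ≤ 1 := by
      have := Real.log_two_lt_d9
      linarith
    calc ((i : ℝ) + 1) * Real.log 2 ≤ ((i : ℝ) + 1) * 1 :=
          mul_le_mul_of_nonneg_left h2 (by positivity)
      _ = (i : ℝ) + 1 := mul_one _
  have h1 : 1 / ((1 / 2 : ℝ) ^ 3 * (Li D i : ℝ)) ≤ 8 * (1 / √(2 ^ i : ℝ)) := by
    rw [mul_one_div, div_le_div_iff₀ (by positivity) hp]
    nlinarith
  have h1' : (((2 ^ i : ℕ) : ℝ)) / ((1 / 2 : ℝ) ^ 4 * x) = 16 * ((2 ^ i : ℝ) / x) := by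
    push_cast
    field_simp
    norm_num
  have h2 : Real.log (2 * ((2 ^ i : ℕ) : ℝ)) *
      (1 / ((1 / 2 : ℝ) ^ 3 * (Li D i : ℝ)) + (((2 ^ i : ℕ) : ℝ)) / ((1 / 2 : ℝ) ^ 4 * x)) ≤
      ((i : ℝ) + 1) * (8 * (1 / √(2 ^ i : ℝ)) + 16 * ((2 ^ i : ℝ) / x)) := by
    rw [h1']
    refine mul_le_mul hlog (by linarith) (by positivity) (by positivity)
  have hxl : 0 ≤ (x : ℝ) / Real.log x := by positivity
  calc C * (Real.log (2 * ((2 ^ i : ℕ) : ℝ)) *
      (1 / ((1 / 2 : ℝ) ^ 3 * (Li D i : ℝ)) + (((2 ^ i : ℕ) : ℝ)) / ((1 / 2 : ℝ) ^ 4 * x)) *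
        (x / Real.log x))
      ≤ C * (((i : ℝ) + 1) * (8 * (1 / √(2 ^ i : ℝ)) + 16 * ((2 ^ i : ℝ) / x)) *
        (x / Real.log x)) :=
        mul_le_mul_of_nonneg_left (mul_le_mul_of_nonneg_right h2 hxl) hC.le
    _ ≤ D * (((i : ℝ) + 1) * (8 * (1 / √(2 ^ i : ℝ)) + 16 * ((2 ^ i : ℝ) / x)) *
        (x / Real.log x)) :=
        mul_le_mul_of_nonneg_right hCD (by positivity)
    _ = _ := by ring

private theorem wc (Z : ℕ → Prop) (a b L l r : ℕ) (hL : 1 ≤ L)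
    (hF : ∀ F : Finset ℕ, (∀ g ∈ F, (a ≤ g ∧ g < b) ∧ ∃ u : ℕ, a ≤ u ∧ u ≤ g ∧ g < u + L ∧
      u + L ≤ b ∧ ∀ g' ∈ Finset.Ico u (u + L), Z g') → F.card ≤ l)
    (hR : ∀ F : Finset ℕ, (∀ g ∈ F, (a ≤ g ∧ g < b) ∧ ¬ Z g) → F.card ≤ r) :
    b - a ≤ l + (r + 1) * L := by
  classical
  refine (window_comb Z a b L hL).trans
    (Nat.add_le_add (hF _ ?_) (Nat.mul_le_mul_right _ (Nat.add_le_add_right (hR _ ?_) 1)))
  · intro g hg
    rw [Finset.mem_filter, Finset.mem_Ico] at hg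
    exact hg
  · intro g hg
    rw [Finset.mem_filter, Finset.mem_Ico] at hg
    exact hg

open Classical in
private theorem win_part {D J i p : ℕ} (hD : 1 ≤ D) (hJ : 1024 * D ^ 2 ≤ J)
    (h1 : 4 * D * 2 ^ i ≤ J) (h2 : J < 8 * D * 2 ^ i) (hp : 2 * J + 3 ≤ p)
    (hr : (((Finset.Icc 1 J).filter (fun g : ℕ => 2 * g + 3 ≤ p ∧
        ¬ (p : ℤ) ∣ (_root_.bernoulli (p - 1 - 2 * g)).num)).card : ℝ) <
        1 / (32 * D) * Real.sqrt J) :
    (1 / 2 : ℝ) * ((2 ^ i : ℕ) : ℝ) ≤ ((LR (2 ^ i) (Li D i) p).card : ℝ) := by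
  by_contra hcon
  push Not at hcon
  have hD' : (1 : ℝ) ≤ D := by exact_mod_cast hD
  have hL1 : 1 ≤ Li D i := by unfold Li; omega
  have hl := Li_le (i := i) hD
  have hiJ : 2 ^ i ≤ J := by
    have : 1 * 2 ^ i ≤ 4 * D * 2 ^ i := Nat.mul_le_mul_right _ (by omega)
    omega
  obtain ⟨r, hrdef⟩ : ∃ r : ℕ, r = ((Finset.Icc 1 J).filter (fun g : ℕ => 2 * g + 3 ≤ p ∧
        ¬ (p : ℤ) ∣ (_root_.bernoulli (p - 1 - 2 * g)).num)).card := ⟨_, rfl⟩
  rw [← hrdef] at hr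
  obtain ⟨l, hldef⟩ : ∃ l : ℕ, l = (LR (2 ^ i) (Li D i) p).card := ⟨_, rfl⟩
  rw [← hldef] at hcon
  have hw2 : 2 ^ i ≤ l + (r + 1) * Li D i := by
    have h4 : 2 ^ i = 2 ^ i + 1 - 1 := (Nat.add_sub_cancel (2 ^ i) 1).symm
    rw [h4]
    refine wc (fun g : ℕ => (p : ℤ) ∣ (_root_.bernoulli (p - 1 - 2 * g)).num) 1
      (2 ^ i + 1) (Li D i) l r hL1 ?_ ?_
    · intro F hF
      rw [hldef]
      refine Finset.card_le_card ?_
      intro g hg
      unfold LR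
      have hg1 := hF g hg
      rw [Finset.mem_filter, Finset.mem_Icc]
      exact ⟨⟨hg1.1.1, by omega⟩, hg1.2⟩
    · intro F hF
      rw [hrdef]
      refine Finset.card_le_card ?_
      intro g hg
      have hg1 := hF g hg
      rw [Finset.mem_filter, Finset.mem_Icc]
      exact ⟨⟨hg1.1.1, by omega⟩, by omega, hg1.2⟩
  have hcon2 : 2 * l < 2 ^ i := by
    have h3 : 2 * (l : ℝ) < ((2 ^ i : ℕ) : ℝ) := by linarith
    exact_mod_cast h3
  have h5 : 2 ^ i < 2 * ((r + 1) * Li D i) := by omega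
  have h6 : 2 ^ i < 32 * D * (r + 1) ^ 2 := by
    have h7 : 2 ^ i * 2 ^ i < (2 * ((r + 1) * Li D i)) * (2 * ((r + 1) * Li D i)) :=
      Nat.mul_lt_mul_of_lt_of_le h5 h5.le (by omega)
    have h8 : (2 * ((r + 1) * Li D i)) * (2 * ((r + 1) * Li D i)) = 4 * (r + 1) ^ 2 * Li D i ^ 2 := by
      ring
    have h9 : 4 * (r + 1) ^ 2 * Li D i ^ 2 ≤ 4 * (r + 1) ^ 2 * (8 * D * 2 ^ i) :=
      Nat.mul_le_mul_left _ hl
    have h10 : 4 * (r + 1) ^ 2 * (8 * D * 2 ^ i) = 32 * D * (r + 1) ^ 2 * 2 ^ i := by ring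
    have h11 : 2 ^ i * 2 ^ i < 32 * D * (r + 1) ^ 2 * 2 ^ i := by omega
    exact Nat.lt_of_mul_lt_mul_right h11
  have h7 : J ≤ (16 * D * (r + 1)) ^ 2 := by
    have h8 : 8 * D * 2 ^ i ≤ 8 * D * (32 * D * (r + 1) ^ 2) := Nat.mul_le_mul_left _ h6.le
    have h9 : 8 * D * (32 * D * (r + 1) ^ 2) = (16 * D * (r + 1)) ^ 2 := by ring
    omega
  have h8 : √(J : ℝ) ≤ 16 * D * ((r : ℝ) + 1) := by
    rw [Real.sqrt_le_left (by positivity)]
    exact_mod_cast h7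
  have h9 : 32 * (D : ℝ) ≤ √(J : ℝ) := by
    apply Real.le_sqrt_of_sq_le
    have h10 : ((1024 * D ^ 2 : ℕ) : ℝ) ≤ J := by exact_mod_cast hJ
    push_cast at h10
    nlinarith
  have h10 : 32 * (D : ℝ) * r < √(J : ℝ) := by
    have h11 : 1 / (32 * (D : ℝ)) * √(J : ℝ) = √(J : ℝ) / (32 * D) := by ring
    rw [h11, lt_div_iff₀ (by positivity)] at hr
    linarith
  nlinarith

private theorem geo (a M : ℕ) (n : ℕ) :
    (∑ k ∈ Finset.range n, (if a * 2 ^ k ≤ M then (a * 2 ^ k : ℕ) else 0) ≤ a * 2 ^ n) ∧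
    (∑ k ∈ Finset.range n, (if a * 2 ^ k ≤ M then (a * 2 ^ k : ℕ) else 0) ≤ 2 * M) := by
  induction n with
  | zero => simp
  | succ n ih =>
    obtain ⟨h1, h2⟩ := ih
    rw [Finset.sum_range_succ]
    have h3 : a * 2 ^ (n + 1) = 2 * (a * 2 ^ n) := by ring
    split_ifs with h
    · constructor <;> omega
    · constructor <;> omega

private theorem small_pr {K M x : ℕ} (hK : 2 ≤ K) (hKM : K ≤ M) (hx : 16 ≤ x) :
    3 * (M : ℝ) ≤ 24 * (Real.log K / √K + M * Real.log M / x) * (x / Real.log x) := by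
  have hK' : (2 : ℝ) ≤ K := by exact_mod_cast hK
  have hM' : (K : ℝ) ≤ M := by exact_mod_cast hKM
  have hM2 : (2 : ℝ) ≤ M := hK'.trans hM'
  have hx' : (16 : ℝ) ≤ x := by exact_mod_cast hx
  have hx0 : (0 : ℝ) < x := by linarith
  have hsK : 0 < √(K : ℝ) := Real.sqrt_pos.2 (by linarith)
  have hlx : 0 < Real.log x := Real.log_pos (by linarith)
  have hlM : 0 < Real.log M := Real.log_pos (by linarith)
  have hl2 := Real.log_two_gt_d9
  have hlK : 1 / 2 ≤ Real.log K := by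
    have h2 : Real.log 2 ≤ Real.log K := Real.log_le_log (by norm_num) hK'
    linarith
  have hW : 0 ≤ Real.log K / √K := div_nonneg (by linarith) hsK.le
  have hV : 0 ≤ M * Real.log M / x := by positivity
  have hX : 0 ≤ (x : ℝ) / Real.log x := by positivity
  rcases le_or_gt (x : ℝ) ((M : ℝ) ^ 2) with h | h
  · have h1 : Real.log x ≤ 2 * Real.log M := by
      have := Real.log_le_log hx0 h
      rwa [Real.log_pow] at this
    have h2 : M / 2 ≤ M * Real.log M / x * (x / Real.log x) := by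
      have : M * Real.log M / x * (x / Real.log x) = M * Real.log M / Real.log x := by
        field_simp
      rw [this, div_le_div_iff₀ (by norm_num) hlx]
      nlinarith
    have h3 := mul_nonneg hW hX
    nlinarith
  · have hs : 0 < √(x : ℝ) := Real.sqrt_pos.2 hx0
    have hMs : (M : ℝ) ≤ √x := Real.le_sqrt_of_sq_le h.le
    have hq : 0 < √(√(x : ℝ)) := Real.sqrt_pos.2 hs
    have hKq : √(K : ℝ) ≤ √(√(x : ℝ)) := Real.sqrt_le_sqrt (hM'.trans hMs)
    have hlq : Real.log x ≤ 4 * √(√(x : ℝ)) := by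
      have h1 : Real.log x = 4 * Real.log (√(√(x : ℝ))) := by
        rw [Real.log_sqrt hs.le, Real.log_sqrt hx0.le]; ring
      have h2 := Real.log_le_sub_one_of_pos hq
      rw [h1]
      linarith
    have h1 : √(x : ℝ) / 8 ≤ Real.log K / √K * (x / Real.log x) := by
      rw [div_mul_div_comm, div_le_div_iff₀ (by norm_num) (by positivity)]
      have h2 : √(K : ℝ) * Real.log x ≤ √(√(x : ℝ)) * (4 * √(√(x : ℝ))) :=
        mul_le_mul hKq hlq hlx.le hq.le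
      have h3 : √(√(x : ℝ)) * (4 * √(√(x : ℝ))) = 4 * √(x : ℝ) := by
        have := Real.mul_self_sqrt hs.le
        linarith
      have h4 : √(x : ℝ) * √(x : ℝ) = x := Real.mul_self_sqrt hx0.le
      calc √(x : ℝ) * (√(K : ℝ) * Real.log x) ≤ √(x : ℝ) * (4 * √(x : ℝ)) :=
            mul_le_mul_of_nonneg_left (h2.trans h3.le) hs.le
        _ = 4 * x := by linarith
        _ ≤ Real.log K * x * 8 := by nlinarith
    have h3 := mul_nonneg hV hX
    nlinarith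

open Classical in
theorem nonzero_w : ∃ c C : ℝ, 0 < c ∧ 0 < C ∧ ∀ K M x : ℕ, 2 ≤ K →
    (((Finset.Icc 1 x).filter (fun p : ℕ => p.Prime ∧ ∃ J : ℕ, K ≤ J ∧ J ≤ M ∧
      (((Finset.Icc 1 J).filter (fun g : ℕ => 2 * g + 3 ≤ p ∧
        ¬ (p : ℤ) ∣ (_root_.bernoulli (p - 1 - 2 * g)).num)).card : ℝ) < c * Real.sqrt J)).card : ℝ) ≤
      C * (Real.log K / Real.sqrt K + M * Real.log M / x) * Nat.primeCounting x := by
  obtain ⟨C₀, hC₀, hgap⟩ := gap_law_w
  obtain ⟨D₀, hD₀⟩ := exists_nat_ge C₀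
  obtain ⟨D, hDdef⟩ : ∃ D : ℕ, D = D₀ + 1 := ⟨_, rfl⟩
  have hD : 1 ≤ D := by omega
  have hD' : (1 : ℝ) ≤ D := by exact_mod_cast hD
  have hCD : C₀ ≤ D := by
    rw [hDdef]
    push_cast
    linarith
  obtain ⟨S, hS, hsum⟩ := sum_bd
  obtain ⟨C₁, hC₁⟩ : ∃ C₁ : ℝ, C₁ = 24 + 192 * D ^ 2 * S + 96 * D := ⟨_, rfl⟩
  have hC₁0 : 0 < C₁ := by rw [hC₁]; positivity
  refine ⟨1 / (32 * D), 64 * D + 4 * C₁, by positivity, by positivity, ?_⟩
  intro K M x hK
  have hK' : (2 : ℝ) ≤ K := by exact_mod_cast hK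
  have hsK : 0 < √(K : ℝ) := Real.sqrt_pos.2 (by linarith)
  have hl2 := Real.log_two_gt_d9
  have hlK : 1 / 2 ≤ Real.log K := by
    have h2 : Real.log 2 ≤ Real.log K := Real.log_le_log (by norm_num) hK'
    linarith
  have hπ : (0 : ℝ) ≤ Nat.primeCounting x := by positivity
  have hLK : 0 ≤ Real.log K / √K := div_nonneg (by linarith) hsK.le
  have hLM : 0 ≤ Real.log M := Real.log_natCast_nonneg M
  obtain ⟨W, hW⟩ : ∃ W : ℝ, W = Real.log K / √K := ⟨_, rfl⟩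
  obtain ⟨V, hV⟩ : ∃ V : ℝ, V = M * Real.log M / x := ⟨_, rfl⟩
  have hV0 : 0 ≤ V := by rw [hV]; positivity
  rw [← hW] at hLK
  rw [← hW, ← hV]
  rcases Nat.lt_or_ge M K with hMK | hMK
  · -- the set is empty
    have h1 : ((Finset.Icc 1 x).filter (fun p : ℕ => p.Prime ∧ ∃ J : ℕ, K ≤ J ∧ J ≤ M ∧
      (((Finset.Icc 1 J).filter (fun g : ℕ => 2 * g + 3 ≤ p ∧
        ¬ (p : ℤ) ∣ (_root_.bernoulli (p - 1 - 2 * g)).num)).card : ℝ) <
        1 / (32 * (D : ℝ)) * Real.sqrt J)) = ∅ := by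
      rw [Finset.filter_eq_empty_iff]
      rintro p _ ⟨_, J, hJ1, hJ2, _⟩
      omega
    rw [h1, Finset.card_empty, Nat.cast_zero]
    positivity
  rcases Nat.lt_or_ge K (1024 * D ^ 2) with hKs | hKs
  · -- small `K`
    refine (BB.card_primes_le x _).trans ?_
    have h1 : √(K : ℝ) ≤ 32 * D := by
      rw [Real.sqrt_le_left (by positivity)]
      have h2 : (K : ℝ) ≤ ((1024 * D ^ 2 : ℕ) : ℝ) := by exact_mod_cast hKs.le
      push_cast at h2
      nlinarith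
    have h2 : 1 ≤ 64 * D * W := by
      rw [hW, mul_div_assoc', le_div_iff₀ hsK, one_mul]
      calc √(K : ℝ) ≤ 32 * D := h1
        _ = 64 * D * (1 / 2) := by ring
        _ ≤ 64 * D * Real.log K := mul_le_mul_of_nonneg_left hlK (by positivity)
    have h3 : 1 * (Nat.primeCounting x : ℝ) ≤ 64 * D * W * Nat.primeCounting x :=
      mul_le_mul_of_nonneg_right h2 hπ
    have h4 : (64 * D + 4 * C₁) * (W + V) * (Nat.primeCounting x : ℝ) =
        64 * D * W * Nat.primeCounting x +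
          (4 * C₁ * W + (64 * D + 4 * C₁) * V) * Nat.primeCounting x := by ring
    rw [h4]
    have h5 : 0 ≤ (4 * C₁ * W + (64 * D + 4 * C₁) * V) * (Nat.primeCounting x : ℝ) := by positivity
    linarith
  have hKb : 1024 ≤ K := by nlinarith
  have hMr : (1024 : ℝ) ≤ M := by exact_mod_cast hKb.trans hMK
  rcases Nat.lt_or_ge x 16 with hx16 | hx16
  · refine (BB.card_primes_le x _).trans ?_
    rcases Nat.eq_zero_or_pos x with hx0 | hx0
    · subst hx0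
      simp
    · have hx0' : (0 : ℝ) < x := by exact_mod_cast hx0
      have hx16' : (x : ℝ) ≤ 16 := by exact_mod_cast hx16.le
      have hlM1 : 1 / 2 ≤ Real.log M := by
        have h2 : Real.log 2 ≤ Real.log M := Real.log_le_log (by norm_num) (by linarith)
        linarith
      have hV1 : 1 ≤ V := by
        rw [hV, le_div_iff₀ hx0']
        nlinarith
      have h3 : 1 * (Nat.primeCounting x : ℝ) ≤ (64 * D + 4 * C₁) * (W + V) * Nat.primeCounting x := by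
        apply mul_le_mul_of_nonneg_right _ hπ
        have h5 : 1 ≤ 64 * D + 4 * C₁ := by linarith
        have h6 : 1 ≤ W + V := by linarith
        nlinarith
      linarith
  · have hx' : (16 : ℝ) ≤ x := by exact_mod_cast hx16
    have hx0 : (0 : ℝ) < x := by linarith
    have hlx : 0 < Real.log x := Real.log_pos (by linarith)
    have hcheb := BB.primeCounting_ge hx16
    obtain ⟨X, hX⟩ : ∃ X : ℝ, X = (x : ℝ) / Real.log x := ⟨_, rfl⟩
    have hX0 : 0 ≤ X := by rw [hX]; positivity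
    have hsm := small_pr hK hMK hx16
    rw [← hW, ← hV, ← hX] at hsm
    obtain ⟨i₀, hi₀⟩ : ∃ i₀ : ℕ, i₀ = Nat.log 2 (K / (4 * D)) := ⟨_, rfl⟩
    -- choice of the index
    have hidx : ∀ J : ℕ, 1024 * D ^ 2 ≤ J → 4 * D * 2 ^ (Nat.log 2 (J / (4 * D))) ≤ J ∧
        J < 8 * D * 2 ^ (Nat.log 2 (J / (4 * D))) := by
      intro J hJ
      have h4D : 4 * D ≤ J := by nlinarith
      have h1 : 1 ≤ J / (4 * D) := (Nat.le_div_iff_mul_le (by omega)).2 (by omega)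
      have h2 := Nat.pow_log_le_self 2 (x := J / (4 * D)) (by omega)
      have h3 : J / (4 * D) < 2 ^ (Nat.log 2 (J / (4 * D)) + 1) :=
        Nat.lt_pow_succ_log_self (by norm_num) _
      have h4 := (Nat.le_div_iff_mul_le (by omega : 0 < 4 * D)).1 h2
      have h5 := (Nat.div_lt_iff_lt_mul (by omega : 0 < 4 * D)).1 h3
      constructor
      · linarith
      · rw [pow_succ] at h5
        linarith
    obtain ⟨hK1, hK2⟩ := hidx K hKs
    rw [← hi₀] at hK1 hK2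
    have hhead := head_bd hD hK (le_trans (by nlinarith [Nat.one_le_two_pow (n := i₀)]) hK1) hK2.le
    rw [← hW] at hhead
    -- the sets
    obtain ⟨B, hB⟩ : ∃ B : ℕ → Finset ℕ, ∀ k, B k = if 2 ^ i₀ * 2 ^ k ≤ M then
        (Finset.Icc 1 x).filter (fun p : ℕ => p.Prime ∧
          (1 / 2 : ℝ) * ((2 ^ (i₀ + k) : ℕ) : ℝ) ≤
            ((LR (2 ^ (i₀ + k)) (Li D (i₀ + k)) p).card : ℝ)) else ∅ := ⟨_, fun k => rfl⟩
    have h8D : 8 * D ≤ 2 ^ i₀ := by
      have h1 : 1024 * D ^ 2 < 8 * D * 2 ^ i₀ := by omega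
      have h2 : 8 * D * (128 * D) < 8 * D * 2 ^ i₀ := by
        have : 8 * D * (128 * D) = 1024 * D ^ 2 := by ring
        omega
      have h3 := Nat.lt_of_mul_lt_mul_left h2
      omega
    have hBcard : ∀ k, ((B k).card : ℝ) ≤ 192 * D ^ 2 * (W * X) * (((k : ℝ) + 1) / √(2 ^ k : ℝ)) +
        48 * D * (Real.log M / x * X) *
          ((if 2 ^ i₀ * 2 ^ k ≤ M then (2 ^ i₀ * 2 ^ k : ℕ) else 0 : ℕ) : ℝ) := by
      intro k
      have h0 : 0 ≤ 192 * D ^ 2 * (W * X) * (((k : ℝ) + 1) / √(2 ^ k : ℝ)) := by positivity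
      by_cases hx2 : 2 ^ i₀ * 2 ^ k ≤ M
      · rw [hB k, if_pos hx2, if_pos hx2]
        have h8 : 8 * D ≤ 2 ^ (i₀ + k) := h8D.trans (Nat.pow_le_pow_right (by norm_num) (by omega))
        have h1 := B_bound hC₀ hCD hD hgap h8 hx16
        rw [← hX] at h1
        refine h1.trans ?_
        have h2 : √(2 ^ (i₀ + k) : ℝ) = √(2 ^ i₀ : ℝ) * √(2 ^ k : ℝ) := by
          rw [pow_add, Real.sqrt_mul (by positivity)]
        have hp1 : (0 : ℝ) < √(2 ^ i₀ : ℝ) := Real.sqrt_pos.2 (by positivity)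
        have hp2 : (0 : ℝ) < √(2 ^ k : ℝ) := Real.sqrt_pos.2 (by positivity)
        have h3 : (((i₀ + k : ℕ) : ℝ) + 1) / √(2 ^ (i₀ + k) : ℝ) ≤
            (((i₀ : ℝ) + 1) / √(2 ^ i₀ : ℝ)) * (((k : ℝ) + 1) / √(2 ^ k : ℝ)) := by
          rw [h2, div_mul_div_comm]
          apply div_le_div_of_nonneg_right _ (by positivity)
          push_cast
          have h4 : 0 ≤ (i₀ : ℝ) * k := by positivity
          nlinarith
        have h5 : (((i₀ : ℝ) + 1) / √(2 ^ i₀ : ℝ)) * (((k : ℝ) + 1) / √(2 ^ k : ℝ)) ≤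
            24 * D * W * (((k : ℝ) + 1) / √(2 ^ k : ℝ)) :=
          mul_le_mul_of_nonneg_right hhead (by positivity)
        have h6 : (((i₀ + k : ℕ) : ℝ) + 1) ≤ 3 * Real.log M := by
          have h7 : ((i₀ + k : ℕ) : ℝ) * Real.log 2 ≤ Real.log M := by
            rw [← Real.log_pow]
            apply Real.log_le_log (by positivity)
            have : 2 ^ (i₀ + k) ≤ M := by rw [pow_add]; exact hx2
            exact_mod_cast this
          have h8' : Real.log 2 ≤ Real.log M := Real.log_le_log (by norm_num) (by linarith)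
          have h9 : (((i₀ + k : ℕ) : ℝ) + 1) * (2 / 3) ≤ (((i₀ + k : ℕ) : ℝ) + 1) * Real.log 2 :=
            mul_le_mul_of_nonneg_left (by linarith) (by positivity)
          linarith
        have h7 : (((i₀ + k : ℕ) : ℝ) + 1) * (2 ^ (i₀ + k) : ℝ) / x ≤
            3 * Real.log M * (2 ^ (i₀ + k) : ℝ) / x := by
          apply div_le_div_of_nonneg_right _ hx0.le
          exact mul_le_mul_of_nonneg_right h6 (by positivity)
        have h8'' : 8 * D * ((((i₀ + k : ℕ) : ℝ) + 1) / √(2 ^ (i₀ + k) : ℝ)) +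
            16 * D * ((((i₀ + k : ℕ) : ℝ) + 1) * (2 ^ (i₀ + k) : ℝ) / x) ≤
            8 * D * (24 * D * W * (((k : ℝ) + 1) / √(2 ^ k : ℝ))) +
            16 * D * (3 * Real.log M * (2 ^ (i₀ + k) : ℝ) / x) :=
          add_le_add (mul_le_mul_of_nonneg_left (h3.trans h5) (by positivity))
            (mul_le_mul_of_nonneg_left h7 (by positivity))
        refine (mul_le_mul_of_nonneg_right h8'' hX0).trans (le_of_eq ?_)
        push_cast
        rw [pow_add]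
        ring
      · rw [hB k, if_neg hx2, if_neg hx2, Finset.card_empty, Nat.cast_zero]
        rw [mul_zero, add_zero]
        exact h0
    have hsub : ((Finset.Icc 1 x).filter (fun p : ℕ => p.Prime ∧ ∃ J : ℕ, K ≤ J ∧ J ≤ M ∧
      (((Finset.Icc 1 J).filter (fun g : ℕ => 2 * g + 3 ≤ p ∧
        ¬ (p : ℤ) ∣ (_root_.bernoulli (p - 1 - 2 * g)).num)).card : ℝ) <
        1 / (32 * (D : ℝ)) * Real.sqrt J)) ⊆
        Finset.Icc 1 (3 * M) ∪ (Finset.range M).biUnion B := by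
      intro p hp
      rw [Finset.mem_filter] at hp
      obtain ⟨hpI, hpp, J, hKJ, hJM, hr⟩ := hp
      rw [Finset.mem_union, Finset.mem_Icc, Finset.mem_biUnion]
      have hJK : 1024 * D ^ 2 ≤ J := hKs.trans hKJ
      rcases Nat.lt_or_ge p (2 * J + 3) with hps | hps
      · left
        exact ⟨hpp.one_lt.le, by omega⟩
      · right
        obtain ⟨hJ1, hJ2⟩ := hidx J hJK
        obtain ⟨i, hi⟩ : ∃ i : ℕ, i = Nat.log 2 (J / (4 * D)) := ⟨_, rfl⟩
        rw [← hi] at hJ1 hJ2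
        have hii : i₀ ≤ i := by
          rw [hi₀, hi]
          exact Nat.log_mono_right (Nat.div_le_div_right hKJ)
        obtain ⟨k, hk⟩ : ∃ k, i = i₀ + k := ⟨i - i₀, by omega⟩
        have hi2 : i < 2 ^ i := Nat.lt_pow_self (by norm_num)
        have h2J : 2 ^ i ≤ J := by
          have : 1 * 2 ^ i ≤ 4 * D * 2 ^ i := Nat.mul_le_mul_right _ (by omega)
          omega
        refine ⟨k, Finset.mem_range.2 (by omega), ?_⟩
        have hx2 : 2 ^ i₀ * 2 ^ k ≤ M := by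
          rw [← pow_add, ← hk]
          omega
        rw [hB k, if_pos hx2, Finset.mem_filter, ← hk]
        exact ⟨hpI, hpp, win_part hD hJK hJ1 hJ2 hps hr⟩
    have hcard := (Finset.card_le_card hsub).trans
      ((Finset.card_union_le _ _).trans (Nat.add_le_add_left Finset.card_biUnion_le _))
    rw [Nat.card_Icc, Nat.add_sub_cancel] at hcard
    have hcard' : (((Finset.Icc 1 x).filter (fun p : ℕ => p.Prime ∧ ∃ J : ℕ, K ≤ J ∧ J ≤ M ∧
      (((Finset.Icc 1 J).filter (fun g : ℕ => 2 * g + 3 ≤ p ∧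
        ¬ (p : ℤ) ∣ (_root_.bernoulli (p - 1 - 2 * g)).num)).card : ℝ) <
        1 / (32 * (D : ℝ)) * Real.sqrt J)).card : ℝ) ≤
        3 * (M : ℝ) + ∑ k ∈ Finset.range M, ((B k).card : ℝ) := by
      exact_mod_cast hcard
    refine hcard'.trans ?_
    have h2 : ∑ k ∈ Finset.range M, ((B k).card : ℝ) ≤ 192 * D ^ 2 * (W * X) * S +
        48 * D * (Real.log M / x * X) * (2 * M) := by
      refine (Finset.sum_le_sum fun k _ => hBcard k).trans ?_
      rw [Finset.sum_add_distrib, ← Finset.mul_sum, ← Finset.mul_sum]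
      refine add_le_add (mul_le_mul_of_nonneg_left (hsum M) (by positivity))
        (mul_le_mul_of_nonneg_left ?_ (by positivity))
      have := (geo (2 ^ i₀) M M).2
      exact_mod_cast this
    have h3 : 48 * D * (Real.log M / x * X) * (2 * M) = 96 * D * (V * X) := by
      rw [hV]
      ring
    rw [h3] at h2
    have h4 : 3 * (M : ℝ) + (192 * D ^ 2 * (W * X) * S + 96 * D * (V * X)) ≤ C₁ * ((W + V) * X) := by
      rw [hC₁]
      have h5 : 0 ≤ 96 * D * (W * X) := by positivity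
      have h6 : 0 ≤ 192 * D ^ 2 * (V * X) * S := by positivity
      nlinarith
    have h5 : (W + V) * X ≤ (W + V) * (4 * Nat.primeCounting x) := by
      apply mul_le_mul_of_nonneg_left _ (by linarith)
      rw [hX]
      exact hcheb
    have h6 := mul_le_mul_of_nonneg_left h5 hC₁0.le
    have h7 : 0 ≤ 64 * D * ((W + V) * (Nat.primeCounting x : ℝ)) := by positivity
    have h8 : (64 * D + 4 * C₁) * (W + V) * (Nat.primeCounting x : ℝ) =
        64 * D * ((W + V) * Nat.primeCounting x) +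
          C₁ * ((W + V) * (4 * Nat.primeCounting x)) := by ring
    rw [h8]
    linarith

end MP_a3a416_nt.GW
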