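import Pool.Agent.Lib.MP_a3a416_nt.GW.Law
import Pool.Agent.Lib.MP_a3a416_nt.GL.Win

/-!
# GW-Win
Many regular indices in every window, all `e` (no upper bound for `e`).  Copy `GL/Win.lean`.
PROOF.  As `GL/Win.lean` with `law_w` (`δ₁ = δ/8`) instead of `law_all`: the only new point is the third term, `e^(1+δ₁) (e/x)^(1/4) ≤ z/8`: from `e^(5/4+δ) ≤ z x^(1/4)` it is `e^(5/4+δ₁) x^(-1/4) ≤ z e^(δ₁-δ) ≤ z/8` for `e` large.
-/

namespace MP_a3a416_nt.GW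

open MP_a3a416_nt.GL

open Classical in
private theorem Win_comb (e z L p : ℕ) (he : 1 ≤ e) (hz : z ≤ e) (hL : 1 ≤ L) :
    ((z : ℝ) - 1) / 2 ≤ ((LR e L p).card : ℝ) +
      ((((Finset.Ioc e (e + z)).filter (fun k : ℕ => Odd k ∧
        ¬ (p : ℤ) ∣ (_root_.bernoulli (p - k)).num)).card : ℝ) + 1) * L := by
  have h : (e + z + 1) / 2 - (e + 1) / 2 ≤ (LR e L p).card +
      (((Finset.Ioc e (e + z)).filter (fun k : ℕ => Odd k ∧
        ¬ (p : ℤ) ∣ (_root_.bernoulli (p - k)).num)).card + 1) * L := by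
    obtain ⟨Z, hZ⟩ : ∃ Z : ℕ → Prop, ∀ g, Z g ↔
        (p : ℤ) ∣ (_root_.bernoulli (p - 1 - 2 * g)).num := ⟨_, fun _ => Iff.rfl⟩
    refine le_trans (window_comb Z ((e + 1) / 2) ((e + z + 1) / 2) L hL) ?_
    refine Nat.add_le_add ?_ (Nat.mul_le_mul_right _ (Nat.add_le_add_right ?_ 1))
    · apply Finset.card_le_card
      intro g hg
      rw [Finset.mem_filter, Finset.mem_Ico] at hg
      obtain ⟨⟨h1, h2⟩, u, h3, h4, h5, h6, h7⟩ := hg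
      unfold LR
      rw [Finset.mem_filter, Finset.mem_Icc]
      exact ⟨⟨by omega, by omega⟩, u, by omega, h4, h5, by omega,
        fun g' hg' => (hZ g').mp (h7 g' hg')⟩
    · apply Finset.card_le_card_of_injOn (fun g => 2 * g + 1)
      · intro g hg
        obtain ⟨h0, h3⟩ := Finset.mem_filter.mp (Finset.mem_coe.mp hg)
        rw [Finset.mem_Ico] at h0
        have h4 : e < 2 * g + 1 := by omega
        have h5 : 2 * g + 1 ≤ e + z := by omega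
        have e1 : p - (2 * g + 1) = p - 1 - 2 * g := by omega
        refine Finset.mem_coe.mpr (Finset.mem_filter.mpr ⟨Finset.mem_Ioc.mpr ⟨h4, h5⟩, ⟨g, rfl⟩, ?_⟩)
        change ¬ (p : ℤ) ∣ (_root_.bernoulli (p - (2 * g + 1))).num
        rw [e1, ← hZ]
        exact h3
      · intro a _ b _ hab
        have hab' : 2 * a + 1 = 2 * b + 1 := hab
        omega
  have h2 : z ≤ 2 * ((e + z + 1) / 2 - (e + 1) / 2) + 1 := by omega
  have h3 : (z : ℝ) ≤ 2 * (((e + z + 1) / 2 - (e + 1) / 2 : ℕ) : ℝ) + 1 := by exact_mod_cast h2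
  have h4 : (((e + z + 1) / 2 - (e + 1) / 2 : ℕ) : ℝ) ≤ ((LR e L p).card : ℝ) +
      ((((Finset.Ioc e (e + z)).filter (fun k : ℕ => Odd k ∧
        ¬ (p : ℤ) ∣ (_root_.bernoulli (p - k)).num)).card : ℝ) + 1) * L := by
    exact_mod_cast h
  linarith

private theorem Win_num (E z D r L R m T : ℝ) (hE : 1 ≤ E) (hD : 7 ≤ D) (hz2 : 2 < z)
    (hm1 : m ≤ z ^ (3 / 2 : ℝ) / E) (hm2 : m ≤ z ^ 4 / E ^ 3) (hm : D ^ 8 ≤ m)
    (hr : r < (D ^ 8)⁻¹ * m) (hL0 : 0 < L)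
    (hL1 : 512 * (E * D / z) ^ 3 ≤ L) (hL2 : 3 * (E * √D / √z) ≤ L)
    (hL3 : L ≤ 1024 * (E * D / z) ^ 3 + 6 * (E * √D / √z))
    (h : (z - 1) / 2 ≤ R + (r + 1) * L)
    (hT : E * D * T ≤ z / 8)
    (hR : R ≤ E * D * max (max (L ^ (-(1 / 3) : ℝ)) (E / L ^ 2)) T) : False := by
  have hE0 : 0 < E := by linarith
  have hD0 : 0 < D := by linarith
  have hz0 : 0 < z := by linarith
  have hm0 : 0 < m := lt_of_lt_of_le (by positivity) hm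
  have hw : 0 < 8 * (E * D / z) := by positivity
  have hR1 : E * D * L ^ (-(1 / 3) : ℝ) ≤ z / 8 := by
    have h1 : L ^ (-(1 / 3) : ℝ) ≤ (8 * (E * D / z))⁻¹ := by
      have h2 : ((8 * (E * D / z)) ^ 3) ^ (-(1 / 3) : ℝ) = (8 * (E * D / z))⁻¹ := by
        rw [← Real.rpow_natCast, ← Real.rpow_mul hw.le, ← Real.rpow_neg_one]
        congr 1
        norm_num
      rw [← h2]
      refine Real.rpow_le_rpow_of_nonpos (by positivity) ?_ (by norm_num)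
      refine le_trans (le_of_eq ?_) hL1
      ring
    calc E * D * L ^ (-(1 / 3) : ℝ) ≤ E * D * (8 * (E * D / z))⁻¹ :=
          mul_le_mul_of_nonneg_left h1 (by positivity)
      _ = z / 8 := by field_simp
  have hsz : 0 < √z := Real.sqrt_pos.mpr hz0
  have hsD : 0 < √D := Real.sqrt_pos.mpr hD0
  have hsz2 : √z ^ 2 = z := Real.sq_sqrt hz0.le
  have hsD2 : √D ^ 2 = D := Real.sq_sqrt hD0.le
  have hR2 : E * D * (E / L ^ 2) ≤ z / 8 := by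
    have h1 : 9 * (E ^ 2 * D / z) ≤ L ^ 2 := by
      have h2 : (3 * (E * √D / √z)) ^ 2 ≤ L ^ 2 := pow_le_pow_left₀ (by positivity) hL2 2
      have h3 : (3 * (E * √D / √z)) ^ 2 = 9 * (E ^ 2 * D / z) := by
        rw [mul_pow, div_pow, mul_pow, hsz2, hsD2]
        norm_num
      rwa [h3] at h2
    have h4 : E * D * (E / L ^ 2) ≤ E * D * (E / (9 * (E ^ 2 * D / z))) := by
      refine mul_le_mul_of_nonneg_left ?_ (by positivity)
      exact div_le_div_of_nonneg_left hE0.le (by positivity) h1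
    have h5 : E * D * (E / (9 * (E ^ 2 * D / z))) = z / 9 := by
      field_simp
    rw [h5] at h4
    linarith
  have hR3 : R ≤ z / 8 := by
    refine le_trans hR ?_
    rw [mul_max_of_nonneg _ _ (by positivity), mul_max_of_nonneg _ _ (by positivity)]
    exact max_le (max_le hR1 hR2) hT
  have hr1 : r + 1 ≤ 2 * ((D ^ 8)⁻¹ * m) := by
    have h1 : 1 ≤ (D ^ 8)⁻¹ * m := by
      rw [inv_mul_eq_div, one_le_div (by positivity)]
      exact hm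
    linarith
  have hA : m * (E * D / z) ^ 3 ≤ z * D ^ 3 := by
    calc m * (E * D / z) ^ 3 ≤ z ^ 4 / E ^ 3 * (E * D / z) ^ 3 :=
          mul_le_mul_of_nonneg_right hm2 (by positivity)
      _ = z * D ^ 3 := by field_simp
  have hsD1 : √D ≤ D ^ 3 := by
    have h1 : √D ≤ D := by
      rw [Real.sqrt_le_left hD0.le]
      nlinarith
    have h2 : D ≤ D ^ 3 := le_self_pow₀ (by linarith) (by norm_num)
    linarith
  have hB : m * (E * √D / √z) ≤ z * D ^ 3 := by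
    have h0 : z ^ (3 / 2 : ℝ) = z * √z := by
      rw [Real.sqrt_eq_rpow, show (3 / 2 : ℝ) = 1 + 1 / 2 by norm_num, Real.rpow_add hz0,
        Real.rpow_one]
    calc m * (E * √D / √z) ≤ z ^ (3 / 2 : ℝ) / E * (E * √D / √z) :=
          mul_le_mul_of_nonneg_right hm1 (by positivity)
      _ = z * √D := by
          rw [h0]
          field_simp
      _ ≤ z * D ^ 3 := mul_le_mul_of_nonneg_left hsD1 hz0.le
  have hC : (r + 1) * L ≤ z / 8 := by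
    have h1 : (r + 1) * L ≤ 2 * ((D ^ 8)⁻¹ * m) * L := mul_le_mul_of_nonneg_right hr1 hL0.le
    have h2 : 2 * ((D ^ 8)⁻¹ * m) * L ≤
        2 * ((D ^ 8)⁻¹ * m) * (1024 * (E * D / z) ^ 3 + 6 * (E * √D / √z)) :=
      mul_le_mul_of_nonneg_left hL3 (by positivity)
    have h3 : 2 * ((D ^ 8)⁻¹ * m) * (1024 * (E * D / z) ^ 3 + 6 * (E * √D / √z)) =
        2 * (D ^ 8)⁻¹ * (1024 * (m * (E * D / z) ^ 3) + 6 * (m * (E * √D / √z))) := by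
      ring
    have h4 : 2 * (D ^ 8)⁻¹ * (1024 * (m * (E * D / z) ^ 3) + 6 * (m * (E * √D / √z))) ≤
        2 * (D ^ 8)⁻¹ * (1024 * (z * D ^ 3) + 6 * (z * D ^ 3)) := by
      refine mul_le_mul_of_nonneg_left ?_ (by positivity)
      linarith
    have h5 : 2 * (D ^ 8)⁻¹ * (1024 * (z * D ^ 3) + 6 * (z * D ^ 3)) = 2060 * z / D ^ 5 := by
      field_simp
      ring
    have h6 : (16807 : ℝ) ≤ D ^ 5 := by
      have h7 : (7 : ℝ) ^ 5 ≤ D ^ 5 := pow_le_pow_left₀ (by norm_num) hD 5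
      linarith [show (7 : ℝ) ^ 5 = 16807 by norm_num]
    have h8 : 2060 * z / D ^ 5 ≤ z / 8 := by
      rw [div_le_div_iff₀ (by positivity) (by norm_num)]
      nlinarith
    linarith
  linarith

open Classical in
theorem window_w (δ ε : ℝ) (hδ : 0 < δ) (hε : 0 < ε) : ∃ e₀ x₀ : ℕ, ∀ x : ℕ, x₀ ≤ x →
    (((Finset.Icc 1 x).filter (fun p : ℕ => p.Prime ∧ ∃ e z : ℕ, e₀ ≤ e ∧ z ≤ e ∧
      (e : ℝ) ^ (3 / 4 + δ) ≤ z ∧ (e : ℝ) ^ (5 / 4 + δ) ≤ z * (x : ℝ) ^ (1 / 4 : ℝ) ∧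
      (((Finset.Ioc e (e + z)).filter (fun k : ℕ => Odd k ∧ ¬ (p : ℤ) ∣ (_root_.bernoulli (p - k)).num)).card : ℝ) <
        (e : ℝ) ^ (-δ) * min ((z : ℝ) ^ (3 / 2 : ℝ) / e) ((z : ℝ) ^ 4 / (e : ℝ) ^ 3))).card : ℝ) ≤
      ε * (x / Real.log x) := by
  obtain ⟨J₀, x₁, H⟩ := law_w (δ / 8) ε (by positivity) hε
  refine ⟨max J₀ (max 1 ⌈(7 : ℝ) ^ (8 / δ)⌉₊), max x₁ 1, fun x hx =>
    le_trans ?_ (H x (le_trans (le_max_left _ _) hx))⟩
  have hx1 : 1 ≤ x := le_trans (le_max_right _ _) hx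
  have hx1' : (1 : ℝ) ≤ x := by exact_mod_cast hx1
  refine Nat.cast_le.mpr (Finset.card_le_card ?_)
  intro p hp
  rw [Finset.mem_filter] at hp ⊢
  obtain ⟨hp1, hp2, e, z, he0, hze, hez, hex, hcard⟩ := hp
  have heJ : J₀ ≤ e := le_trans (le_max_left _ _) he0
  have he1 : 1 ≤ e := le_trans (le_max_left _ _) (le_trans (le_max_right _ _) he0)
  have he7 : ⌈(7 : ℝ) ^ (8 / δ)⌉₊ ≤ e :=
    le_trans (le_max_right _ _) (le_trans (le_max_right _ _) he0)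
  have hE1 : (1 : ℝ) ≤ e := by exact_mod_cast he1
  have hE0 : (0 : ℝ) < e := by linarith
  have hE7 : (7 : ℝ) ^ (8 / δ) ≤ e := Nat.ceil_le.mp he7
  have hzE : (z : ℝ) ≤ e := by exact_mod_cast hze
  obtain ⟨D, hDdef⟩ : ∃ D : ℝ, D = (e : ℝ) ^ (δ / 8) := ⟨_, rfl⟩
  have hD7 : 7 ≤ D := by
    have h1 : ((7 : ℝ) ^ (8 / δ)) ^ (δ / 8) ≤ (e : ℝ) ^ (δ / 8) :=
      Real.rpow_le_rpow (by positivity) hE7 (by positivity)
    have h2 : ((7 : ℝ) ^ (8 / δ)) ^ (δ / 8) = 7 := by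
      rw [← Real.rpow_mul (by norm_num), show 8 / δ * (δ / 8) = 1 by field_simp, Real.rpow_one]
    rw [h2] at h1
    rw [hDdef]
    exact h1
  have hD0 : 0 < D := by linarith
  have hD8 : D ^ 8 = (e : ℝ) ^ δ := by
    rw [hDdef, ← Real.rpow_natCast, ← Real.rpow_mul hE0.le]
    congr 1
    push_cast
    ring
  have hD8' : (D ^ 8)⁻¹ = (e : ℝ) ^ (-δ) := by
    rw [hD8, Real.rpow_neg hE0.le]
  have hED : (e : ℝ) ^ (1 + δ / 8) = e * D := by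
    rw [Real.rpow_add hE0, Real.rpow_one, hDdef]
  have hz2 : (2 : ℝ) < z := by
    have h1 : (e : ℝ) ^ δ ≤ (e : ℝ) ^ (3 / 4 + δ) :=
      Real.rpow_le_rpow_of_exponent_le hE1 (by linarith)
    have h2 : (7 : ℝ) ^ 8 ≤ D ^ 8 := pow_le_pow_left₀ (by norm_num) hD7 8
    rw [hD8] at h2
    have h3 : (2 : ℝ) < 7 ^ 8 := by norm_num
    linarith
  have hz0 : (0 : ℝ) < z := by linarith
  have hmD : D ^ 8 ≤ min ((z : ℝ) ^ (3 / 2 : ℝ) / e) ((z : ℝ) ^ 4 / (e : ℝ) ^ 3) := by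
    rw [hD8]
    refine le_min ?_ ?_
    · rw [le_div_iff₀ hE0]
      calc (e : ℝ) ^ δ * e = (e : ℝ) ^ (δ + 1) := by rw [Real.rpow_add hE0, Real.rpow_one]
        _ ≤ (e : ℝ) ^ ((3 / 4 + δ) * (3 / 2)) :=
            Real.rpow_le_rpow_of_exponent_le hE1 (by linarith)
        _ = ((e : ℝ) ^ (3 / 4 + δ)) ^ (3 / 2 : ℝ) := by rw [Real.rpow_mul hE0.le]
        _ ≤ (z : ℝ) ^ (3 / 2 : ℝ) := Real.rpow_le_rpow (by positivity) hez (by norm_num)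
    · rw [le_div_iff₀ (by positivity)]
      calc (e : ℝ) ^ δ * (e : ℝ) ^ 3 = (e : ℝ) ^ (δ + 3) := by
            rw [Real.rpow_add hE0, ← Real.rpow_natCast (e : ℝ) 3]
            norm_num
        _ ≤ (e : ℝ) ^ ((3 / 4 + δ) * (4 : ℕ)) := by
            refine Real.rpow_le_rpow_of_exponent_le hE1 ?_
            push_cast
            linarith
        _ = ((e : ℝ) ^ (3 / 4 + δ)) ^ 4 := by
            rw [Real.rpow_mul hE0.le, Real.rpow_natCast]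
        _ ≤ (z : ℝ) ^ 4 := pow_le_pow_left₀ (by positivity) hez 4
  have hsz : 0 < √(z : ℝ) := Real.sqrt_pos.mpr hz0
  have hsD : 1 ≤ √D := by
    rw [Real.one_le_sqrt]
    linarith
  have hu1 : 1 ≤ (e : ℝ) * D / z := by
    rw [one_le_div hz0]
    nlinarith
  have hv1 : 1 ≤ (e : ℝ) * √D / √(z : ℝ) := by
    rw [one_le_div hsz]
    have h1 : √(z : ℝ) ≤ z := by
      rw [Real.sqrt_le_left hz0.le]
      nlinarith
    nlinarith
  obtain ⟨L, hLdef⟩ : ∃ L : ℕ, L = ⌈512 * ((e : ℝ) * D / z) ^ 3⌉₊ +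
      ⌈3 * ((e : ℝ) * √D / √(z : ℝ))⌉₊ := ⟨_, rfl⟩
  have hu3 : 1 ≤ ((e : ℝ) * D / z) ^ 3 := one_le_pow₀ hu1
  have hc1 : 512 * ((e : ℝ) * D / z) ^ 3 ≤ (⌈512 * ((e : ℝ) * D / z) ^ 3⌉₊ : ℝ) :=
    Nat.le_ceil _
  have hc2 : 3 * ((e : ℝ) * √D / √(z : ℝ)) ≤ (⌈3 * ((e : ℝ) * √D / √(z : ℝ))⌉₊ : ℝ) :=
    Nat.le_ceil _
  have hc3 : (⌈512 * ((e : ℝ) * D / z) ^ 3⌉₊ : ℝ) < 512 * ((e : ℝ) * D / z) ^ 3 + 1 :=
    Nat.ceil_lt_add_one (by linarith)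
  have hc4 : (⌈3 * ((e : ℝ) * √D / √(z : ℝ))⌉₊ : ℝ) < 3 * ((e : ℝ) * √D / √(z : ℝ)) + 1 :=
    Nat.ceil_lt_add_one (by linarith)
  have hLc : (L : ℝ) = (⌈512 * ((e : ℝ) * D / z) ^ 3⌉₊ : ℝ) +
      (⌈3 * ((e : ℝ) * √D / √(z : ℝ))⌉₊ : ℝ) := by
    rw [hLdef]
    push_cast
    ring
  have hL1 : 512 * ((e : ℝ) * D / z) ^ 3 ≤ (L : ℝ) := by linarith
  have hL2 : 3 * ((e : ℝ) * √D / √(z : ℝ)) ≤ (L : ℝ) := by linarith
  have hL3 : (L : ℝ) ≤ 1024 * ((e : ℝ) * D / z) ^ 3 + 6 * ((e : ℝ) * √D / √(z : ℝ)) := by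
    linarith
  have hL4 : (1 : ℝ) ≤ L := by linarith
  have hL5 : 1 ≤ L := by exact_mod_cast hL4
  have hx0 : (0 : ℝ) < x := by linarith
  have hT : (e : ℝ) * D * ((e : ℝ) / x) ^ (1 / 4 : ℝ) ≤ z / 8 := by
    have hX : 0 < (x : ℝ) ^ (1 / 4 : ℝ) := Real.rpow_pos_of_pos hx0 _
    have h0 : ((e : ℝ) / x) ^ (1 / 4 : ℝ) = (e : ℝ) ^ (1 / 4 : ℝ) / (x : ℝ) ^ (1 / 4 : ℝ) :=
      Real.div_rpow hE0.le hx0.le _
    have h1 : (e : ℝ) ^ (5 / 4 + δ) = e * (e : ℝ) ^ (1 / 4 : ℝ) * D ^ 8 := by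
      rw [hD8, show (5 / 4 + δ : ℝ) = 1 + 1 / 4 + δ by ring, Real.rpow_add hE0,
        Real.rpow_add hE0, Real.rpow_one]
    have h2 : (7 : ℝ) ^ 7 ≤ D ^ 7 := pow_le_pow_left₀ (by norm_num) hD7 7
    have h3 : (8 : ℝ) ≤ D ^ 7 := le_trans (by norm_num) h2
    have h4 : 0 < (e : ℝ) ^ (1 / 4 : ℝ) := Real.rpow_pos_of_pos hE0 _
    rw [h0, ← mul_div_assoc, div_le_div_iff₀ hX (by norm_num)]
    rw [h1] at hex
    have h5 : (e : ℝ) * D * (e : ℝ) ^ (1 / 4 : ℝ) * 8 ≤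
        (e : ℝ) * D * (e : ℝ) ^ (1 / 4 : ℝ) * D ^ 7 :=
      mul_le_mul_of_nonneg_left h3 (by positivity)
    calc (e : ℝ) * D * (e : ℝ) ^ (1 / 4 : ℝ) * 8 ≤
        (e : ℝ) * D * (e : ℝ) ^ (1 / 4 : ℝ) * D ^ 7 := h5
      _ = e * (e : ℝ) ^ (1 / 4 : ℝ) * D ^ 8 := by ring
      _ ≤ z * (x : ℝ) ^ (1 / 4 : ℝ) := hex
  refine ⟨hp1, hp2, e, L, heJ, hL5, ?_⟩
  by_contra hR
  rw [not_lt, hED] at hR
  rw [← hD8'] at hcard
  exact Win_num e z D _ L _ _ _ hE1 hD7 hz2 (min_le_left _ _) (min_le_right _ _) hmD hcard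
    (by linarith) hL1 hL2 hL3 (Win_comb e z L p he1 hze hL5) hT hR

end MP_a3a416_nt.GW
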